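import Pool.Agent.NH22.BS.Stm

set_option autoImplicit false

/-! Averages over a product of finite sets and the mean, two-sided. -/

namespace Pool.Agent.NH22.BS.A1
open Pool.Agent.NH22.BS
open Finset
open Pool.Agent.TH894.NE (mean box Per cfd ch' ch'_norm expandd mem_box)
open Pool.Agent.TH894.ND (ee ee_norm ee_zero)

/-- averages over a product of finite sets and the mean, two-sided -/
theorem t_AVG : S_AVG := by
  intro d ι s m Q hQ H hH Fs Bs hFs ε hε hε1 hgood B hB R W hR hRk hW
  classical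
  have hQr : (0 : ℝ) < Q := by exact_mod_cast (by omega : 0 < Q)
  have hcf : ∀ k, ‖cfd Q H k‖ ≤ W := by
    intro k
    refine le_trans ?_ hW
    unfold cfd mean
    rw [norm_mul, norm_div, norm_one, norm_pow, Complex.norm_natCast]
    apply mul_le_mul_of_nonneg_left _ (by positivity)
    refine (norm_sum_le _ _).trans (sum_le_sum fun n _ => ?_)
    rw [norm_mul, ch'_norm, mul_one, Complex.norm_real, Real.norm_eq_abs]
  have hW0 : 0 ≤ W := (norm_nonneg _).trans (hcf (fun _ => 0))
  obtain ⟨M, hM⟩ : ∃ M : ℝ, M = ∏ i, ((s i).card : ℝ) := ⟨_, rfl⟩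
  have hM0 : 0 ≤ M := by rw [hM]; exact prod_nonneg fun i _ => Nat.cast_nonneg _
  rw [← hM]
  have h1 : ((∑ S ∈ Fintype.piFinset s, H (fun i => m i (S i)) : ℝ) : ℂ) =
      ∑ k ∈ box d Q, cfd Q H k * ∏ i, ∑ t ∈ s i, ee ((k i : ℝ) * m i t / Q) := by
    rw [Complex.ofReal_sum, sum_congr rfl fun S _ => expandd Q hQ H hH (fun i => m i (S i)), sum_comm]
    refine sum_congr rfl fun k _ => ?_
    rw [← mul_sum]
    congr 1
    rw [Finset.prod_univ_sum]
    rfl
  have hz : (fun _ => 0 : Fin d → ℕ) ∈ box d Q := by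
    rw [mem_box]
    intro i
    omega
  have h0 : cfd Q H (fun _ => 0) * ∏ i, ∑ t ∈ s i, ee ((((fun _ => 0 : Fin d → ℕ) i : ℕ) : ℝ) * m i t / Q) =
      ((mean d Q H * M : ℝ) : ℂ) := by
    have e1 : ∀ n : Fin d → ℕ, ch' Q (fun _ => 0) n = 1 := by
      intro n
      unfold ch'
      apply prod_eq_one
      intro i _
      simp only [Nat.cast_zero, zero_mul, zero_div, neg_zero, ee_zero]
    have e2 : cfd Q H (fun _ => 0) = ((mean d Q H : ℝ) : ℂ) := by
      unfold cfd mean
      rw [sum_congr rfl fun n _ => by rw [e1 n, mul_one]]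
      push_cast
      rfl
    have e3 : ∀ i ∈ (univ : Finset (Fin d)), ∑ t ∈ s i, ee ((((fun _ => 0 : Fin d → ℕ) i : ℕ) : ℝ) * m i t / Q) =
        (((s i).card : ℝ) : ℂ) := by
      intro i _
      simp only [Nat.cast_zero, zero_mul, zero_div, ee_zero, sum_const, nsmul_eq_mul, mul_one, Complex.ofReal_natCast]
    rw [e2, prod_congr rfl e3, Complex.ofReal_mul, hM, Complex.ofReal_prod]
  have h2 : ((∑ S ∈ Fintype.piFinset s, H (fun i => m i (S i)) - mean d Q H * M : ℝ) : ℂ) =
      ∑ k ∈ (box d Q).erase (fun _ => 0), cfd Q H k * ∏ i, ∑ t ∈ s i, ee ((k i : ℝ) * m i t / Q) := by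
    rw [Complex.ofReal_sub, h1, ← h0, ← add_sum_erase _ _ hz, add_sub_cancel_left]
  rw [← Real.norm_eq_abs, ← Complex.norm_real, h2]
  refine (norm_sum_le _ _).trans ?_
  have htriv : ∀ (i : Fin d) (k : ℕ), ‖∑ t ∈ s i, ee ((k : ℝ) * m i t / Q)‖ ≤ (s i).card := by
    intro i k
    refine (norm_sum_le _ _).trans ?_
    rw [sum_congr rfl fun t _ => ee_norm _, sum_const, nsmul_eq_mul, mul_one]
  have h3 : ∀ k ∈ (box d Q).erase (fun _ => 0), ‖cfd Q H k * ∏ i, ∑ t ∈ s i, ee ((k i : ℝ) * m i t / Q)‖ ≤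
      M * (R * (if k ∈ Fintype.piFinset Bs then (1 : ℝ) else 0) +
        W * (if k ∈ Fintype.piFinset (fun _ : Fin d => Fs) then ε else 0)) := by
    intro k hk'
    have hk := mem_of_mem_erase hk'
    have hk0 : ∃ i, k i ≠ 0 := by
      by_contra hcon
      push Not at hcon
      exact ne_of_mem_erase hk' (funext hcon)
    rw [norm_mul]
    by_cases hF : k ∈ Fintype.piFinset (fun _ : Fin d => Fs)
    · rw [Fintype.mem_piFinset] at hF
      have hF' : k ∈ Fintype.piFinset (fun _ : Fin d => Fs) := by rw [Fintype.mem_piFinset]; exact hF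
      by_cases hB' : k ∈ Fintype.piFinset Bs
      · rw [if_pos hB', if_pos hF', norm_prod]
        have e1 : ∏ i, ‖∑ t ∈ s i, ee ((k i : ℝ) * m i t / Q)‖ ≤ M := by
          rw [hM]
          exact prod_le_prod (fun _ _ => norm_nonneg _) (fun i _ => htriv i (k i))
        calc ‖cfd Q H k‖ * ∏ i, ‖∑ t ∈ s i, ee ((k i : ℝ) * m i t / Q)‖ ≤ R * M :=
              mul_le_mul (hRk k hk hk0) e1 (prod_nonneg fun _ _ => norm_nonneg _) hR
          _ ≤ M * (R * 1 + W * ε) := by nlinarith [mul_nonneg hM0 (mul_nonneg hW0 hε)]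
      · rw [if_neg hB', if_pos hF']
        rw [Fintype.mem_piFinset] at hB'
        push Not at hB'
        obtain ⟨i₀, hi₀⟩ := hB'
        rw [norm_prod]
        have e1 : ∏ i, ‖∑ t ∈ s i, ee ((k i : ℝ) * m i t / Q)‖ ≤ ε * M := by
          refine le_trans (b := ∏ i, ((if i = i₀ then ε else 1) * ((s i).card : ℝ))) ?_ (le_of_eq ?_)
          · apply prod_le_prod (fun _ _ => norm_nonneg _)
            intro i _
            split_ifs with h
            · subst h
              exact hgood i (k i) (hF i) hi₀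
            · rw [one_mul]
              exact htriv i (k i)
          · rw [prod_mul_distrib, prod_ite_eq' univ i₀ (fun _ => ε), if_pos (mem_univ _), hM]
        calc ‖cfd Q H k‖ * ∏ i, ‖∑ t ∈ s i, ee ((k i : ℝ) * m i t / Q)‖ ≤ W * (ε * M) :=
              mul_le_mul (hcf k) e1 (prod_nonneg fun _ _ => norm_nonneg _) hW0
          _ = M * (R * 0 + W * ε) := by ring
    · have h4 : ∃ i, k i ∉ Fs := by
        rw [Fintype.mem_piFinset] at hF
        push Not at hF
        exact hF
      rw [hFs k hk h4, norm_zero, zero_mul]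
      apply mul_nonneg hM0
      apply add_nonneg
      · apply mul_nonneg hR
        split_ifs
        · exact zero_le_one
        · exact le_rfl
      · rw [if_neg hF, mul_zero]
  refine (sum_le_sum h3).trans ?_
  have h5 : ∑ k ∈ (box d Q).erase (fun _ => 0), M * (R * (if k ∈ Fintype.piFinset Bs then (1 : ℝ) else 0) +
        W * (if k ∈ Fintype.piFinset (fun _ : Fin d => Fs) then ε else 0)) ≤
      ∑ k ∈ box d Q, M * (R * (if k ∈ Fintype.piFinset Bs then (1 : ℝ) else 0) +
        W * (if k ∈ Fintype.piFinset (fun _ : Fin d => Fs) then ε else 0)) := by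
    apply sum_le_sum_of_subset_of_nonneg (erase_subset _ _)
    intro k _ _
    apply mul_nonneg hM0
    apply add_nonneg
    · apply mul_nonneg hR
      split_ifs
      · exact zero_le_one
      · exact le_rfl
    · apply mul_nonneg hW0
      split_ifs
      · exact hε
      · exact le_rfl
  refine h5.trans ?_
  rw [← mul_sum, sum_add_distrib, ← mul_sum, ← mul_sum]
  have e1 : ∑ k ∈ box d Q, (if k ∈ Fintype.piFinset Bs then (1 : ℝ) else 0) ≤ B ^ d := by
    rw [← sum_filter, sum_const, nsmul_eq_mul, mul_one]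
    have : (((box d Q).filter (fun k => k ∈ Fintype.piFinset Bs)).card : ℝ) ≤ ((Fintype.piFinset Bs).card : ℝ) := by
      exact_mod_cast card_le_card (fun k hk => (mem_filter.1 hk).2)
    refine this.trans ?_
    rw [Fintype.card_piFinset]
    push_cast
    calc ∏ i, ((Bs i).card : ℝ) ≤ ∏ _i : Fin d, B := prod_le_prod (fun _ _ => Nat.cast_nonneg _) (fun i _ => hB i)
      _ = B ^ d := by rw [prod_const, card_univ, Fintype.card_fin]
  have e2 : ∑ k ∈ box d Q, (if k ∈ Fintype.piFinset (fun _ : Fin d => Fs) then ε else 0) ≤ (Fs.card : ℝ) ^ d * ε := by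
    rw [← sum_filter, sum_const, nsmul_eq_mul]
    apply mul_le_mul_of_nonneg_right _ hε
    have : (((box d Q).filter (fun k => k ∈ Fintype.piFinset (fun _ : Fin d => Fs))).card : ℝ) ≤ ((Fintype.piFinset (fun _ : Fin d => Fs)).card : ℝ) := by
      exact_mod_cast card_le_card (fun k hk => (mem_filter.1 hk).2)
    refine this.trans ?_
    rw [Fintype.card_piFinset_const]
    push_cast
    exact le_refl _
  calc M * (R * ∑ k ∈ box d Q, (if k ∈ Fintype.piFinset Bs then (1 : ℝ) else 0) +
        W * ∑ k ∈ box d Q, (if k ∈ Fintype.piFinset (fun _ : Fin d => Fs) then ε else 0)) ≤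
        M * (R * B ^ d + W * ((Fs.card : ℝ) ^ d * ε)) :=
        mul_le_mul_of_nonneg_left (add_le_add (mul_le_mul_of_nonneg_left e1 hR) (mul_le_mul_of_nonneg_left e2 hW0)) hM0
    _ = _ := by ring

end Pool.Agent.NH22.BS.A1
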