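import Pool.Agent.NH22.BS.Stm

set_option autoImplicit false

/-!
# Project BS, job BS-6: moments of the model and Fourier coefficients
-/

namespace Pool.Agent.NH22.BS.A2

open Pool.Agent.NH22.BS
open Finset
open Pool.Agent.TH894.NE
open Pool.Agent.TH894.ND (ee ee_norm ee_add ee_int ee_zero orth)

/-- the Fourier coefficient of a function of a smaller period -/
lemma cfd_zero_per {d : ℕ} (Q M : ℕ) (hQ : 1 ≤ Q) (hM : M ∣ Q) (H : (Fin d → ℕ) → ℝ) (hH : Per M H)
    (k : Fin d → ℕ) (i₀ : Fin d) (hnd : ¬ Q ∣ k i₀ * M) : cfd Q H k = 0 := by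
  classical
  unfold cfd
  have hQr : (Q : ℝ) ≠ 0 := by exact_mod_cast (by omega : Q ≠ 0)
  have h5 := shift_box Q M hQ i₀ (fun n => ((H n : ℝ) : ℂ) * ch' Q k n)
  have h6 : ∀ n ∈ box d Q, ((H (Function.update n i₀ ((n i₀ + M) % Q)) : ℝ) : ℂ) *
      ch' Q k (Function.update n i₀ ((n i₀ + M) % Q)) =
      ee (-((k i₀ : ℝ) * M / Q)) * (((H n : ℝ) : ℂ) * ch' Q k n) := by
    intro n _
    have e1 : H (Function.update n i₀ ((n i₀ + M) % Q)) = H n := by
      apply hH.congr
      intro l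
      by_cases hl : l = i₀
      · subst hl
        rw [Function.update_self, Nat.mod_mod_of_dvd _ hM, Nat.add_mod_right]
      · rw [Function.update_of_ne hl]
    have e2 : ch' Q k (Function.update n i₀ ((n i₀ + M) % Q)) =
        ee (-((k i₀ : ℝ) * M / Q)) * ch' Q k n := by
      unfold ch'
      rw [← mul_prod_erase univ _ (mem_univ i₀),
        ← mul_prod_erase univ (fun i => ee (-((k i : ℝ) * n i / Q))) (mem_univ i₀), ← mul_assoc]
      congr 1
      · rw [Function.update_self, ← ee_add]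
        obtain ⟨v, hv⟩ : ∃ v, n i₀ + M = (n i₀ + M) % Q + Q * v :=
          ⟨_, (Nat.mod_add_div (n i₀ + M) Q).symm⟩
        have hvr : (n i₀ : ℝ) + M = (((n i₀ + M) % Q : ℕ) : ℝ) + Q * v := by exact_mod_cast hv
        have e3 : -((k i₀ : ℝ) * (((n i₀ + M) % Q : ℕ) : ℝ) / Q) =
            (-((k i₀ : ℝ) * M / Q) + -((k i₀ : ℝ) * n i₀ / Q)) +
              (((k i₀ : ℤ) * (v : ℤ) : ℤ) : ℝ) := by
          have e4 : (((n i₀ + M) % Q : ℕ) : ℝ) = (n i₀ : ℝ) + M - Q * v := by linarith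
          rw [e4]
          push_cast
          field_simp
          ring
        rw [e3, ee_add, ee_int, mul_one]
      · refine prod_congr rfl fun i hi => ?_
        rw [mem_erase] at hi
        rw [Function.update_of_ne hi.1]
    rw [e1, e2]
    ring
  rw [sum_congr rfl h6, ← mul_sum] at h5
  have h7 : ee (-((k i₀ : ℝ) * M / Q)) ≠ 1 := by
    intro h
    apply hnd
    have h8 := orth Q hQ (-((k i₀ * M : ℕ) : ℤ))
    have h9 : ∀ l ∈ range Q, ee ((l : ℝ) * ((-((k i₀ * M : ℕ) : ℤ) : ℤ) : ℝ) / Q) = 1 := by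
      intro l _
      have e1 : (l : ℝ) * ((-((k i₀ * M : ℕ) : ℤ) : ℤ) : ℝ) / Q =
          (l : ℝ) * (-((k i₀ : ℝ) * M / Q)) := by
        push_cast
        ring
      rw [e1]
      have : ∀ m : ℕ, ee ((m : ℝ) * (-((k i₀ : ℝ) * M / Q))) = 1 := by
        intro m
        induction m with
        | zero => simp [ee_zero]
        | succ m ih =>
            have e2 : (((m + 1 : ℕ) : ℝ)) * (-((k i₀ : ℝ) * M / Q)) =
                (m : ℝ) * (-((k i₀ : ℝ) * M / Q)) + -((k i₀ : ℝ) * M / Q) := by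
              push_cast
              ring
            rw [e2, ee_add, ih, h, mul_one]
      exact this l
    rw [sum_congr rfl h9, sum_const, card_range, nsmul_eq_mul, mul_one] at h8
    by_contra hcon
    have h10 : ¬ ((Q : ℤ) ∣ -((k i₀ * M : ℕ) : ℤ)) := by
      rw [Int.dvd_neg, Int.natCast_dvd_natCast]
      exact hcon
    rw [if_neg h10] at h8
    have : (Q : ℂ) ≠ 0 := by exact_mod_cast (by omega : Q ≠ 0)
    exact this h8
  have h11 : (ee (-((k i₀ : ℝ) * M / Q)) - 1) * ∑ n ∈ box d Q, ((H n : ℝ) : ℂ) * ch' Q k n = 0 := by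
    rw [sub_mul, one_mul, h5, sub_self]
  rcases mul_eq_zero.1 h11 with h12 | h12
  · exact absurd (sub_eq_zero.1 h12) h7
  · rw [h12, mul_zero]

lemma cfd_sub {d : ℕ} (Q : ℕ) (H H' : (Fin d → ℕ) → ℝ) (k : Fin d → ℕ) :
    cfd Q (fun n => H n - H' n) k = cfd Q H k - cfd Q H' k := by
  unfold cfd
  rw [← mul_sub, ← sum_sub_distrib]
  congr 1
  refine sum_congr rfl fun n _ => ?_
  push_cast
  ring

lemma cfd_norm {d : ℕ} (Q : ℕ) (H : (Fin d → ℕ) → ℝ) (k : Fin d → ℕ) :
    ‖cfd Q H k‖ ≤ mean d Q (fun n => |H n|) := by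
  unfold cfd mean
  rw [norm_mul, norm_div, norm_one, norm_pow, Complex.norm_natCast]
  apply mul_le_mul_of_nonneg_left _ (by positivity)
  refine (norm_sum_le _ _).trans (sum_le_sum fun n _ => ?_)
  rw [norm_mul, ch'_norm, mul_one, Complex.norm_real, Real.norm_eq_abs]

lemma loc_mono {d : ℕ} {I : Finset ℕ} {F : ℕ → (Fin d → ℕ) → ℝ} {η η' : ℝ} (h : Loc d I F η)
    (hη : η ≤ η') : Loc d I F η' :=
  fun p hp => ⟨(h p hp).1, (h p hp).2.1, fun n => ((h p hp).2.2.1 n).trans hη, (h p hp).2.2.2⟩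

lemma prod_pos' {I : Finset ℕ} (h : ∀ p ∈ I, p.Prime) : 1 ≤ ∏ p ∈ I, p :=
  Nat.one_le_iff_ne_zero.2 (prod_ne_zero_iff.2 fun p hp => (h p hp).ne_zero)

/-- the mean of `exp |Z|` -/
lemma mean_exp {d : ℕ} {I : Finset ℕ} {F : ℕ → (Fin d → ℕ) → ℝ} {V : ℝ} (h : Loc d I F 1)
    (hV : ∑ p ∈ I, mean d p (fun n => F p n ^ 2) ≤ V) :
    mean d (∏ p ∈ I, p) (fun n => Real.exp |∑ p ∈ I, F p n|) ≤ 2 * Real.exp V := by
  have key : ∀ l : ℝ, |l| ≤ 1 → mean d (∏ p ∈ I, p) (fun n => Real.exp (l * ∑ p ∈ I, F p n)) ≤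
      Real.exp (l ^ 2 * V) := fun l hl =>
    exp_moment I (fun p => p) (fun p hp => (h p hp).1.one_lt.le)
      (fun p hp p' hp' hne => (Nat.coprime_primes (h p hp).1 (h p' hp').1).2 hne) F
      (fun p hp => (h p hp).2.1) (fun p hp => (h p hp).2.2.1) (fun p hp => (h p hp).2.2.2) V hV l hl
  have h1 := key 1 (by simp)
  have h2 := key (-1) (by simp)
  have h3 : ∀ n : Fin d → ℕ, Real.exp |∑ p ∈ I, F p n| ≤
      Real.exp (1 * ∑ p ∈ I, F p n) + Real.exp (-1 * ∑ p ∈ I, F p n) := by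
    intro n
    rcases abs_choice (∑ p ∈ I, F p n) with h | h
    · rw [h, one_mul]
      have := Real.exp_pos (-1 * ∑ p ∈ I, F p n)
      linarith
    · rw [h, neg_one_mul]
      have := Real.exp_pos (1 * ∑ p ∈ I, F p n)
      linarith
  refine (mean_mono h3).trans ?_
  rw [mean_add]
  norm_num at h1 h2 ⊢
  linarith

lemma pow_le_exp {z : ℝ} (hz : 0 ≤ z) (J : ℕ) : z ^ J ≤ J.factorial * Real.exp z := by
  have h := Real.pow_div_factorial_le_exp z hz J
  rwa [div_le_iff₀ (by exact_mod_cast Nat.factorial_pos J), mul_comm] at h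

lemma mean_pow {d : ℕ} {I : Finset ℕ} {F : ℕ → (Fin d → ℕ) → ℝ} {V : ℝ} (h : Loc d I F 1)
    (hV : ∑ p ∈ I, mean d p (fun n => F p n ^ 2) ≤ V) (J : ℕ) :
    mean d (∏ p ∈ I, p) (fun n => |∑ p ∈ I, F p n| ^ J) ≤ 2 * (J.factorial : ℝ) * Real.exp V := by
  refine (mean_mono fun n => pow_le_exp (abs_nonneg _) J).trans ?_
  rw [mean_mul]
  have h1 := mean_exp h hV
  have h2 : (0 : ℝ) ≤ J.factorial := Nat.cast_nonneg _
  nlinarith

end Pool.Agent.NH22.BS.A2

namespace Pool.Agent.NH22.BS.A2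

open Pool.Agent.NH22.BS
open Finset
open Pool.Agent.TH894.NE

theorem t_EXPM : S_EXPM := by
  intro d I F V J hJ h hV
  have h1 := mean_pow h hV J
  simp only [hJ.pow_abs] at h1
  exact h1

theorem t_COEF : S_COEF := by
  intro d I F η V J hη0 hη1 h hV
  have hL1 := loc_mono h hη1
  have hE := Real.exp_pos V
  refine ⟨fun k hk hne => ?_, ?_⟩
  · obtain ⟨i₀, hi₀⟩ := hne
    have hQ : 1 ≤ ∏ p ∈ I, p := prod_pos' fun p hp => (h p hp).1
    have hlt := mem_box.1 hk i₀
    obtain ⟨p₀, hp₀, hnd⟩ : ∃ p₀ ∈ I, ¬ p₀ ∣ k i₀ := by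
      by_contra hcon
      push Not at hcon
      have h1 : ∏ p ∈ I, p ∣ k i₀ :=
        Finset.prod_primes_dvd _ (fun p hp => (h p hp).1.prime) hcon
      have := Nat.le_of_dvd (Nat.pos_of_ne_zero hi₀) h1
      omega
    have hQeq : p₀ * ∏ p ∈ I.erase p₀, p = ∏ p ∈ I, p := mul_prod_erase I (fun p => p) hp₀
    have hQ' : 1 ≤ ∏ p ∈ I.erase p₀, p := prod_pos' fun p hp => (h p (mem_of_mem_erase hp)).1
    -- the sum without `p₀`
    have hper : Per (∏ p ∈ I.erase p₀, p) (fun n : Fin d → ℕ => (∑ p ∈ I.erase p₀, F p n) ^ J) := by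
      intro n
      show (∑ p ∈ I.erase p₀, F p n) ^ J = (∑ p ∈ I.erase p₀, F p _) ^ J
      congr 1
      refine sum_congr rfl fun p hp => ?_
      exact ((h p (mem_of_mem_erase hp)).2.1).of_dvd (dvd_prod_of_mem (fun p => p) hp) n
    have hz : cfd (∏ p ∈ I, p) (fun n : Fin d → ℕ => (∑ p ∈ I.erase p₀, F p n) ^ J) k = 0 := by
      refine cfd_zero_per _ (∏ p ∈ I.erase p₀, p) hQ (Dvd.intro_left _ hQeq) _ hper k i₀ ?_
      rw [← hQeq]
      intro hd
      exact hnd (Nat.dvd_of_mul_dvd_mul_right (by omega) hd)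
    have hsub := cfd_sub (∏ p ∈ I, p) (fun n : Fin d → ℕ => (∑ p ∈ I, F p n) ^ J)
      (fun n => (∑ p ∈ I.erase p₀, F p n) ^ J) k
    rw [hz, sub_zero] at hsub
    rw [← hsub]
    refine (cfd_norm _ _ k).trans ?_
    -- the functions with `0` at `p₀`
    obtain ⟨F', hF'⟩ : ∃ F' : ℕ → (Fin d → ℕ) → ℝ, ∀ p n, F' p n = if p = p₀ then 0 else F p n :=
      ⟨fun p n => if p = p₀ then 0 else F p n, fun p n => rfl⟩
    have hF'0 : F' p₀ = fun _ => 0 := by
      funext n
      rw [hF', if_pos rfl]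
    have hF'1 : ∀ p, p ≠ p₀ → F' p = F p := by
      intro p hp
      funext n
      rw [hF', if_neg hp]
    have hmz : mean d p₀ (fun _ => (0 : ℝ)) = 0 := mean_const d p₀ (h p₀ hp₀).1.one_lt.le 0
    have hL' : Loc d I F' 1 := by
      intro p hp
      by_cases hpp : p = p₀
      · subst hpp
        rw [hF'0]
        exact ⟨(h p hp).1, fun n => rfl, fun n => by simp, hmz⟩
      · rw [hF'1 p hpp]
        exact hL1 p hp
    have hV' : ∑ p ∈ I, mean d p (fun n => F' p n ^ 2) ≤ V := by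
      refine (sum_le_sum fun p hp => ?_).trans hV
      refine mean_mono fun n => ?_
      rw [hF']
      split_ifs
      · have := sq_nonneg (F p n)
        simpa using this
      · exact le_rfl
    have hsum : ∀ n, ∑ p ∈ I, F' p n = ∑ p ∈ I.erase p₀, F p n := by
      intro n
      rw [← add_sum_erase I _ hp₀, hF'0, zero_add]
      refine sum_congr rfl fun p hp => ?_
      rw [hF'1 p (ne_of_mem_erase hp)]
    have hme := mean_exp hL' hV'
    simp only [hsum] at hme
    have hpt : ∀ n : Fin d → ℕ, |(∑ p ∈ I, F p n) ^ J - (∑ p ∈ I.erase p₀, F p n) ^ J| ≤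
        (η * ((J + 1).factorial * Real.exp 1)) * Real.exp |∑ p ∈ I.erase p₀, F p n| := by
      intro n
      obtain ⟨a, ha⟩ : ∃ a, a = ∑ p ∈ I, F p n := ⟨_, rfl⟩
      obtain ⟨b, hb⟩ : ∃ b, b = ∑ p ∈ I.erase p₀, F p n := ⟨_, rfl⟩
      have hab : a = F p₀ n + b := by rw [ha, hb, ← add_sum_erase I _ hp₀]
      rw [← ha, ← hb]
      have h1 : |a - b| ≤ η := by
        rw [hab, add_sub_cancel_right]
        exact (h p₀ hp₀).2.2.1 n
      have h2 : max |a| |b| ≤ |b| + 1 := by
        apply max_le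
        · have : |a| ≤ |F p₀ n| + |b| := by
            rw [hab]
            exact abs_add_le _ _
          have := (hL1 p₀ hp₀).2.2.1 n
          linarith
        · linarith
      have h3 := abs_pow_sub_pow_le a b J
      have h4 : max |a| |b| ^ (J - 1) ≤ (J - 1).factorial * Real.exp (|b| + 1) :=
        (pow_le_pow_left₀ (le_max_of_le_left (abs_nonneg _)) h2 _).trans
          (pow_le_exp (by positivity) _)
      have h5 : ((J : ℝ) * ((J - 1).factorial : ℝ)) ≤ (J + 1).factorial := by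
        rcases Nat.eq_zero_or_pos J with h0 | h0
        · subst h0
          simp
        · rw [← Nat.cast_mul, Nat.mul_factorial_pred (by omega)]
          exact_mod_cast Nat.factorial_le (Nat.le_succ J)
      calc |a ^ J - b ^ J| ≤ |a - b| * J * max |a| |b| ^ (J - 1) := h3
        _ ≤ η * J * ((J - 1).factorial * Real.exp (|b| + 1)) := by
            gcongr
        _ = η * ((J : ℝ) * (J - 1).factorial) * (Real.exp 1 * Real.exp |b|) := by
            rw [Real.exp_add]
            ring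
        _ ≤ η * ((J + 1).factorial) * (Real.exp 1 * Real.exp |b|) := by
            gcongr
        _ = _ := by ring
    refine (mean_mono hpt).trans ?_
    rw [mean_mul]
    have he : Real.exp 1 ≤ 3 := by have := Real.exp_one_lt_d9; linarith
    have hf : (0 : ℝ) < (J + 1).factorial := by exact_mod_cast Nat.factorial_pos _
    calc η * ((J + 1).factorial * Real.exp 1) *
          mean d (∏ p ∈ I, p) (fun n => Real.exp |∑ p ∈ I.erase p₀, F p n|) ≤
        η * ((J + 1).factorial * 3) * (2 * Real.exp V) := by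
          apply mul_le_mul _ hme _ (by positivity)
          · gcongr
          · unfold mean
            exact mul_nonneg (by positivity) (sum_nonneg fun n _ => (Real.exp_pos _).le)
      _ ≤ _ := by
          have : 0 ≤ η * (((J + 1).factorial : ℝ) * Real.exp V) := by positivity
          nlinarith
  · have h1 := mean_pow hL1 hV J
    simp only [abs_pow]
    refine h1.trans ?_
    have h2 : (J.factorial : ℝ) ≤ (J + 1).factorial := by
      exact_mod_cast Nat.factorial_le (Nat.le_succ J)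
    have h3 : (0 : ℝ) ≤ J.factorial := Nat.cast_nonneg _
    have h4 : (J.factorial : ℝ) * Real.exp V ≤ (J + 1).factorial * Real.exp V :=
      mul_le_mul_of_nonneg_right h2 hE.le
    have h5 : 0 ≤ (J.factorial : ℝ) * Real.exp V := by positivity
    nlinarith

end Pool.Agent.NH22.BS.A2
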