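import Pool.Agent.NH22.BS.Stm

/-!
# Project BS: the moments of sums of local functions over changes of digits
-/

set_option autoImplicit false

namespace Pool.Agent.NH22.BS

open Finset Filter
open Pool.Agent.TH894.NE
open Pool.Agent.TH894.ND
open Pool.Agent.Y57.FD (digit change exceptions)

lemma Fr_mono (Q D D' : ℕ) (h : D ≤ D') : Fr Q D ⊆ Fr Q D' := by
  classical
  intro k hk
  unfold Fr at hk ⊢
  rw [mem_filter] at hk ⊢
  obtain ⟨h1, M, h2, h3, h4⟩ := hk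
  exact ⟨h1, M, h2, h3.trans h, h4⟩

theorem t_ENG (hA : S_AVG) (hC : S_COEF) : S_ENG := by
  classical
  intro b d J hb hd γ hγ
  obtain ⟨j, hj⟩ : ∃ j, j = J + 1 := ⟨_, rfl⟩
  have hj1 : 1 ≤ j := by omega
  have hjr : (1 : ℝ) ≤ j := by exact_mod_cast hj1
  have hdr : (1 : ℝ) ≤ d := by exact_mod_cast hd
  obtain ⟨δ, hδe⟩ : ∃ δ : ℝ, δ = γ / 4 := ⟨_, rfl⟩
  have hδ : 0 < δ := by rw [hδe]; positivity
  obtain ⟨s, E, hs, hE, x₁, hx₁⟩ := par_bad b j hb hj1 (δ / d) (by positivity)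
  obtain ⟨Z, hZ⟩ : ∃ Z, Z = b ^ (2 * s) := ⟨_, rfl⟩
  obtain ⟨L, hL⟩ : ∃ L, L = (b * b).factorial := ⟨_, rfl⟩
  have hsr : (1 : ℝ) ≤ s := by exact_mod_cast hs
  have hEr : (1 : ℝ) ≤ E := by exact_mod_cast hE
  obtain ⟨d₀, hd₀⟩ : ∃ d₀ : ℝ, d₀ = 1 / (((b * b).factorial : ℝ) * ((b ^ (2 * s) : ℕ) : ℝ)) ^ 2 := ⟨_, rfl⟩
  have hd₀0 : 0 < d₀ := by
    rw [hd₀]
    have h1 : (0 : ℝ) < ((b * b).factorial : ℝ) := by exact_mod_cast Nat.factorial_pos _
    have h2 : (0 : ℝ) < ((b ^ (2 * s) : ℕ) : ℝ) := by exact_mod_cast Nat.pow_pos (by omega)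
    positivity
  obtain ⟨c₁, hc₁⟩ : ∃ c₁ : ℝ, c₁ = d₀ / (16 * s * E) := ⟨_, rfl⟩
  have hc₁0 : 0 < c₁ := by rw [hc₁]; positivity
  obtain ⟨κ, hκ⟩ : ∃ κ : ℝ, κ = 4 * (j : ℝ) * d + γ := ⟨_, rfl⟩
  have hκ0 : 0 < κ := by rw [hκ]; positivity
  obtain ⟨c, hc⟩ : ∃ c : ℝ, c = min (c₁ / (4 * κ)) (1 / (16 * s * j)) := ⟨_, rfl⟩
  have hc0 : 0 < c := by rw [hc]; exact lt_min (by positivity) (by positivity)
  have hcc1 : c ≤ c₁ / (4 * κ) := by rw [hc]; exact min_le_left _ _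
  have hcc2 : c ≤ 1 / (16 * s * j) := by rw [hc]; exact min_le_right _ _
  have hev : ∀ᶠ r : ℕ in atTop, (4 * (r : ℝ) + 2) ≤ Real.exp (c₁ / 2 * r) := by
    have h1 : Tendsto (fun y : ℝ => Real.exp (c₁ / 2 * y) / y ^ 1) atTop atTop :=
      tendsto_exp_mul_div_rpow_atTop 1 (c₁ / 2) (by positivity) |>.congr' (by
        filter_upwards [eventually_gt_atTop 0] with y hy
        rw [Real.rpow_one, pow_one])
    have h2 := (h1.comp tendsto_natCast_atTop_atTop).eventually (eventually_ge_atTop (6 : ℝ))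
    filter_upwards [h2, eventually_ge_atTop 1] with r hr hr1
    have h3 : (1 : ℝ) ≤ r := by exact_mod_cast hr1
    simp only [Function.comp_apply, pow_one] at hr
    rw [le_div_iff₀ (by linarith)] at hr
    linarith
  obtain ⟨r₀, hr₀⟩ := eventually_atTop.1 hev
  obtain ⟨r₁, hr₁⟩ : ∃ r₁, r₁ = r₀ + 8 * s + 8 := ⟨_, rfl⟩
  obtain ⟨x₂, hx₂⟩ := exists_nat_ge (Real.exp (c * r₁))
  have hev3 : ∀ᶠ x : ℕ in atTop, 200 * ((J + 1).factorial : ℝ) ≤ (x : ℝ) ^ (γ / 4) :=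
    ((tendsto_rpow_atTop (by positivity : 0 < γ / 4)).comp tendsto_natCast_atTop_atTop).eventually
      (eventually_ge_atTop (200 * ((J + 1).factorial : ℝ)))
  obtain ⟨x₃, hx₃⟩ := eventually_atTop.1 hev3
  refine ⟨c, hc0, x₁ + x₂ + x₃ + 2, fun r K x hrK hx hxr N hN f hf I F η V hI hη0 hη hF hV => ?_⟩
  have hx2r : (2 : ℝ) ≤ x := by exact_mod_cast (by omega : 2 ≤ x)
  have hx0 : (0 : ℝ) < x := by linarith
  have hx1' : (1 : ℝ) ≤ x := by linarith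
  obtain ⟨n, hn1, hn2, hn3, hn4⟩ := hx₁ x (by omega)
  rw [← hZ] at hn3 hn4
  -- the numbers r i
  have hrn : ∀ i, r₁ ≤ r i := by
    intro i
    have h1 : Real.exp (c * r₁) ≤ x := by
      refine hx₂.trans ?_
      exact_mod_cast (by omega : x₂ ≤ x)
    have h2 : c * r₁ ≤ Real.log x := by
      rw [Real.le_log_iff_exp_le hx0]
      exact h1
    have h3 : c * r₁ ≤ c * r i := h2.trans (hxr i)
    exact_mod_cast le_of_mul_le_mul_left h3 hc0
  have hT : ∀ i, n ≤ K i / (2 * s) := by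
    intro i
    have hrr : (r₁ : ℝ) ≤ r i := by exact_mod_cast hrn i
    have hKr : (2 : ℝ) * r i ≤ K i := by exact_mod_cast hrK i
    have hTr : (K i : ℝ) ≤ 4 * s * (K i / (2 * s) : ℕ) := by
      have h1 : K i < 2 * s * (K i / (2 * s) + 1) := Nat.lt_mul_div_succ (K i) (by omega)
      have h2 : (K i : ℝ) < 2 * s * ((K i / (2 * s) : ℕ) + 1) := by exact_mod_cast h1
      have h3 : (r₁ : ℝ) = r₀ + 8 * s + 8 := by rw [hr₁]; push_cast; ring
      have h4 : (0 : ℝ) ≤ r₀ := Nat.cast_nonneg _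
      nlinarith
    have h1 : 4 * (j : ℝ) * Real.log x ≤ r i / (4 * s) := by
      calc 4 * (j : ℝ) * Real.log x ≤ 4 * j * (c * r i) := mul_le_mul_of_nonneg_left (hxr i) (by positivity)
        _ ≤ 4 * j * ((1 / (16 * s * j)) * r i) := by gcongr
        _ = r i / (4 * s) := by field_simp; ring
    have h2 : (r i : ℝ) / (2 * s) ≤ (K i / (2 * s) : ℕ) := by
      rw [div_le_iff₀ (by positivity)]
      nlinarith
    have h3 : (r₁ : ℝ) = r₀ + 8 * s + 8 := by rw [hr₁]; push_cast; ring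
    have h4 : (0 : ℝ) ≤ r₀ := Nat.cast_nonneg _
    have h5 : (2 : ℝ) ≤ r i / (4 * s) := by
      rw [le_div_iff₀ (by positivity)]
      linarith
    have h6 : (r i : ℝ) / (2 * s) = r i / (4 * s) + r i / (4 * s) := by
      field_simp
      ring
    have h7 : (n : ℝ) ≤ (K i / (2 * s) : ℕ) := by linarith
    exact_mod_cast h7
  obtain ⟨Q, hQ⟩ : ∃ Q, Q = ∏ p ∈ I, p := ⟨_, rfl⟩
  have hprime : ∀ p ∈ I, p.Prime := fun p hp => (hF p hp).1
  have hQ1 : 1 ≤ Q := by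
    rw [hQ]
    exact Nat.one_le_iff_ne_zero.2 (prod_ne_zero_iff.2 fun a ha => (hprime a ha).ne_zero)
  have hLQ : Nat.Coprime L Q := by
    rw [hQ, hL]
    apply Nat.Coprime.prod_right
    intro a ha
    have h1 : Nat.Coprime a (b * b).factorial := by
      rw [(hprime a ha).coprime_iff_not_dvd, (hprime a ha).dvd_factorial]
      have := (hI a ha).1
      omega
    exact h1.symm
  have hbQ : Nat.Coprime b Q := by
    apply Nat.Coprime.coprime_dvd_left _ hLQ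
    rw [hL]
    exact Nat.dvd_factorial (by omega) (by nlinarith)
  have hZQ : Nat.Coprime Z Q := by rw [hZ]; exact hbQ.pow_left _
  obtain ⟨D, hD⟩ : ∃ D, D = x ^ (2 * j) := ⟨_, rfl⟩
  rw [← hD] at hn3
  obtain ⟨Bs, hBs⟩ : ∃ Bs : Fin d → Finset ℕ, Bs = fun i => (Fr Q D).filter (fun k => 4 * (E * (Ig L Z Q (K i / (2 * s)) k).card) < K i / (2 * s)) := ⟨_, rfl⟩
  have hZ2 : 2 ≤ Z := by
    rw [hZ]
    calc 2 ≤ b := hb
      _ = b ^ 1 := (pow_one b).symm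
      _ ≤ b ^ (2 * s) := Nat.pow_le_pow_right (by omega) (by omega)
  have hBc : ∀ i, ((Bs i).card : ℝ) ≤ (x : ℝ) ^ (δ / d) := by
    intro i
    rw [hBs]
    exact (bad_count L Z E n Q D (K i / (2 * s)) hZ2 hE hQ1 hn1 (hT i) hn3 hLQ hZQ).trans hn4
  obtain ⟨ε, hε⟩ : ∃ ε : ℝ, ε = (x : ℝ) ^ (-κ) := ⟨_, rfl⟩
  have hε0 : 0 ≤ ε := by rw [hε]; positivity
  have hε1 : ε ≤ 1 := by
    rw [hε]
    apply Real.rpow_le_one_of_one_le_of_nonpos hx1'
    linarith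
  have hgood : ∀ i, ∀ k ∈ Fr Q D, k ∉ Bs i → ‖∑ S ∈ powersetCard (r i) (range (K i)), ee ((k : ℝ) * (change b (K i) (N i) (f i) S : ℕ) / Q)‖ ≤
      ε * ((powersetCard (r i) (range (K i))).card : ℝ) := by
    intro i k hk hkB
    have hrr : r₁ ≤ r i := hrn i
    have hk2 : K i / (2 * s) ≤ 4 * (E * (Ig (b * b).factorial (b ^ (2 * s)) Q (K i / (2 * s)) k).card) := by
      rw [← hL, ← hZ]
      by_contra hcon
      push Not at hcon
      apply hkB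
      rw [hBs, mem_filter]
      exact ⟨hk, hcon⟩
    refine (good_sum b s E hb hs hE d₀ c₁ hd₀ hc₁ (r i) (K i) (by omega) (hrK i) (by omega) (hr₀ (r i) (by omega)) (N i) (hN i) (f i) (hf i)
      Q hQ1 k hk2).trans ?_
    apply mul_le_mul_of_nonneg_right _ (Nat.cast_nonneg _)
    rw [hε, Real.rpow_def_of_pos hx0]
    apply Real.exp_le_exp.2
    have h1 : κ * Real.log x ≤ c₁ / 2 * r i := by
      calc κ * Real.log x ≤ κ * (c * r i) := mul_le_mul_of_nonneg_left (hxr i) (by positivity)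
        _ ≤ κ * ((c₁ / (4 * κ)) * r i) := by gcongr
        _ = c₁ / 4 * r i := by field_simp
        _ ≤ c₁ / 2 * r i := by
            apply mul_le_mul_of_nonneg_right _ (Nat.cast_nonneg _)
            linarith
    linarith
  -- the moment
  obtain ⟨H, hH⟩ : ∃ H : (Fin d → ℕ) → ℝ, H = fun n => (∑ p ∈ I, F p n) ^ J := ⟨_, rfl⟩
  have hHQ : Per Q H := by
    intro m
    rw [hH]
    show (∑ a ∈ I, F a m) ^ J = (∑ a ∈ I, F a (fun i => m i % Q)) ^ J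
    congr 1
    refine sum_congr rfl fun a ha => ?_
    exact ((hF a ha).2.1.of_dvd (by rw [hQ]; exact dvd_prod_of_mem (fun p => p) ha)) m
  have hxγ1 : (x : ℝ) ^ (-γ) ≤ 1 := by
    apply Real.rpow_le_one_of_one_le_of_nonpos hx1'
    linarith
  obtain ⟨hco1, hco2⟩ := hC d I F η V J hη0 (hη.trans hxγ1) hF hV
  rw [← hQ] at hco1 hco2 ⊢
  obtain ⟨W, hW⟩ : ∃ W : ℝ, W = 100 * ((J + 1).factorial : ℝ) * Real.exp V := ⟨_, rfl⟩
  rw [← hW] at hco1 hco2
  have hW0 : 0 < W := by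
    rw [hW]
    have h1 : (0 : ℝ) < ((J + 1).factorial : ℝ) := by exact_mod_cast Nat.factorial_pos _
    have h2 := Real.exp_pos V
    positivity
  have havg := hA d (Finset ℕ) (fun i => powersetCard (r i) (range (K i))) (fun i S => change b (K i) (N i) (f i) S) Q hQ1 H hHQ (Fr Q D) Bs
    (by
      intro k hk hkF
      obtain ⟨i₀, hi₀⟩ := hkF
      rw [hH]
      refine cfd_zero I (fun p => p) F Q J x hQ1 (fun a ha => ⟨(hprime a ha).one_lt.le, (hI a ha).2,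
        by rw [hQ]; exact dvd_prod_of_mem (fun p => p) ha⟩) (fun a ha => (hF a ha).2.1) k hk i₀ (fun hc => hi₀ ?_)
      rw [hD]
      exact Fr_mono Q _ _ (Nat.pow_le_pow_right (by omega) (by omega)) hc)
    ε hε0 hε1 hgood ((x : ℝ) ^ (δ / d)) hBc (η * W) W (mul_nonneg hη0 hW0.le) (by rw [hH]; exact hco1) (by rw [hH]; exact hco2)
  obtain ⟨C, hCe⟩ : ∃ C : ℝ, C = ∏ i, ((K i).choose (r i) : ℝ) := ⟨_, rfl⟩
  have hC0 : 0 ≤ C := by rw [hCe]; exact prod_nonneg fun i _ => Nat.cast_nonneg _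
  have hcard : ∏ i, (((powersetCard (r i) (range (K i))).card : ℕ) : ℝ) = C := by
    rw [hCe]
    exact prod_congr rfl fun i _ => by rw [card_powersetCard, card_range]
  rw [hcard] at havg
  rw [← hCe]
  have hBd : ((x : ℝ) ^ (δ / d)) ^ d = (x : ℝ) ^ δ := by
    rw [← Real.rpow_natCast, ← Real.rpow_mul hx0.le]
    congr 1
    field_simp
  rw [hBd, hH] at havg
  have hFrd : ((Fr Q D).card : ℝ) ^ d * ε ≤ (x : ℝ) ^ (-γ) := by
    have h2 : ((Fr Q D).card : ℝ) ≤ ((D * D : ℕ) : ℝ) := by exact_mod_cast Fr_card Q D hQ1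
    have h3 : ((D * D : ℕ) : ℝ) = (x : ℝ) ^ (4 * (j : ℝ)) := by
      rw [hD]
      push_cast
      rw [← pow_add, ← Real.rpow_natCast]
      congr 1
      push_cast
      ring
    rw [h3] at h2
    calc ((Fr Q D).card : ℝ) ^ d * ε ≤ ((x : ℝ) ^ (4 * (j : ℝ))) ^ d * ε := by gcongr
      _ = (x : ℝ) ^ (-γ) := by
          rw [hε, ← Real.rpow_natCast ((x : ℝ) ^ (4 * (j : ℝ))), ← Real.rpow_mul hx0.le, ← Real.rpow_add hx0]
          congr 1
          rw [hκ]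
          ring
  refine havg.trans ?_
  apply mul_le_mul_of_nonneg_right _ hC0
  have hxg := hx₃ x (by omega)
  have e1 : η * W * (x : ℝ) ^ δ ≤ W * (x : ℝ) ^ (-(3 * γ / 4)) := by
    calc η * W * (x : ℝ) ^ δ ≤ (x : ℝ) ^ (-γ) * W * (x : ℝ) ^ δ := by gcongr
      _ = W * ((x : ℝ) ^ (-γ) * (x : ℝ) ^ δ) := by ring
      _ = W * (x : ℝ) ^ (-(3 * γ / 4)) := by
          rw [← Real.rpow_add hx0]
          congr 2
          rw [hδe]
          ring
  have e2 : W * (((Fr Q D).card : ℝ) ^ d * ε) ≤ W * (x : ℝ) ^ (-(3 * γ / 4)) := by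
    apply mul_le_mul_of_nonneg_left _ hW0.le
    refine hFrd.trans ?_
    apply Real.rpow_le_rpow_of_exponent_le hx1'
    linarith
  have e3 : (x : ℝ) ^ (-(γ / 2)) = (x : ℝ) ^ (γ / 4) * (x : ℝ) ^ (-(3 * γ / 4)) := by
    rw [← Real.rpow_add hx0]
    congr 1
    ring
  calc η * W * (x : ℝ) ^ δ + W * (((Fr Q D).card : ℝ) ^ d * ε) ≤ 2 * W * (x : ℝ) ^ (-(3 * γ / 4)) := by linarith
    _ = Real.exp V * ((200 * ((J + 1).factorial : ℝ)) * (x : ℝ) ^ (-(3 * γ / 4))) := by rw [hW]; ring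
    _ ≤ Real.exp V * ((x : ℝ) ^ (γ / 4) * (x : ℝ) ^ (-(3 * γ / 4))) := by gcongr
    _ = Real.exp V * (x : ℝ) ^ (-(γ / 2)) := by rw [e3]

end Pool.Agent.NH22.BS
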