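import Pool.Agent.NH22.BS.Stm

/-! # Project BS, BS-8: the product formula for complex means -/

set_option autoImplicit false

namespace Pool.Agent.NH22.BS

open Finset
open Pool.Agent.TH894.NE (box mem_box card_box)

namespace C1

/-- two coprime moduli -/
lemma two_modC {d : ℕ} (u v : ℕ) (hu : 1 ≤ u) (hv : 1 ≤ v) (huv : Nat.Coprime u v)
    (A B : (Fin d → ℕ) → ℂ) (hA : ∀ n, A n = A (fun i => n i % u))
    (hB : ∀ n, B n = B (fun i => n i % v)) :
    ∑ n ∈ box d (u * v), A n * B n = (∑ n ∈ box d u, A n) * ∑ n ∈ box d v, B n := by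
  classical
  rw [sum_mul_sum, ← sum_product']
  obtain ⟨φ, hφ⟩ : ∃ φ : (Fin d → ℕ) → (Fin d → ℕ) × (Fin d → ℕ),
      φ = fun n => (fun i => n i % u, fun i => n i % v) := ⟨_, rfl⟩
  have hmaps : ∀ n ∈ box d (u * v), φ n ∈ box d u ×ˢ box d v := by
    intro n _
    rw [hφ, mem_product, mem_box, mem_box]
    exact ⟨fun i => Nat.mod_lt _ (by omega), fun i => Nat.mod_lt _ (by omega)⟩
  have hinj : Set.InjOn φ (box d (u * v) : Set (Fin d → ℕ)) := by
    intro n hn n' hn' h
    rw [mem_coe, mem_box] at hn hn'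
    rw [hφ] at h
    have h1 := (Prod.mk.injEq _ _ _ _ ▸ h :
      (fun i => n i % u) = (fun i => n' i % u) ∧ (fun i => n i % v) = (fun i => n' i % v))
    funext i
    have h2 : n i ≡ n' i [MOD u] := congrFun h1.1 i
    have h3 : n i ≡ n' i [MOD v] := congrFun h1.2 i
    have h4 : n i ≡ n' i [MOD (u * v)] := (Nat.modEq_and_modEq_iff_modEq_mul huv).1 ⟨h2, h3⟩
    exact Nat.ModEq.eq_of_lt_of_lt h4 (hn i) (hn' i)
  have hsurj : Set.SurjOn φ (box d (u * v) : Set (Fin d → ℕ))
      ((box d u ×ˢ box d v : Finset _) : Set ((Fin d → ℕ) × (Fin d → ℕ))) := by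
    apply surjOn_of_injOn_of_card_le φ (fun n hn => hmaps n hn) hinj
    rw [card_product, card_box, card_box, card_box, mul_pow]
  refine sum_nbij φ hmaps hinj hsurj ?_
  intro n _
  rw [hφ]
  show A n * B n = A (fun i => n i % u) * B (fun i => n i % v)
  rw [← hA n, ← hB n]

lemma per_of_dvd {d q Q : ℕ} (hq : q ∣ Q) {H : (Fin d → ℕ) → ℂ}
    (h : ∀ n, H n = H (fun i => n i % q)) (n : Fin d → ℕ) : H n = H (fun i => n i % Q) := by
  rw [h n, h (fun i => n i % Q)]
  congr 1
  funext i
  exact (Nat.mod_mod_of_dvd (n i) hq).symm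

end C1

open C1

theorem t_CPROD : S_CPROD := by
  classical
  intro d I
  induction I using Finset.induction_on with
  | empty =>
      intro _ G _
      unfold cmean
      simp only [prod_empty, Nat.cast_one, one_pow, div_one, one_mul, sum_const, nsmul_eq_mul,
        mul_one]
      rw [card_box]
      simp
  | insert a I ha ih =>
      intro hp G hG
      have ih' := ih (fun p h => hp p (mem_insert_of_mem h)) G
        (fun p h => hG p (mem_insert_of_mem h))
      rw [prod_insert ha, prod_insert ha, ← ih']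
      obtain ⟨Q, hQ⟩ : ∃ Q, Q = ∏ p ∈ I, p := ⟨_, rfl⟩
      rw [← hQ]
      have hQ1 : 1 ≤ Q := by
        rw [hQ]
        exact Nat.one_le_iff_ne_zero.2 (prod_ne_zero_iff.2 fun p h =>
          (hp p (mem_insert_of_mem h)).ne_zero)
      have ha1 : 1 ≤ a := (hp a (mem_insert_self a I)).one_lt.le
      have hc : Nat.Coprime a Q := by
        rw [hQ]
        apply Nat.Coprime.prod_right
        intro p h
        exact (Nat.coprime_primes (hp a (mem_insert_self a I)) (hp p (mem_insert_of_mem h))).2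
          (fun h' => ha (h' ▸ h))
      have hP : ∀ n : Fin d → ℕ, ∏ p ∈ I, G p n = ∏ p ∈ I, G p (fun i => n i % Q) := by
        intro n
        refine prod_congr rfl fun p h => ?_
        exact per_of_dvd (by rw [hQ]; exact dvd_prod_of_mem (fun p => p) h)
          (hG p (mem_insert_of_mem h)) n
      unfold cmean
      have h1 := two_modC a Q ha1 hQ1 hc (G a) (fun n => ∏ p ∈ I, G p n)
        (hG a (mem_insert_self a I)) hP
      have h2 : ∑ n ∈ box d (a * Q), ∏ p ∈ insert a I, G p n =
          ∑ n ∈ box d (a * Q), G a n * ∏ p ∈ I, G p n :=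
        sum_congr rfl fun n _ => prod_insert ha
      rw [h2, h1]
      push_cast
      rw [mul_pow]
      have h3 : (a : ℂ) ≠ 0 := by exact_mod_cast (by omega : a ≠ 0)
      have h4 : (Q : ℂ) ≠ 0 := by exact_mod_cast (by omega : Q ≠ 0)
      field_simp

end Pool.Agent.NH22.BS
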