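import Pool.Agent.NH22.BS.Stm

set_option autoImplicit false

namespace Pool.Agent.NH22.BS.C2

open Pool.Agent.NH22.BS Finset
open Pool.Agent.TH894.NE (mean box Per card_box)

lemma taylor (z : ℝ) (hz : |z| ≤ 1 / 2) :
    ‖Complex.exp (Complex.I * (z : ℂ)) - (1 + Complex.I * z - (z : ℂ) ^ 2 / 2)‖ ≤ z ^ 2 / 4 := by
  have hn : ‖Complex.I * (z : ℂ)‖ = |z| := by
    rw [norm_mul, Complex.norm_I, one_mul, Complex.norm_real, Real.norm_eq_abs]
  have h := Complex.exp_bound (x := Complex.I * (z : ℂ)) (by rw [hn]; linarith) (n := 3) (by norm_num)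
  rw [hn] at h
  have e : ∑ m ∈ range 3, (Complex.I * (z : ℂ)) ^ m / (m.factorial : ℂ) =
      1 + Complex.I * z - (z : ℂ) ^ 2 / 2 := by
    rw [Finset.sum_range_succ, Finset.sum_range_succ, Finset.sum_range_one]
    simp only [pow_zero, Nat.factorial, pow_one, mul_pow, Complex.I_sq]
    push_cast
    ring
  rw [e] at h
  refine h.trans ?_
  have h3 : |z| ^ 3 = |z| * z ^ 2 := by
    rw [← sq_abs z]
    ring
  rw [h3]
  norm_num [Nat.factorial]
  nlinarith [sq_nonneg z, abs_nonneg z, mul_le_mul_of_nonneg_right hz (sq_nonneg z)]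

lemma one (d p : ℕ) (hp : p.Prime) (f : (Fin d → ℕ) → ℝ) (η u : ℝ) (hf : ∀ n, |f n| ≤ η)
    (hu : |u| * η ≤ 1 / 2) (h0 : mean d p f = 0) :
    ‖cmean d p (fun n => Complex.exp (Complex.I * ((u * f n : ℝ) : ℂ)))‖ ≤
      Real.exp (-(u ^ 2 * mean d p (fun n => f n ^ 2)) / 4) := by
  have hp0 : (0 : ℝ) < (p : ℝ) ^ d := by
    have := hp.pos
    positivity
  have hpc : ((p : ℂ)) ^ d ≠ 0 := pow_ne_zero _ (by exact_mod_cast hp.ne_zero)
  set v := mean d p (fun n => f n ^ 2) with hv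
  have hz : ∀ n, |u * f n| ≤ 1 / 2 := by
    intro n
    rw [abs_mul]
    exact (mul_le_mul_of_nonneg_left (hf n) (abs_nonneg u)).trans hu
  -- the sum of the squares
  have hsum : ∑ n ∈ box d p, (u * f n) ^ 2 = (p : ℝ) ^ d * (u ^ 2 * v) := by
    rw [hv]
    unfold mean
    rw [Finset.mul_sum, Finset.mul_sum, Finset.mul_sum]
    refine Finset.sum_congr rfl fun n _ => ?_
    field_simp
  have hlin : ∑ n ∈ box d p, u * f n = 0 := by
    have h1 : ∑ n ∈ box d p, f n = 0 := by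
      unfold mean at h0
      rcases mul_eq_zero.1 h0 with h | h
      · exact absurd h (by positivity)
      · exact h
    rw [← Finset.mul_sum, h1, mul_zero]
  have hv0 : 0 ≤ u ^ 2 * v := by
    have : 0 ≤ (p : ℝ) ^ d * (u ^ 2 * v) := by
      rw [← hsum]
      exact Finset.sum_nonneg fun n _ => sq_nonneg _
    exact nonneg_of_mul_nonneg_right this hp0
  have hv1 : u ^ 2 * v ≤ 1 / 4 := by
    have h1 : ∑ n ∈ box d p, (u * f n) ^ 2 ≤ ∑ _n ∈ box d p, (1 / 4 : ℝ) := by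
      refine Finset.sum_le_sum fun n _ => ?_
      rw [← sq_abs]
      nlinarith [hz n, abs_nonneg (u * f n)]
    rw [Finset.sum_const, card_box, nsmul_eq_mul, hsum] at h1
    push_cast at h1
    exact le_of_mul_le_mul_left h1 hp0
  -- the main term
  have hmain : cmean d p (fun n => Complex.exp (Complex.I * ((u * f n : ℝ) : ℂ))) =
      ((1 - u ^ 2 * v / 2 : ℝ) : ℂ) + (1 / (p : ℂ) ^ d) * ∑ n ∈ box d p,
        (Complex.exp (Complex.I * ((u * f n : ℝ) : ℂ)) -
          (1 + Complex.I * ((u * f n : ℝ) : ℂ) - ((u * f n : ℝ) : ℂ) ^ 2 / 2)) := by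
    unfold cmean
    rw [Finset.sum_sub_distrib, Finset.sum_sub_distrib, Finset.sum_add_distrib, Finset.sum_const,
      card_box, ← Finset.mul_sum, ← Finset.sum_div, ← Complex.ofReal_sum, hlin]
    have h2 : ∑ n ∈ box d p, ((u * f n : ℝ) : ℂ) ^ 2 =
        ((p : ℂ) ^ d * ((u ^ 2 * v : ℝ) : ℂ)) := by
      have := congrArg (fun r : ℝ => (r : ℂ)) hsum
      rw [Complex.ofReal_sum] at this
      push_cast at this ⊢
      exact this
    rw [h2, nsmul_eq_mul]
    push_cast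
    field_simp
    ring
  rw [hmain]
  have herr : ‖(1 / (p : ℂ) ^ d) * ∑ n ∈ box d p,
        (Complex.exp (Complex.I * ((u * f n : ℝ) : ℂ)) -
          (1 + Complex.I * ((u * f n : ℝ) : ℂ) - ((u * f n : ℝ) : ℂ) ^ 2 / 2))‖ ≤ u ^ 2 * v / 4 := by
    rw [norm_mul, norm_div, norm_one, norm_pow, Complex.norm_natCast]
    have h3 : ‖∑ n ∈ box d p, (Complex.exp (Complex.I * ((u * f n : ℝ) : ℂ)) -
          (1 + Complex.I * ((u * f n : ℝ) : ℂ) - ((u * f n : ℝ) : ℂ) ^ 2 / 2))‖ ≤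
        (p : ℝ) ^ d * (u ^ 2 * v) / 4 := by
      rw [← hsum, Finset.sum_div]
      exact (norm_sum_le _ _).trans (Finset.sum_le_sum fun n _ => taylor _ (hz n))
    calc 1 / (p : ℝ) ^ d * _ ≤ 1 / (p : ℝ) ^ d * ((p : ℝ) ^ d * (u ^ 2 * v) / 4) :=
          mul_le_mul_of_nonneg_left h3 (by positivity)
      _ = u ^ 2 * v / 4 := by field_simp
  refine (norm_add_le _ _).trans ?_
  rw [Complex.norm_real, Real.norm_eq_abs, abs_of_nonneg (by linarith : (0 : ℝ) ≤ 1 - u ^ 2 * v / 2)]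
  have h5 := Real.add_one_le_exp (-(u ^ 2 * v) / 4)
  linarith

theorem t_MODEL (hC : S_CPROD) : S_MODEL := by
  intro d I F η u _ hL hu
  have h1 : (fun n : Fin d → ℕ => Complex.exp (Complex.I * ((u * ∑ p ∈ I, F p n : ℝ) : ℂ))) =
      fun n => ∏ p ∈ I, Complex.exp (Complex.I * ((u * F p n : ℝ) : ℂ)) := by
    funext n
    rw [← Complex.exp_sum, ← Finset.mul_sum, ← Complex.ofReal_sum, ← Finset.mul_sum]
  rw [h1, hC d I (fun p hp => (hL p hp).1)
    (fun p n => Complex.exp (Complex.I * ((u * F p n : ℝ) : ℂ))) (fun p hp n => by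
      rw [(hL p hp).2.1 n]), norm_prod]
  have h2 : -(u ^ 2 * ∑ p ∈ I, mean d p (fun n => F p n ^ 2)) / 4 =
      ∑ p ∈ I, -(u ^ 2 * mean d p (fun n => F p n ^ 2)) / 4 := by
    rw [Finset.mul_sum, ← Finset.sum_neg_distrib, Finset.sum_div]
  rw [h2, Real.exp_sum]
  refine Finset.prod_le_prod (fun p _ => norm_nonneg _) fun p hp => ?_
  exact one d p (hL p hp).1 (F p) η u (hL p hp).2.2.1 hu (hL p hp).2.2.2

end Pool.Agent.NH22.BS.C2
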