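import Pool.Agent.NH22.BS.Stm

/-!
# Project BS: concentration
-/

set_option autoImplicit false

namespace Pool.Agent.NH22.BS.F2

open Pool.Agent.NH22.BS Finset
open Pool.Agent.TH894.NE (mean box Per cfd card_box)

lemma phi_box (d Q : ℕ) (Y : (Fin d → ℕ) → ℝ) (u : ℝ) :
    phi (box d Q) Y u = cmean d Q (fun n => Complex.exp (Complex.I * ((u * Y n : ℝ) : ℂ))) := by
  unfold phi cmean
  rw [card_box]
  push_cast
  ring

lemma avg_box (d Q : ℕ) (Y : (Fin d → ℕ) → ℝ) :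
    (∑ n ∈ box d Q, Y n) / ((box d Q).card : ℝ) = mean d Q Y := by
  unfold mean
  rw [card_box]
  push_cast
  ring

/-- geometric sums -/
lemma geo (q : ℝ) (h0 : 0 ≤ q) (h1 : q < 1) (n : ℕ) : ∑ h ∈ Ico 1 n, q ^ h ≤ 1 / (1 - q) := by
  have h2 : ∑ h ∈ Ico 1 n, q ^ h ≤ ∑ h ∈ range n, q ^ h := by
    apply sum_le_sum_of_subset_of_nonneg
    · intro h hh
      rw [mem_Ico] at hh
      exact mem_range.2 hh.2
    · intro h _ _
      positivity
  refine h2.trans ?_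
  rw [geom_sum_eq (by linarith), ← neg_div_neg_eq, neg_sub, neg_sub]
  apply div_le_div_of_nonneg_right _ (by linarith)
  have : 0 ≤ q ^ n := by positivity
  linarith

lemma conc (hFEJ : S_FEJ) (hPHI : S_PHI) (hMOD : S_MODEL) (hEXP : S_EXPM) {α : Type} (A : Finset α) (X : α → ℝ)
    (hA : A.Nonempty) (I : Finset ℕ) (F : ℕ → (Fin 2 → ℕ) → ℝ) (η : ℝ) (hη0 : 0 ≤ η) (hη1 : η ≤ 1)
    (hloc : Loc 2 I F η) (V : ℝ) (hV : ∑ p ∈ I, mean 2 p (fun n => F p n ^ 2) ≤ V) (cv L : ℝ) (hL : 0 < L) (hcv : 0 < cv)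
    (hV0 : cv * L ≤ ∑ p ∈ I, mean 2 p (fun n => F p n ^ 2)) (n J : ℕ) (hn : 1 ≤ n) (hnL : (n : ℝ) ≤ Real.sqrt L / 4)
    (hJ : Even J) (τ : ℝ)
    (hτ : ∀ j ≤ J, |(∑ a ∈ A, X a ^ j) / (A.card : ℝ) - mean 2 (∏ p ∈ I, p) (fun m => (∑ p ∈ I, F p m) ^ j)| ≤ τ)
    (h1 : 4 * τ * n ≤ 1) (h2 : 4 * (1 / 4 : ℝ) ^ J * Real.exp V * n ≤ 1) (s : ℝ) :
    (((A.filter (fun a => |X a - s| * (1 / Real.sqrt L) ≤ 1 / n)).card : ℕ) : ℝ) ≤
      4 / n * (1 + 2 * (1 / (1 - Real.exp (-(cv / 4))) + 2)) * A.card := by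
  classical
  have hs0 : 0 < Real.sqrt L := Real.sqrt_pos.2 hL
  have hn0 : (0 : ℝ) < n := by exact_mod_cast hn
  have hQ1 : 1 ≤ ∏ p ∈ I, p := Nat.one_le_iff_ne_zero.2 (prod_ne_zero_iff.2 fun p hp => (hloc p hp).1.ne_zero)
  have hB : (box 2 (∏ p ∈ I, p)).Nonempty := by
    refine ⟨fun _ => 0, ?_⟩
    rw [Pool.Agent.TH894.NE.mem_box]
    intro i
    exact hQ1
  have hloc1 : Loc 2 I F 1 := fun p hp => ⟨(hloc p hp).1, (hloc p hp).2.1, fun n => ((hloc p hp).2.2.1 n).trans hη1, (hloc p hp).2.2.2⟩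
  refine (hFEJ α A X s (1 / Real.sqrt L) n hA hn (by positivity)).trans ?_
  apply mul_le_mul_of_nonneg_right _ (Nat.cast_nonneg _)
  apply mul_le_mul_of_nonneg_left _ (by positivity)
  have hkey : ∑ h ∈ Ico 1 n, ‖phi A X (h * (1 / Real.sqrt L))‖ ≤ 1 / (1 - Real.exp (-(cv / 4))) + 2 := by
    have hterm : ∀ h ∈ Ico 1 n, ‖phi A X (h * (1 / Real.sqrt L))‖ ≤
        Real.exp (-(cv / 4)) ^ h + (4 * (1 / 4 : ℝ) ^ J * Real.exp V + 4 * τ) := by
      intro h hh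
      rw [mem_Ico] at hh
      obtain ⟨u, hu⟩ : ∃ u : ℝ, u = h * (1 / Real.sqrt L) := ⟨_, rfl⟩
      rw [← hu]
      have hh1 : (1 : ℝ) ≤ h := by exact_mod_cast hh.1
      have hu0 : 0 ≤ u := by rw [hu]; positivity
      have hu4 : u ≤ 1 / 4 := by
        rw [hu, mul_one_div, div_le_iff₀ hs0]
        have : (h : ℝ) ≤ n := by exact_mod_cast hh.2.le
        linarith
      have hphi := hPHI α (Fin 2 → ℕ) A (box 2 (∏ p ∈ I, p)) X (fun m => ∑ p ∈ I, F p m) J τ (2 * (J.factorial : ℝ) * Real.exp V) u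
        hA hB hJ (fun j hj => by rw [avg_box]; exact hτ j hj)
        (by rw [avg_box]; exact hEXP 2 I F V J hJ hloc1 hV) (by rw [abs_of_nonneg hu0]; linarith)
      have hmod := hMOD 2 I F η u hη0 hloc (by
        rw [abs_of_nonneg hu0]
        calc u * η ≤ 1 / 4 * 1 := mul_le_mul hu4 hη1 hη0 (by norm_num)
          _ ≤ 1 / 2 := by norm_num)
      rw [phi_box] at hphi
      have e1 : Real.exp (-(u ^ 2 * ∑ p ∈ I, mean 2 p (fun n => F p n ^ 2)) / 4) ≤ Real.exp (-(cv / 4)) ^ h := by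
        rw [← Real.exp_nat_mul]
        apply Real.exp_le_exp.2
        have e2 : u ^ 2 * L = (h : ℝ) ^ 2 := by
          rw [hu, mul_one_div, div_pow, Real.sq_sqrt hL.le]
          field_simp
        have e3 : cv * (h : ℝ) ^ 2 ≤ u ^ 2 * ∑ p ∈ I, mean 2 p (fun n => F p n ^ 2) := by
          calc cv * (h : ℝ) ^ 2 = u ^ 2 * (cv * L) := by rw [← e2]; ring
            _ ≤ _ := mul_le_mul_of_nonneg_left hV0 (by positivity)
        have e4 : cv * h ≤ cv * (h : ℝ) ^ 2 := by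
          apply mul_le_mul_of_nonneg_left _ hcv.le
          nlinarith
        linarith
      have e5 : 2 * |u| ^ J * (2 * (J.factorial : ℝ) * Real.exp V) / J.factorial ≤ 4 * (1 / 4 : ℝ) ^ J * Real.exp V := by
        have hf : (0 : ℝ) < J.factorial := by exact_mod_cast Nat.factorial_pos _
        have e6 : 2 * |u| ^ J * (2 * (J.factorial : ℝ) * Real.exp V) / J.factorial = 4 * |u| ^ J * Real.exp V := by
          field_simp
          ring
        rw [e6, abs_of_nonneg hu0]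
        apply mul_le_mul_of_nonneg_right _ (Real.exp_pos _).le
        apply mul_le_mul_of_nonneg_left _ (by norm_num)
        exact pow_le_pow_left₀ hu0 hu4 J
      linarith
    refine (sum_le_sum hterm).trans ?_
    rw [sum_add_distrib, sum_const, Nat.card_Ico, nsmul_eq_mul]
    have hq0 : 0 ≤ Real.exp (-(cv / 4)) := (Real.exp_pos _).le
    have hq1 : Real.exp (-(cv / 4)) < 1 := by
      rw [Real.exp_lt_one_iff]
      linarith
    have hgeo := geo (Real.exp (-(cv / 4))) hq0 hq1 n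
    have hτ0 : 0 ≤ τ := (abs_nonneg _).trans (hτ 0 (Nat.zero_le _))
    have hE0 : 0 ≤ 4 * (1 / 4 : ℝ) ^ J * Real.exp V + 4 * τ := by positivity
    have hn1 : (((n - 1 : ℕ)) : ℝ) ≤ n := by exact_mod_cast Nat.sub_le n 1
    have h3 : (((n - 1 : ℕ)) : ℝ) * (4 * (1 / 4 : ℝ) ^ J * Real.exp V + 4 * τ) ≤ n * (4 * (1 / 4 : ℝ) ^ J * Real.exp V + 4 * τ) :=
      mul_le_mul_of_nonneg_right hn1 hE0
    have h4 : (n : ℝ) * (4 * (1 / 4 : ℝ) ^ J * Real.exp V + 4 * τ) ≤ 2 := by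
      have : (n : ℝ) * (4 * (1 / 4 : ℝ) ^ J * Real.exp V + 4 * τ) = 4 * (1 / 4 : ℝ) ^ J * Real.exp V * n + 4 * τ * n := by ring
      rw [this]
      linarith
    linarith
  linarith

end Pool.Agent.NH22.BS.F2
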