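import Pool.Agent.NH22.BS.F1
import Pool.Agent.NH22.BS.F2

/-!
# Project BS: final assembly
-/

set_option autoImplicit false

namespace Pool.Agent.NH22.BS.F3

open Pool.Agent.NH22.BS Pool.Agent.NH22.BS.F1 Pool.Agent.NH22.BS.F2 Finset Filter
open Pool.Agent.TH894.NE (mean box Per cfd)
open Pool.Agent.Y57.FD (digit change exceptions)

/-- the property -/
def NoLaw (x M : ℕ) (κ : ℝ) (m : Fin 2 → ℕ) : Prop :=
  ∀ ρ A : ℝ, ∃ t : ℕ, x ≤ t ∧ t ≤ x ^ (M ^ 2) ∧ κ < |Real.log (PP m t) - ρ * Real.log (Real.log t) - A|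

lemma card_pi (K r : Fin 2 → ℕ) :
    (((Fintype.piFinset (fun l => powersetCard (r l) (range (K l)))).card : ℕ) : ℝ) = ∏ l, ((K l).choose (r l) : ℝ) := by
  rw [Fintype.card_piFinset]
  push_cast
  exact prod_congr rfl fun l _ => by rw [card_powersetCard, card_range]

theorem fin (hP : S_PER) (hLG : S_LG) (hVAR : S_VAR) (hENG : S_ENG) (hMOD : S_MODEL) (hEXP : S_EXPM) (hPHI : S_PHI)
    (hFEJ : S_FEJ) (hMERT : S_MERT) (hDIFF : S_DIFF) :
    ∃ C : ℝ, 0 < C ∧ ∀ (b M : ℕ) (κ : ℝ), 2 ≤ b → 2 ≤ M → 1 ≤ κ → ∃ c : ℝ, 0 < c ∧ ∃ x₀ : ℕ,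
    ∀ (K r : Fin 2 → ℕ) (x : ℕ), (∀ l, 2 * r l ≤ K l) → x₀ ≤ x → (∀ l, (x : ℝ) ≤ Real.exp (c * r l)) →
    ∀ N : Fin 2 → ℕ, (∀ l, N l < b ^ K l) → ∀ f : Fin 2 → ℕ → ℕ, (∀ l j, f l j < b ∧ f l j ≠ digit b j (N l)) →
    (exceptions b K r N f (NoLaw x M κ) : ℝ) ≤ C * κ / Real.sqrt (Real.log M) * ∏ l, ((K l).choose (r l) : ℝ) := by
  classical
  obtain ⟨CL, hCL0, hCL⟩ := hLG
  have hL' : ∀ (p : ℕ) (m : Fin 2 → ℕ), p.Prime → |Lg p m| ≤ CL / Real.sqrt p := fun p m hp => (hCL p m hp).1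
  obtain ⟨cv, hcv, p₀, hv⟩ := hVAR
  obtain ⟨CM, hCM0, hCM⟩ := hMERT
  obtain ⟨G, hG⟩ : ∃ G : ℝ, G = 1 / (1 - Real.exp (-(cv / 4))) := ⟨_, rfl⟩
  have hq1 : Real.exp (-(cv / 4)) < 1 := by
    rw [Real.exp_lt_one_iff]
    linarith
  have hG0 : 0 < G := by
    rw [hG]
    apply div_pos one_pos
    linarith
  have hsCM : 0 ≤ Real.sqrt CM := Real.sqrt_nonneg _
  refine ⟨4 + Real.sqrt CM + 32 * (1 + 2 * (G + 2)), by positivity, fun b M κ hb hM hκ => ?_⟩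
  obtain ⟨C, hC⟩ : ∃ C : ℝ, C = 4 + Real.sqrt CM + 32 * (1 + 2 * (G + 2)) := ⟨_, rfl⟩
  rw [← hC]
  have hC0 : 0 < C := by rw [hC]; positivity
  have hM1 : (1 : ℝ) < M := by exact_mod_cast (by omega : 1 < M)
  obtain ⟨L, hLdef⟩ : ∃ L : ℝ, L = Real.log M := ⟨_, rfl⟩
  have hL0 : 0 < L := by rw [hLdef]; exact Real.log_pos hM1
  have hs0 : 0 < Real.sqrt L := Real.sqrt_pos.2 hL0
  rw [← hLdef]
  by_cases hcase : Real.sqrt L ≤ 4 * κ ∨ L ≤ CM
  · refine ⟨1, one_pos, 0, fun K r x hrK _ _ N _ f _ => ?_⟩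
    have h1 : 1 ≤ C * κ / Real.sqrt L := by
      rw [le_div_iff₀ hs0, one_mul]
      rcases hcase with h | h
      · have : 4 * κ ≤ C * κ := by
          apply mul_le_mul_of_nonneg_right _ (by linarith)
          rw [hC]
          have : 0 ≤ 32 * (1 + 2 * (G + 2)) := by positivity
          linarith
        linarith
      · have h2 : Real.sqrt L ≤ Real.sqrt CM := Real.sqrt_le_sqrt h
        have h3 : Real.sqrt CM ≤ C := by
          rw [hC]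
          have : 0 ≤ 32 * (1 + 2 * (G + 2)) := by positivity
          linarith
        nlinarith
    have h2 : (exceptions b K r N f (NoLaw x M κ) : ℝ) ≤ ∏ l, ((K l).choose (r l) : ℝ) := by
      rw [← card_pi]
      unfold exceptions
      exact_mod_cast card_filter_le _ _
    have h3 : (0 : ℝ) ≤ ∏ l, ((K l).choose (r l) : ℝ) := prod_nonneg fun _ _ => Nat.cast_nonneg _
    calc (exceptions b K r N f (NoLaw x M κ) : ℝ) ≤ 1 * ∏ l, ((K l).choose (r l) : ℝ) := by rw [one_mul]; exact h2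
      _ ≤ _ := mul_le_mul_of_nonneg_right h1 h3
  push Not at hcase
  obtain ⟨hLκ, hLM⟩ := hcase
  -- the number n
  have hκ0 : 0 < 4 * κ := by linarith
  obtain ⟨n, hn⟩ : ∃ n : ℕ, n = ⌊Real.sqrt L / (4 * κ)⌋₊ := ⟨_, rfl⟩
  have hy1 : 1 < Real.sqrt L / (4 * κ) := by rwa [lt_div_iff₀ hκ0, one_mul]
  have hn1 : 1 ≤ n := by
    rw [hn]
    exact Nat.le_floor (by exact_mod_cast hy1.le)
  have hn0 : (0 : ℝ) < n := by exact_mod_cast hn1
  have hn1r : (1 : ℝ) ≤ n := by exact_mod_cast hn1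
  have hnle : (n : ℝ) ≤ Real.sqrt L / (4 * κ) := by
    rw [hn]
    exact Nat.floor_le (by positivity)
  have hnlt : Real.sqrt L / (4 * κ) < n + 1 := by
    rw [hn]
    exact Nat.lt_floor_add_one _
  have hnL : (n : ℝ) ≤ Real.sqrt L / 4 := by
    refine hnle.trans ?_
    apply div_le_div_of_nonneg_left hs0.le (by norm_num)
    linarith
  have h4n : 4 / (n : ℝ) ≤ 32 * κ / Real.sqrt L := by
    rw [div_le_div_iff₀ hn0 hs0]
    have h1 : Real.sqrt L < (n + 1) * (4 * κ) := by rwa [div_lt_iff₀ hκ0] at hnlt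
    nlinarith
  obtain ⟨V, hVdef⟩ : ∃ V : ℝ, V = 4 * CL ^ 2 * (2 * L + CM) := ⟨_, rfl⟩
  -- the number J
  obtain ⟨J0, hJ0⟩ := exists_pow_lt_of_lt_one (show (0 : ℝ) < 1 / (4 * Real.exp V * n) by positivity) (show (1 / 4 : ℝ) < 1 by norm_num)
  obtain ⟨J, hJ⟩ : ∃ J : ℕ, J = 2 * J0 := ⟨_, rfl⟩
  have hJe : Even J := by rw [hJ]; exact even_two_mul J0
  have hJ2 : 4 * (1 / 4 : ℝ) ^ J * Real.exp V * n ≤ 1 := by
    have h1 : (1 / 4 : ℝ) ^ J ≤ (1 / 4 : ℝ) ^ J0 := pow_le_pow_of_le_one (by norm_num) (by norm_num) (by omega)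
    have h2 : (0 : ℝ) < 4 * Real.exp V * n := by positivity
    have h3 : (1 / 4 : ℝ) ^ J ≤ 1 / (4 * Real.exp V * n) := h1.trans hJ0.le
    rw [le_div_iff₀ h2] at h3
    linarith
  obtain ⟨γ, hγ⟩ : ∃ γ : ℝ, γ = 1 / (4 * (M : ℝ) ^ 2) := ⟨_, rfl⟩
  have hMp : (0 : ℝ) < (M : ℝ) ^ 2 := by positivity
  have hM21 : (1 : ℝ) ≤ (M : ℝ) ^ 2 := one_le_pow₀ hM1.le
  have hγ0 : 0 < γ := by rw [hγ]; positivity
  choose cj hcj xj hj using fun j => hENG b 2 j hb (by norm_num) γ hγ0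
  obtain ⟨cm, hcm0, hcm⟩ : ∃ cm : ℝ, 0 < cm ∧ ∀ j ≤ J, cm ≤ cj j := by
    have hne : (range (J + 1)).Nonempty := ⟨0, mem_range.2 (by omega)⟩
    refine ⟨(range (J + 1)).inf' hne cj, ?_, ?_⟩
    · exact (Finset.lt_inf'_iff hne).2 fun j _ => hcj j
    · intro j hjJ
      exact Finset.inf'_le _ (mem_range.2 (by omega))
  obtain ⟨xm, hxm⟩ : ∃ xm : ℕ, ∀ j ≤ J, xj j ≤ xm := by
    refine ⟨∑ j ∈ range (J + 1), xj j, fun j hjJ => ?_⟩
    exact single_le_sum (f := xj) (fun _ _ => Nat.zero_le _) (mem_range.2 (by omega))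
  -- large x
  have hev1 : ∀ᶠ x : ℕ in atTop, 2 * CL ≤ (x : ℝ) ^ (1 / 4 : ℝ) :=
    ((tendsto_rpow_atTop (by norm_num : (0 : ℝ) < 1 / 4)).comp tendsto_natCast_atTop_atTop).eventually (eventually_ge_atTop (2 * CL))
  have hev2 : ∀ᶠ x : ℕ in atTop, Real.exp V * (x : ℝ) ^ (-(γ / 2)) ≤ 1 / (4 * n) := by
    have h1 : Tendsto (fun y : ℝ => y ^ (-(γ / 2))) atTop (nhds 0) := tendsto_rpow_neg_atTop (by positivity)
    have h2 : Tendsto (fun x : ℕ => Real.exp V * (x : ℝ) ^ (-(γ / 2))) atTop (nhds (Real.exp V * 0)) :=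
      (h1.comp tendsto_natCast_atTop_atTop).const_mul _
    rw [mul_zero] at h2
    exact h2.eventually (eventually_le_nhds (by positivity))
  obtain ⟨x₁, hx₁⟩ := eventually_atTop.1 (hev1.and hev2)
  refine ⟨cm / (M : ℝ) ^ 2, by positivity, x₁ + xm + p₀ + b * b + 3, fun K r x hrK hx hxr N hN f hf => ?_⟩
  obtain ⟨hx1, hx2⟩ := hx₁ x (by omega)
  have hx0 : (0 : ℝ) < x := by exact_mod_cast (by omega : 0 < x)
  have hx1r : (1 : ℝ) ≤ x := by exact_mod_cast (by omega : 1 ≤ x)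
  have hsx : 0 < Real.sqrt x := Real.sqrt_pos.2 hx0
  obtain ⟨X, hX⟩ : ∃ X : ℕ, X = x ^ (M ^ 2) := ⟨_, rfl⟩
  have hM2 : 1 ≤ M ^ 2 := Nat.one_le_pow _ _ (by omega)
  have hxX : x ≤ X := by
    rw [hX]
    calc x = x ^ 1 := (pow_one x).symm
      _ ≤ x ^ (M ^ 2) := Nat.pow_le_pow_right (by omega) hM2
  have hXr : (X : ℝ) = (x : ℝ) ^ ((M : ℝ) ^ 2) := by
    rw [hX]
    push_cast
    rw [← Real.rpow_natCast]
    push_cast
    rfl
  have hlogX : Real.log X = (M : ℝ) ^ 2 * Real.log x := by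
    rw [hXr, Real.log_rpow hx0]
  -- eta
  obtain ⟨η, hη⟩ : ∃ η : ℝ, η = 2 * CL / Real.sqrt x := ⟨_, rfl⟩
  have hη0 : 0 ≤ η := by rw [hη]; positivity
  have hηx : η ≤ (X : ℝ) ^ (-γ) := by
    have e1 : (X : ℝ) ^ (-γ) = (x : ℝ) ^ (-(1 / 4 : ℝ)) := by
      rw [hXr, ← Real.rpow_mul hx0.le]
      congr 1
      rw [hγ]
      field_simp
    rw [e1, hη, div_le_iff₀ hsx, Real.sqrt_eq_rpow, ← Real.rpow_add hx0]
    have e2 : (-(1 / 4 : ℝ)) + 1 / 2 = 1 / 4 := by norm_num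
    rw [e2]
    exact hx1
  have hη1 : η ≤ 1 := by
    refine hηx.trans ?_
    apply Real.rpow_le_one_of_one_le_of_nonpos
    · exact_mod_cast (by omega : 1 ≤ X)
    · linarith
  have hloc : Loc 2 (II x M) (FF x M) η := by
    rw [hη]
    exact loc hP hCL0 hL' x M (by omega)
  -- the variances
  have hmert := hCM x (M ^ 2) (by omega) hM2
  have hlogM : Real.log ((M ^ 2 : ℕ) : ℝ) = 2 * L := by
    push_cast
    rw [Real.log_pow, hLdef]
    norm_num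
  rw [hlogM] at hmert
  have hII : (Ioc x (x ^ (M ^ 2))).filter Nat.Prime = II x M := rfl
  rw [hII, abs_le] at hmert
  have hVhi : ∑ p ∈ II x M, mean 2 p (fun n => FF x M p n ^ 2) ≤ V := by
    calc ∑ p ∈ II x M, mean 2 p (fun n => FF x M p n ^ 2) ≤ ∑ p ∈ II x M, 4 * CL ^ 2 * (1 / (p : ℝ)) :=
          sum_le_sum fun p hp => var_hi hCL0 hL' x M p (mem_II.1 hp).2
      _ = 4 * CL ^ 2 * ∑ p ∈ II x M, (1 / (p : ℝ)) := by rw [mul_sum]
      _ ≤ 4 * CL ^ 2 * (2 * L + CM) := by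
          apply mul_le_mul_of_nonneg_left _ (by positivity)
          linarith [hmert.2]
      _ = V := hVdef.symm
  have hVlo : cv * L ≤ ∑ p ∈ II x M, mean 2 p (fun n => FF x M p n ^ 2) := by
    calc cv * L ≤ cv * ∑ p ∈ II x M, (1 / (p : ℝ)) := by
          apply mul_le_mul_of_nonneg_left _ hcv.le
          linarith [hmert.1]
      _ = ∑ p ∈ II x M, cv * (1 / (p : ℝ)) := by rw [mul_sum]
      _ ≤ _ := sum_le_sum fun p hp => by
          obtain ⟨⟨h1, _⟩, h2⟩ := mem_II.1 hp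
          exact var_lo hv x M p h2 (by omega)
  -- the choices
  obtain ⟨A, hA⟩ : ∃ A, A = Fintype.piFinset (fun l : Fin 2 => powersetCard (r l) (range (K l))) := ⟨_, rfl⟩
  obtain ⟨T, hT⟩ : ∃ T : ℝ, T = ∏ l, ((K l).choose (r l) : ℝ) := ⟨_, rfl⟩
  have hcardA : (A.card : ℝ) = T := by rw [hA, hT]; exact card_pi K r
  have hT0 : 0 < T := by
    rw [hT]
    apply prod_pos
    intro l _
    exact_mod_cast Nat.choose_pos (by have := hrK l; omega)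
  have hAne : A.Nonempty := by
    rw [← card_pos]
    have : (0 : ℝ) < A.card := by rw [hcardA]; exact hT0
    exact_mod_cast this
  obtain ⟨Z, hZ⟩ : ∃ Z : (Fin 2 → Finset ℕ) → ℝ, Z = fun S => ∑ p ∈ II x M, FF x M p (fun i => change b (K i) (N i) (f i) (S i)) := ⟨_, rfl⟩
  have hτ : ∀ j ≤ J, |(∑ S ∈ A, Z S ^ j) / (A.card : ℝ) - mean 2 (∏ p ∈ II x M, p) (fun m => (∑ p ∈ II x M, FF x M p m) ^ j)| ≤
      1 / (4 * n) := by
    intro j hjJ
    have h1 := hj j r K X hrK ((hxm j hjJ).trans (by omega)) (fun i => by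
      rw [hlogX]
      have h2 : Real.log x ≤ cm / (M : ℝ) ^ 2 * r i := (Real.log_le_iff_le_exp hx0).2 (hxr i)
      calc (M : ℝ) ^ 2 * Real.log x ≤ (M : ℝ) ^ 2 * (cm / (M : ℝ) ^ 2 * r i) := mul_le_mul_of_nonneg_left h2 hMp.le
        _ = cm * r i := by field_simp
        _ ≤ cj j * r i := mul_le_mul_of_nonneg_right (hcm j hjJ) (Nat.cast_nonneg _))
      N hN f hf (II x M) (FF x M) η V (fun p hp => by
        obtain ⟨⟨h3, h4⟩, _⟩ := mem_II.1 hp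
        exact ⟨by omega, by rw [hX]; exact h4⟩) hη0 hηx hloc hVhi
    rw [← hT, ← hA] at h1
    have h5 : Real.exp V * (X : ℝ) ^ (-(γ / 2)) ≤ 1 / (4 * n) := by
      refine le_trans ?_ hx2
      apply mul_le_mul_of_nonneg_left _ (Real.exp_pos _).le
      apply Real.rpow_le_rpow_of_nonpos hx0 _ (by linarith)
      exact_mod_cast hxX
    have h6 : ∑ S ∈ A, Z S ^ j = ∑ S ∈ A, (∑ p ∈ II x M, FF x M p (fun i => change b (K i) (N i) (f i) (S i))) ^ j := by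
      rw [hZ]
    rw [hcardA, h6]
    obtain ⟨E, hE⟩ : ∃ E : ℝ, E = mean 2 (∏ p ∈ II x M, p) (fun m => (∑ p ∈ II x M, FF x M p m) ^ j) := ⟨_, rfl⟩
    obtain ⟨D, hD⟩ : ∃ D : ℝ, D = ∑ S ∈ A, (∑ p ∈ II x M, FF x M p (fun i => change b (K i) (N i) (f i) (S i))) ^ j := ⟨_, rfl⟩
    rw [← hE, ← hD] at h1
    rw [← hE, ← hD]
    have h7 : D / T - E = (D - E * T) / T := by field_simp
    rw [h7, abs_div, abs_of_pos hT0, div_le_iff₀ hT0]
    exact h1.trans (mul_le_mul_of_nonneg_right h5 hT0.le)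
  have h4τ : 4 * (1 / (4 * (n : ℝ))) * n ≤ 1 := le_of_eq (by field_simp)
  obtain ⟨s, hs⟩ : ∃ s : ℝ, s = -∑ p ∈ II x M, sg x M p * mu p := ⟨_, rfl⟩
  have hconc := conc hFEJ hPHI hMOD hEXP A Z hAne (II x M) (FF x M) η hη0 hη1 hloc V hVhi cv L hL0 hcv hVlo n J hn1 hnL hJe
    (1 / (4 * n)) hτ h4τ hJ2 s
  rw [← hG, hcardA] at hconc
  have hsub : (exceptions b K r N f (NoLaw x M κ) : ℝ) ≤
      (((A.filter (fun S => |Z S - s| * (1 / Real.sqrt L) ≤ 1 / n)).card : ℕ) : ℝ) := by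
    unfold exceptions
    rw [← hA]
    have hss : A.filter (fun S => ¬ NoLaw x M κ (fun l => change b (K l) (N l) (f l) (S l))) ⊆
        A.filter (fun S => |Z S - s| * (1 / Real.sqrt L) ≤ 1 / n) := by
      intro S hS
      rw [mem_filter] at hS ⊢
      refine ⟨hS.1, ?_⟩
      have h1 := exc_small hDIFF (fun l => change b (K l) (N l) (f l) (S l)) x M κ (by omega) hM hS.2
      rw [← hs] at h1
      have h2 : |Z S - s| ≤ 4 * κ := by
        rw [hZ]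
        exact h1
      rw [mul_one_div, div_le_div_iff₀ hs0 hn0, one_mul]
      rw [le_div_iff₀ hκ0] at hnle
      calc |Z S - s| * n ≤ 4 * κ * n := mul_le_mul_of_nonneg_right h2 hn0.le
        _ = n * (4 * κ) := by ring
        _ ≤ Real.sqrt L := hnle
    exact_mod_cast card_le_card hss
  rw [← hT]
  refine hsub.trans (hconc.trans ?_)
  apply mul_le_mul_of_nonneg_right _ hT0.le
  have h8 : 0 ≤ 1 + 2 * (G + 2) := by positivity
  calc 4 / (n : ℝ) * (1 + 2 * (G + 2)) ≤ 32 * κ / Real.sqrt L * (1 + 2 * (G + 2)) := mul_le_mul_of_nonneg_right h4n h8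
    _ = 32 * (1 + 2 * (G + 2)) * κ / Real.sqrt L := by ring
    _ ≤ C * κ / Real.sqrt L := by
        apply div_le_div_of_nonneg_right _ hs0.le
        apply mul_le_mul_of_nonneg_right _ (by linarith)
        rw [hC]
        linarith

end Pool.Agent.NH22.BS.F3
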