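import Pool.Agent.NH22.BS.Stm

/-! Project BS, the singular cubics: their number of points, and their number. -/

set_option autoImplicit false

namespace Pool.Agent.NH22.BS.L2

open Pool.Agent.NH22.BS Finset
open Pool.Agent.TH894.NE (box mem_box)

lemma card_affine {F : Type} [Field F] [Fintype F] [DecidableEq F] (hF : ringChar F ≠ 2) (f : F → F) :
    (Nat.card {P : F × F // P.2 ^ 2 = f P.1} : ℝ) = (Fintype.card F : ℝ) + ∑ x : F, (quadraticChar F (f x) : ℝ) := by
  classical
  have h1 : Nat.card {P : F × F // P.2 ^ 2 = f P.1} = ∑ x : F, Nat.card {y : F // y ^ 2 = f x} := by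
    rw [← Nat.card_sigma]
    refine Nat.card_congr ⟨fun P => ⟨P.1.1, ⟨P.1.2, P.2⟩⟩, fun P => ⟨(P.1, P.2.1), P.2.2⟩, fun _ => rfl, fun _ => rfl⟩
  have h2 : ∀ x : F, ((Nat.card {y : F // y ^ 2 = f x} : ℕ) : ℤ) = quadraticChar F (f x) + 1 := by
    intro x
    rw [← quadraticChar_card_sqrts hF (f x)]
    congr 1
    rw [Nat.card_eq_fintype_card, Fintype.card_subtype]
    congr 1
    ext y
    simp
  rw [h1]
  push_cast
  have h3 : ∀ x : F, ((Nat.card {y : F // y ^ 2 = f x} : ℕ) : ℝ) = (quadraticChar F (f x) : ℝ) + 1 := by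
    intro x
    have := h2 x
    exact_mod_cast this
  rw [sum_congr rfl (fun x _ => h3 x), sum_add_distrib, sum_const, card_univ, nsmul_eq_mul, mul_one]
  ring

/-- the character sum of a singular cubic -/
lemma sum_sing {F : Type} [Field F] [Fintype F] [DecidableEq F] (hF : ringChar F ≠ 2) (r : F) :
    ∑ x : F, quadraticChar F (x ^ 3 + -3 * r ^ 2 * x + 2 * r ^ 3) = -quadraticChar F (3 * r) := by
  have h1 : ∀ x : F, quadraticChar F (x ^ 3 + -3 * r ^ 2 * x + 2 * r ^ 3) =
      quadraticChar F (x + 2 * r) - if x = r then quadraticChar F (3 * r) else 0 := by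
    intro x
    by_cases hx : x = r
    · rw [if_pos hx, hx]
      have e1 : r ^ 3 + -3 * r ^ 2 * r + 2 * r ^ 3 = 0 := by ring
      have e2 : r + 2 * r = 3 * r := by ring
      rw [e1, e2, MulChar.map_zero, sub_self]
    · rw [if_neg hx, sub_zero]
      have e1 : x ^ 3 + -3 * r ^ 2 * x + 2 * r ^ 3 = (x - r) ^ 2 * (x + 2 * r) := by ring
      rw [e1, map_mul, quadraticChar_sq_one' (sub_ne_zero.2 hx), one_mul]
  rw [sum_congr rfl (fun x _ => h1 x), sum_sub_distrib, sum_ite_eq' univ r, if_pos (mem_univ r)]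
  have h2 : ∑ x : F, quadraticChar F (x + 2 * r) = 0 := by
    rw [← quadraticChar_sum_zero hF]
    exact Fintype.sum_equiv (Equiv.addRight (2 * r)) _ _ (fun x => rfl)
  rw [h2, zero_sub]

lemma cast_ne {p : ℕ} (hp : p.Prime) {n : ℕ} (hn : ¬ p ∣ n) : (n : ZMod p) ≠ 0 := by
  rw [Ne, ZMod.natCast_eq_zero_iff]
  exact hn

lemma not_dvd {p : ℕ} (hp : p.Prime) (h5 : 5 ≤ p) : ¬ p ∣ 2 ∧ ¬ p ∣ 3 := by
  constructor
  · intro h
    have := Nat.le_of_dvd (by norm_num) h
    omega
  · intro h
    have := Nat.le_of_dvd (by norm_num) h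
    omega

theorem t_BAD : S_BAD := by
  intro p m hp h5 hd
  classical
  haveI : Fact p.Prime := ⟨hp⟩
  obtain ⟨n2, n3⟩ := not_dvd hp h5
  have c2 : (2 : ZMod p) ≠ 0 := by exact_mod_cast cast_ne hp n2
  have c3 : (3 : ZMod p) ≠ 0 := by exact_mod_cast cast_ne hp n3
  have hF : ringChar (ZMod p) ≠ 2 := by
    rw [ZMod.ringChar_zmod_n]
    omega
  obtain ⟨a, ha⟩ : ∃ a : ZMod p, a = (m 1 : ZMod p) := ⟨_, rfl⟩
  obtain ⟨b, hb⟩ : ∃ b : ZMod p, b = (m 0 : ZMod p) := ⟨_, rfl⟩
  have hab : 4 * a ^ 3 + 27 * b ^ 2 = 0 := by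
    have h1 := (hp.dvd_mul.1 hd).resolve_left n2
    rw [← ZMod.natCast_eq_zero_iff] at h1
    push_cast at h1
    rw [ha, hb]
    exact h1
  obtain ⟨r, hr1, hr2⟩ : ∃ r : ZMod p, a = -3 * r ^ 2 ∧ b = 2 * r ^ 3 := by
    by_cases h0 : a = 0
    · have h1 : (3 : ZMod p) ^ 3 * b ^ 2 = 0 := by
        rw [h0] at hab
        linear_combination hab
      have h2 : b = 0 := by
        rcases mul_eq_zero.1 h1 with h | h
        · exact absurd h (pow_ne_zero _ c3)
        · exact pow_eq_zero_iff (two_ne_zero) |>.1 h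
      exact ⟨0, by rw [h0]; ring, by rw [h2]; ring⟩
    · refine ⟨-3 * b / (2 * a), ?_, ?_⟩
      · field_simp
        linear_combination hab
      · field_simp
        linear_combination b * hab
  have hpts : (pts p m : ℝ) = p + ∑ x : ZMod p, (quadraticChar (ZMod p)
      (x ^ 3 + a * x + b) : ℝ) := by
    unfold pts
    rw [← ha, ← hb, card_affine hF (fun x => x ^ 3 + a * x + b), ZMod.card]
  have hsum : ∑ x : ZMod p, (quadraticChar (ZMod p) (x ^ 3 + a * x + b) : ℝ) =
      ((-quadraticChar (ZMod p) (3 * r) : ℤ) : ℝ) := by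
    rw [← sum_sing hF r, hr1, hr2]
    push_cast
    rfl
  rw [hpts, hsum, add_sub_cancel_left]
  rcases quadraticChar_isQuadratic (ZMod p) (3 * r) with h | h | h <;> rw [h] <;> norm_num

theorem t_BADN : S_BADN := by
  intro p hp h5
  classical
  haveI : Fact p.Prime := ⟨hp⟩
  obtain ⟨n2, n3⟩ := not_dvd hp h5
  have c2 : (2 : ZMod p) ≠ 0 := by exact_mod_cast cast_ne hp n2
  have c4 : (4 : ZMod p) ≠ 0 := by
    have : (4 : ZMod p) = 2 * 2 := by norm_num
    rw [this]
    exact mul_ne_zero c2 c2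
  obtain ⟨s, hs⟩ : ∃ s, s = (box 2 p).filter
      (fun m : Fin 2 → ℕ => p ∣ 2 * (4 * m 1 ^ 3 + 27 * m 0 ^ 2)) := ⟨_, rfl⟩
  have hfib : ∀ c ∈ s.image (fun m => m 0), (s.filter (fun m => m 0 = c)).card ≤ 3 := by
    intro c _
    obtain ⟨P, hP⟩ : ∃ P : Polynomial (ZMod p), P = Polynomial.C 4 * Polynomial.X ^ 3 +
      Polynomial.C (27 * (c : ZMod p) ^ 2) := ⟨_, rfl⟩
    have hP0 : P ≠ 0 := by
      intro h
      have h1 : P.coeff 3 = 4 := by
        rw [hP, Polynomial.coeff_add, Polynomial.coeff_C_mul, Polynomial.coeff_X_pow,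
          Polynomial.coeff_C]
        norm_num
      rw [h, Polynomial.coeff_zero] at h1
      exact c4 h1.symm
    have hdeg : P.natDegree ≤ 3 := by
      rw [hP]
      compute_degree
    have hle : (s.filter (fun m => m 0 = c)).card ≤ P.roots.toFinset.card := by
      refine card_le_card_of_injOn (fun m => (m 1 : ZMod p)) ?_ ?_
      · intro m hm
        rw [mem_coe, mem_filter, hs, mem_filter] at hm
        obtain ⟨⟨-, h1⟩, h2⟩ := hm
        rw [mem_coe, Multiset.mem_toFinset, Polynomial.mem_roots hP0, Polynomial.IsRoot.def, hP]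
        have h3 := (hp.dvd_mul.1 h1).resolve_left n2
        rw [← ZMod.natCast_eq_zero_iff] at h3
        push_cast at h3
        rw [h2] at h3
        simp only [Polynomial.eval_add, Polynomial.eval_mul, Polynomial.eval_C,
          Polynomial.eval_pow, Polynomial.eval_X]
        exact h3
      · intro m hm m' hm' h
        rw [mem_coe, mem_filter, hs, mem_filter] at hm hm'
        have h1 := (mem_box.1 hm.1.1) 1
        have h1' := (mem_box.1 hm'.1.1) 1
        have h2 : m 1 = m' 1 := by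
          have h3 := (ZMod.natCast_eq_natCast_iff' _ _ _).1 h
          rwa [Nat.mod_eq_of_lt h1, Nat.mod_eq_of_lt h1'] at h3
        funext i
        fin_cases i
        · exact hm.2.trans hm'.2.symm
        · exact h2
    calc (s.filter (fun m => m 0 = c)).card ≤ P.roots.toFinset.card := hle
      _ ≤ P.roots.card := Multiset.toFinset_card_le _
      _ ≤ P.natDegree := Polynomial.card_roots' P
      _ ≤ 3 := hdeg
  have h1 := card_le_mul_card_image s 3 hfib
  have h2 : (s.image (fun m => m 0)).card ≤ p := by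
    have h3 : s.image (fun m => m 0) ⊆ range p := by
      intro c hc
      rw [mem_image] at hc
      obtain ⟨m, hm, rfl⟩ := hc
      rw [hs, mem_filter] at hm
      exact mem_range.2 ((mem_box.1 hm.1) 0)
    have h4 := card_le_card h3
    rwa [card_range] at h4
  rw [← hs]
  have h3 : s.card ≤ 3 * p := h1.trans (Nat.mul_le_mul_left 3 h2)
  exact_mod_cast h3

end Pool.Agent.NH22.BS.L2
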