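import Pool.Agent.NH22.BS.Stm

/-!
# Project BS: the logarithm of the local factor
-/

set_option autoImplicit false

namespace Pool.Agent.NH22.BS.L3

open Pool.Agent.NH22.BS Finset
open Pool.Agent.TH894.NE (mean box Per cfd)

theorem pts_mod (p : ℕ) (m : Fin 2 → ℕ) : pts p m = pts p (fun i => m i % p) := by
  unfold pts
  simp only [ZMod.natCast_mod]

theorem good_mod (p : ℕ) (m : Fin 2 → ℕ) : Good p m ↔ Good p (fun i => m i % p) := by
  unfold Good
  rw [← ZMod.natCast_eq_zero_iff, ← ZMod.natCast_eq_zero_iff]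
  push_cast
  simp only [ZMod.natCast_mod]

theorem t_PER : S_PER := by
  intro p _ m
  unfold Lg
  rw [← pts_mod]
  by_cases h : Good p m
  · rw [if_pos h, if_pos ((good_mod p m).1 h)]
  · rw [if_neg h, if_neg (fun h' => h ((good_mod p m).2 h'))]

/-- the real estimate -/
theorem core {p N : ℝ} (hp : 2 ≤ p) (hN : 0 ≤ N) (h : |N - p| ≤ 2 * Real.sqrt p) :
    |Real.log ((N + 1) / p)| ≤ 2000 / Real.sqrt p ∧
      |Real.log ((N + 1) / p) - (N - p) / p| ≤ 2000 / p := by
  have hp0 : 0 < p := by linarith
  obtain ⟨s, hs⟩ : ∃ s, s = Real.sqrt p := ⟨_, rfl⟩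
  rw [← hs] at h ⊢
  have hss : s * s = p := by rw [hs]; exact Real.mul_self_sqrt hp0.le
  have hs0 : 0 ≤ s := by rw [hs]; exact Real.sqrt_nonneg p
  have hs1 : 1 ≤ s := by nlinarith
  have hspos : 0 < s := by linarith
  have hsp : s ≤ p := by nlinarith
  obtain ⟨h1, h2⟩ := abs_le.1 h
  rcases le_total 36 p with hc | hc
  · have hs6 : 6 ≤ s := by nlinarith
    obtain ⟨e, he⟩ : ∃ e, e = (N - p + 1) / p := ⟨_, rfl⟩
    have he1 : (N + 1) / p = 1 + e := by
      rw [he]
      field_simp
      ring
    have heb : |e| ≤ 3 / s := by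
      rw [he, abs_div, abs_of_pos hp0, div_le_div_iff₀ hp0 hspos]
      have h3 : |N - p + 1| ≤ 3 * s := by
        rw [abs_le]
        constructor <;> linarith
      calc |N - p + 1| * s ≤ 3 * s * s := mul_le_mul_of_nonneg_right h3 hs0
        _ = 3 * p := by rw [mul_assoc, hss]
    have he2 : |e| ≤ 1 / 2 := by
      refine heb.trans ?_
      rw [div_le_div_iff₀ hspos (by norm_num)]
      linarith
    obtain ⟨h5, h6⟩ := abs_le.1 he2
    have hesq : e ^ 2 ≤ 9 / p := by
      have h7 : e ^ 2 = |e| ^ 2 := (sq_abs e).symm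
      rw [h7]
      calc |e| ^ 2 ≤ (3 / s) ^ 2 := pow_le_pow_left₀ (abs_nonneg e) heb 2
        _ = 9 / p := by rw [div_pow, ← hss]; ring
    have hpos : 0 < 1 + e := by linarith
    have hl1 : Real.log (1 + e) ≤ e := by
      have := Real.log_le_sub_one_of_pos hpos
      linarith
    have hl2 : e - 2 * e ^ 2 ≤ Real.log (1 + e) := by
      refine le_trans ?_ (Real.one_sub_inv_le_log_of_pos hpos)
      have h8 : 1 - (1 + e)⁻¹ = e / (1 + e) := by
        field_simp
        ring
      rw [h8, le_div_iff₀ hpos]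
      nlinarith [sq_nonneg e]
    rw [he1]
    constructor
    · have h9 : |Real.log (1 + e)| ≤ 2 * |e| := by
        have h10 : 2 * e ^ 2 ≤ |e| := by
          have : e ^ 2 = |e| * |e| := by rw [← sq, sq_abs]
          rw [this]
          nlinarith [abs_nonneg e]
        have h11 := le_abs_self e
        have h12 := neg_abs_le e
        rw [abs_le]
        constructor <;> linarith
      refine h9.trans ?_
      calc 2 * |e| ≤ 2 * (3 / s) := by linarith
        _ ≤ 2000 / s := by
          rw [← mul_div_assoc]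
          gcongr
          norm_num
    · have h9 : (N - p) / p = e - 1 / p := by
        rw [he]
        field_simp
        ring
      rw [h9]
      have h10 : 0 < 1 / p := by positivity
      have h11 : 2000 / p = 18 / p + 1982 * (1 / p) := by ring
      have h12 : 2 * e ^ 2 ≤ 18 / p := by
        have : 18 / p = 2 * (9 / p) := by ring
        rw [this]
        linarith
      rw [abs_le, h11]
      constructor <;> nlinarith
  · have hs6 : s ≤ 6 := by nlinarith
    have hx1 : (N + 1) / p ≤ 4 := by
      rw [div_le_iff₀ hp0]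
      nlinarith
    have hx0 : 1 / 36 ≤ (N + 1) / p := by
      rw [div_le_div_iff₀ (by norm_num) hp0]
      nlinarith
    have hxp : 0 < (N + 1) / p := by positivity
    have hl1 := Real.log_le_sub_one_of_pos hxp
    have hl2 := Real.one_sub_inv_le_log_of_pos hxp
    have hinv : ((N + 1) / p)⁻¹ ≤ 36 := by
      rw [inv_le_comm₀ hxp (by norm_num)]
      linarith
    have hL : |Real.log ((N + 1) / p)| ≤ 35 := by
      rw [abs_le]
      constructor <;> linarith
    constructor
    · refine hL.trans ?_
      rw [le_div_iff₀ hspos]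
      linarith
    · have h3 : |(N - p) / p| ≤ 2 := by
        rw [abs_div, abs_of_pos hp0, div_le_iff₀ hp0]
        linarith
      calc |Real.log ((N + 1) / p) - (N - p) / p|
          ≤ |Real.log ((N + 1) / p)| + |(N - p) / p| := abs_sub _ _
        _ ≤ 37 := by linarith
        _ ≤ _ := by
          rw [le_div_iff₀ hp0]
          linarith

theorem t_LG (hH : S_HASSE) : S_LG := by
  refine ⟨2000, by norm_num, ?_⟩
  intro p m hp
  have hp2 : (2 : ℝ) ≤ p := by exact_mod_cast hp.two_le
  by_cases hg : Good p m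
  · have h1 := core hp2 (Nat.cast_nonneg (pts p m)) (hH p m hg)
    unfold Lg
    rw [if_pos hg]
    exact ⟨h1.1, fun _ => h1.2⟩
  · unfold Lg
    rw [if_neg hg]
    refine ⟨?_, fun h => absurd h hg⟩
    rw [abs_zero]
    positivity

end Pool.Agent.NH22.BS.L3
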