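import Pool.Agent.NH22.BS.Stm

/-!
# Project BS, job BS-4: the variance of the local factor
-/

set_option autoImplicit false

namespace Pool.Agent.NH22.BS.L4

open Pool.Agent.NH22.BS Finset
open Pool.Agent.TH894.NE (mean box mean_mono mean_const mean_add mean_mul)

theorem t_VAR (hB : S_BAD) (hN : S_BADN) (h1 : S_M1) (h2 : S_M2) (hL : S_LG) : S_VAR := by
  obtain ⟨C, hC, hLg⟩ := hL
  refine ⟨1 / 8, by norm_num, max 5 ⌈8 * (C ^ 2 + 2)⌉₊, fun p hp hp0 => ?_⟩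
  have hp5 : 5 ≤ p := (le_max_left _ _).trans hp0
  have hpC : 8 * (C ^ 2 + 2) ≤ (p : ℝ) :=
    (Nat.le_ceil _).trans (by exact_mod_cast (le_max_right _ _).trans hp0)
  have hp5' : (5 : ℝ) ≤ p := by exact_mod_cast hp5
  have hpp : (0 : ℝ) < p := by linarith
  have hp2 : p ≠ 2 := by omega
  have hp1 : 1 ≤ p := by omega
  generalize hμ : mean 2 p (Lg p) = μ
  -- the functions
  obtain ⟨b, hb⟩ : ∃ b : (Fin 2 → ℕ) → ℝ, ∀ m, b m =
      if p ∣ 2 * (4 * m 1 ^ 3 + 27 * m 0 ^ 2) then 1 else 0 := ⟨_, fun _ => rfl⟩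
  obtain ⟨X, hX⟩ : ∃ X : (Fin 2 → ℕ) → ℝ, ∀ m, X m = 1 / (p : ℝ) * ((pts p m : ℝ) - p) :=
    ⟨_, fun _ => rfl⟩
  obtain ⟨Y, hY⟩ : ∃ Y : (Fin 2 → ℕ) → ℝ, ∀ m, Y m =
      if p ∣ 2 * (4 * m 1 ^ 3 + 27 * m 0 ^ 2) then 0 else X m := ⟨_, fun _ => rfl⟩
  -- the mean of `b`
  have hb0 : mean 2 p b ≤ 3 / p := by
    have h3 := hN p hp hp5
    have h4 : ∑ m ∈ box 2 p, b m = ((((box 2 p).filter (fun m : Fin 2 → ℕ =>
        p ∣ 2 * (4 * m 1 ^ 3 + 27 * m 0 ^ 2))).card : ℕ) : ℝ) := by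
      rw [← Finset.sum_boole]
      exact sum_congr rfl fun m _ => hb m
    unfold mean
    rw [h4]
    calc 1 / (p : ℝ) ^ 2 * _ ≤ 1 / (p : ℝ) ^ 2 * (3 * p) :=
          mul_le_mul_of_nonneg_left h3 (by positivity)
      _ = 3 / p := by field_simp
  have hbX : ∀ m, p ∣ 2 * (4 * m 1 ^ 3 + 27 * m 0 ^ 2) → |X m| ≤ 1 / p := by
    intro m hm
    rw [hX, abs_mul, abs_of_nonneg (by positivity : (0 : ℝ) ≤ 1 / p)]
    calc 1 / (p : ℝ) * |(pts p m : ℝ) - p| ≤ 1 / p * 1 :=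
          mul_le_mul_of_nonneg_left (hB p m hp hp5 hm) (by positivity)
      _ = 1 / p := mul_one _
  -- the means of `X` and `X ^ 2`
  have hX1 : mean 2 p X = 0 := by
    have e : X = fun m => 1 / (p : ℝ) * ((pts p m : ℝ) - p) := funext hX
    rw [e, mean_mul, h1 p hp hp2, mul_zero]
  have hX2 : mean 2 p (fun m => X m ^ 2) = (p - 1) / (p : ℝ) ^ 2 := by
    have e : (fun m => X m ^ 2) = fun m => 1 / (p : ℝ) ^ 2 * ((pts p m : ℝ) - p) ^ 2 := by
      funext m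
      rw [hX]
      field_simp
    rw [e, mean_mul, h2 p hp hp2]
    field_simp
  -- the means of `Y` and `Y ^ 2`
  have hY2 : 1 / (2 * (p : ℝ)) ≤ mean 2 p (fun m => Y m ^ 2) := by
    have h3 : mean 2 p (fun m => X m ^ 2) ≤
        mean 2 p (fun m => Y m ^ 2 + 1 / (p : ℝ) ^ 2 * b m) := by
      refine mean_mono fun m => ?_
      rw [hY, hb]
      split_ifs with h
      · have h4 := hbX m h
        rw [← sq_abs]
        have h5 : |X m| ^ 2 ≤ (1 / (p : ℝ)) ^ 2 := pow_le_pow_left₀ (abs_nonneg _) h4 2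
        calc |X m| ^ 2 ≤ (1 / (p : ℝ)) ^ 2 := h5
          _ = 0 ^ 2 + 1 / (p : ℝ) ^ 2 * 1 := by ring
      · simp
    rw [mean_add, mean_mul, hX2] at h3
    have h4 : 1 / (p : ℝ) ^ 2 * mean 2 p b ≤ 1 / (p : ℝ) ^ 2 * (3 / p) :=
      mul_le_mul_of_nonneg_left hb0 (by positivity)
    have h5 : 1 / (2 * (p : ℝ)) ≤ (p - 1) / (p : ℝ) ^ 2 - 1 / (p : ℝ) ^ 2 * (3 / p) := by
      rw [← sub_nonneg]
      have e : (p - 1) / (p : ℝ) ^ 2 - 1 / (p : ℝ) ^ 2 * (3 / p) - 1 / (2 * (p : ℝ)) =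
          ((p : ℝ) ^ 2 - 2 * p - 6) / (2 * p ^ 3) := by
        field_simp
        ring
      rw [e]
      apply div_nonneg _ (by positivity)
      nlinarith
    linarith
  have hY1 : |mean 2 p Y| ≤ 3 / (p : ℝ) ^ 2 := by
    have h4 : 1 / (p : ℝ) * mean 2 p b ≤ 3 / (p : ℝ) ^ 2 := by
      calc 1 / (p : ℝ) * mean 2 p b ≤ 1 / (p : ℝ) * (3 / p) :=
            mul_le_mul_of_nonneg_left hb0 (by positivity)
        _ = 3 / (p : ℝ) ^ 2 := by field_simp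
    have h3 : mean 2 p X ≤ mean 2 p (fun m => Y m + 1 / (p : ℝ) * b m) := by
      refine mean_mono fun m => ?_
      rw [hY, hb]
      split_ifs with h
      · have h5 := (abs_le.1 (hbX m h)).2
        linarith
      · simp
    have h3' : mean 2 p Y ≤ mean 2 p (fun m => X m + 1 / (p : ℝ) * b m) := by
      refine mean_mono fun m => ?_
      rw [hY, hb]
      split_ifs with h
      · have h5 := (abs_le.1 (hbX m h)).1
        linarith
      · simp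
    rw [mean_add, mean_mul, hX1] at h3 h3'
    rw [abs_le]
    constructor <;> linarith
  -- the variance
  have hvar : mean 2 p (fun m => (1 / 2 * Y m ^ 2 + -μ * Y m) + (μ ^ 2 / 2 - C ^ 2 / (p : ℝ) ^ 2)) ≤
      mean 2 p (fun m => (Lg p m - μ) ^ 2) := by
    refine mean_mono fun m => ?_
    have hE : |Lg p m - Y m| ≤ C / p := by
      rw [hY]
      split_ifs with h
      · have hg : ¬ Good p m := fun hg => hg.2 h
        have : Lg p m = 0 := by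
          unfold Lg
          rw [if_neg hg]
        rw [this, sub_zero, abs_zero]
        positivity
      · have h3 := (hLg p m hp).2 ⟨hp, h⟩
        rw [hX]
        have e : 1 / (p : ℝ) * ((pts p m : ℝ) - p) = ((pts p m : ℝ) - p) / p := by ring
        rwa [e]
    have hE2 : (Lg p m - Y m) ^ 2 ≤ C ^ 2 / (p : ℝ) ^ 2 := by
      rw [← sq_abs, ← div_pow]
      exact pow_le_pow_left₀ (abs_nonneg _) hE 2
    nlinarith [sq_nonneg ((Y m - μ) + 2 * (Lg p m - Y m))]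
  rw [mean_add, mean_add, mean_mul, mean_mul, mean_const 2 p hp1] at hvar
  have hY1' : mean 2 p Y ^ 2 ≤ 9 / (p : ℝ) ^ 4 := by
    rw [← sq_abs]
    calc |mean 2 p Y| ^ 2 ≤ (3 / (p : ℝ) ^ 2) ^ 2 := pow_le_pow_left₀ (abs_nonneg _) hY1 2
      _ = 9 / (p : ℝ) ^ 4 := by
        rw [div_pow]
        ring
  have h9 : 9 / (p : ℝ) ^ 4 ≤ 2 / (p : ℝ) ^ 2 := by
    rw [div_le_div_iff₀ (by positivity) (by positivity)]
    nlinarith [pow_pos hpp 2, pow_pos hpp 4, mul_pos (pow_pos hpp 2) (pow_pos hpp 2),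
      mul_le_mul_of_nonneg_left (show (25 : ℝ) ≤ (p : ℝ) ^ 2 by nlinarith) (pow_pos hpp 2).le]
  have h10 : (C ^ 2 + 2) / (p : ℝ) ^ 2 ≤ 1 / 8 / p := by
    rw [div_div, div_le_div_iff₀ (by positivity) (by positivity)]
    nlinarith
  have h11 : (C ^ 2 + 2) / (p : ℝ) ^ 2 = C ^ 2 / (p : ℝ) ^ 2 + 2 / (p : ℝ) ^ 2 := by
    rw [add_div]
  have h12 : 1 / 2 * (1 / (2 * (p : ℝ))) = 2 * (1 / 8 / p) := by
    field_simp
    norm_num
  nlinarith [sq_nonneg (μ - mean 2 p Y)]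

end Pool.Agent.NH22.BS.L4
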