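import Pool.Agent.NH22.BS.Stm

/-!
# BS-10: Taylor polynomial of `exp (i z)` and comparison of characteristic functions
-/

set_option autoImplicit false

namespace Pool.Agent.NH22.BS.T1

open Pool.Agent.NH22.BS Finset

/-- the remainder of the Taylor polynomial -/
noncomputable def g (J : ℕ) (z : ℝ) : ℂ :=
  Complex.exp (Complex.I * z) - ∑ j ∈ range J, (Complex.I * z) ^ j / (j.factorial : ℂ)

theorem g_deriv (J : ℕ) (z : ℝ) : HasDerivAt (g (J + 1)) (Complex.I * g J z) z := by
  have h0 : HasDerivAt (fun z : ℝ => (Complex.I * (z : ℂ))) Complex.I z := by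
    have := (Complex.ofRealCLM.hasDerivAt (x := z)).const_mul Complex.I
    simpa using this
  have h1 : HasDerivAt (fun z : ℝ => Complex.exp (Complex.I * z))
      (Complex.exp (Complex.I * z) * Complex.I) z := h0.cexp
  have h2 : ∀ j : ℕ, HasDerivAt (fun z : ℝ => (Complex.I * (z : ℂ)) ^ (j + 1) / ((j + 1).factorial : ℂ))
      (Complex.I * ((Complex.I * z) ^ j / (j.factorial : ℂ))) z := by
    intro j
    refine HasDerivAt.congr_deriv (f' := ((j + 1 : ℕ) : ℂ) * (Complex.I * z) ^ (j + 1 - 1) *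
      Complex.I / ((j + 1).factorial : ℂ))
      ((h0.pow (j + 1)).div_const ((j + 1).factorial : ℂ)) ?_
    rw [Nat.factorial_succ, Nat.add_sub_cancel]
    have h4 : ((j : ℂ) + 1) ≠ 0 := by exact_mod_cast Nat.succ_ne_zero j
    have h5 : (j.factorial : ℂ) ≠ 0 := by exact_mod_cast j.factorial_ne_zero
    push_cast
    field_simp
  have h6 : HasDerivAt (fun z : ℝ => ∑ j ∈ range (J + 1), (Complex.I * (z : ℂ)) ^ j / (j.factorial : ℂ))
      (∑ j ∈ range J, Complex.I * ((Complex.I * z) ^ j / (j.factorial : ℂ))) z := by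
    have e : (fun z : ℝ => ∑ j ∈ range (J + 1), (Complex.I * (z : ℂ)) ^ j / (j.factorial : ℂ)) =
        fun z : ℝ => ∑ j ∈ range J, (Complex.I * (z : ℂ)) ^ (j + 1) / ((j + 1).factorial : ℂ) + 1 := by
      funext z
      rw [Finset.sum_range_succ']
      simp
    rw [e]
    exact (HasDerivAt.fun_sum fun j _ => h2 j).add_const 1
  refine HasDerivAt.congr_deriv (h1.sub h6) ?_
  unfold g
  rw [mul_sub, Finset.mul_sum]
  ring

theorem g_zero (J : ℕ) : g (J + 1) 0 = 0 := by
  unfold g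
  rw [Finset.sum_range_succ']
  simp

theorem g_pos (J : ℕ) : ∀ z : ℝ, 0 ≤ z → ‖g J z‖ ≤ z ^ J / J.factorial := by
  induction J with
  | zero =>
    intro z _
    unfold g
    rw [Finset.range_zero, Finset.sum_empty, sub_zero, mul_comm, Complex.norm_exp_ofReal_mul_I]
    simp
  | succ J ih =>
    intro z hz
    have hB : ∀ x : ℝ, HasDerivAt (fun x : ℝ => x ^ (J + 1) / ((J + 1).factorial : ℝ))
        (x ^ J / J.factorial) x := by
      intro x
      refine HasDerivAt.congr_deriv (f' := ((J + 1 : ℕ) : ℝ) * x ^ (J + 1 - 1) * 1 /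
        ((J + 1).factorial : ℝ))
        (((hasDerivAt_id x).pow (J + 1)).div_const ((J + 1).factorial : ℝ)) ?_
      rw [Nat.factorial_succ, Nat.add_sub_cancel]
      have h4 : ((J : ℝ) + 1) ≠ 0 := by positivity
      have h5 : (J.factorial : ℝ) ≠ 0 := by positivity
      push_cast
      field_simp
    refine image_norm_le_of_norm_deriv_right_le_deriv_boundary (f := g (J + 1))
      (f' := fun x => Complex.I * g J x) (a := 0) (b := z)
      (fun x _ => (g_deriv J x).continuousAt.continuousWithinAt)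
      (fun x _ => (g_deriv J x).hasDerivWithinAt) ?_ hB (fun x hx => ?_) ⟨hz, le_rfl⟩
    · rw [g_zero, norm_zero]
      simp
    · rw [norm_mul, Complex.norm_I, one_mul]
      exact ih x hx.1

theorem g_neg (J : ℕ) (z : ℝ) : g J (-z) = (starRingEnd ℂ) (g J z) := by
  unfold g
  rw [map_sub, map_sum, ← Complex.exp_conj, map_mul, Complex.conj_I, Complex.conj_ofReal]
  congr 1
  · congr 1
    push_cast
    ring
  · refine Finset.sum_congr rfl fun j _ => ?_
    rw [map_div₀, map_pow, map_mul, Complex.conj_I, Complex.conj_ofReal, map_natCast]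
    congr 2
    push_cast
    ring

theorem g_le (J : ℕ) (z : ℝ) : ‖g J z‖ ≤ |z| ^ J / J.factorial := by
  rcases le_or_gt 0 z with h | h
  · rw [abs_of_nonneg h]
    exact g_pos J z h
  · have h1 := g_pos J (-z) (by linarith)
    rw [g_neg, RCLike.norm_conj] at h1
    rw [abs_of_neg h]
    exact h1

theorem t_TAY : S_TAY := fun z J => g_le J z

/-- the expansion of the characteristic function -/
theorem phi_exp {α : Type} (A : Finset α) (X : α → ℝ) (J : ℕ) (u : ℝ) (hJ : Even J)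
    (hT : S_TAY) :
    ‖phi A X u - ∑ j ∈ range J, (Complex.I * u) ^ j / (j.factorial : ℂ) *
      (((∑ a ∈ A, X a ^ j) / (A.card : ℝ) : ℝ) : ℂ)‖ ≤
      |u| ^ J / J.factorial * ((∑ a ∈ A, X a ^ J) / (A.card : ℝ)) := by
  have e : phi A X u - ∑ j ∈ range J, (Complex.I * u) ^ j / (j.factorial : ℂ) *
      (((∑ a ∈ A, X a ^ j) / (A.card : ℝ) : ℝ) : ℂ) =
      (∑ a ∈ A, (Complex.exp (Complex.I * ((u * X a : ℝ) : ℂ)) -
        ∑ j ∈ range J, (Complex.I * ((u * X a : ℝ) : ℂ)) ^ j / (j.factorial : ℂ))) / (A.card : ℂ) := by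
    rw [Finset.sum_sub_distrib, sub_div]
    congr 1
    rw [Finset.sum_comm, Finset.sum_div]
    refine Finset.sum_congr rfl fun j _ => ?_
    push_cast
    rw [mul_div_assoc', Finset.mul_sum]
    congr 1
    refine Finset.sum_congr rfl fun a _ => ?_
    ring
  rw [e, norm_div, Complex.norm_natCast, mul_div_assoc']
  refine div_le_div_of_nonneg_right ?_ (Nat.cast_nonneg _)
  rw [Finset.mul_sum]
  refine (norm_sum_le _ _).trans (Finset.sum_le_sum fun a _ => ?_)
  refine (hT (u * X a) J).trans (le_of_eq ?_)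
  rw [abs_mul, mul_pow, hJ.pow_abs (X a)]
  ring

theorem t_PHI (hT : S_TAY) : S_PHI := by
  intro α β A B X Y J τ T u hA hB hJ hm hTB hu
  have hτ : 0 ≤ τ := (abs_nonneg _).trans (hm 0 (Nat.zero_le _))
  have h1 := phi_exp A X J u hJ hT
  have h2 := phi_exp B Y J u hJ hT
  set mA : ℕ → ℝ := fun j => (∑ a ∈ A, X a ^ j) / (A.card : ℝ) with hmA
  set mB : ℕ → ℝ := fun j => (∑ b ∈ B, Y b ^ j) / (B.card : ℝ) with hmB
  have h3 : ‖(∑ j ∈ range J, (Complex.I * u) ^ j / (j.factorial : ℂ) * ((mA j : ℝ) : ℂ)) -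
      ∑ j ∈ range J, (Complex.I * u) ^ j / (j.factorial : ℂ) * ((mB j : ℝ) : ℂ)‖ ≤ 3 * τ := by
    rw [← Finset.sum_sub_distrib]
    refine (norm_sum_le _ _).trans ?_
    have h4 : ∀ j ∈ range J, ‖(Complex.I * u) ^ j / (j.factorial : ℂ) * ((mA j : ℝ) : ℂ) -
        (Complex.I * u) ^ j / (j.factorial : ℂ) * ((mB j : ℝ) : ℂ)‖ ≤ 1 ^ j / j.factorial * τ := by
      intro j hj
      rw [← mul_sub, norm_mul, norm_div, norm_pow, norm_mul, Complex.norm_I, one_mul,
        Complex.norm_natCast, ← Complex.ofReal_sub, Complex.norm_real, Complex.norm_real,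
        Real.norm_eq_abs, Real.norm_eq_abs]
      have h5 := hm j (Finset.mem_range.1 hj).le
      have h6 : |u| ^ j / (j.factorial : ℝ) ≤ 1 ^ j / j.factorial := by
        gcongr
      exact mul_le_mul h6 h5 (abs_nonneg _) (by positivity)
    refine (Finset.sum_le_sum h4).trans ?_
    rw [← Finset.sum_mul]
    have h7 := Real.sum_le_exp_of_nonneg (zero_le_one : (0 : ℝ) ≤ 1) J
    have h8 := Real.exp_one_lt_d9
    exact mul_le_mul_of_nonneg_right (by linarith) hτ
  have h9 : mA J ≤ T + τ := by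
    have := (abs_le.1 (hm J le_rfl)).2
    have h10 : mB J ≤ T := hTB
    have h11 : mA J - mB J ≤ τ := this
    linarith
  have h10 : mB J ≤ T := hTB
  have hc0 : 0 ≤ |u| ^ J / (J.factorial : ℝ) := by positivity
  have hc1 : |u| ^ J / (J.factorial : ℝ) ≤ 1 := by
    rw [div_le_one (by positivity)]
    have h12 : |u| ^ J ≤ 1 := pow_le_one₀ (abs_nonneg _) hu
    have h13 : (1 : ℝ) ≤ J.factorial := by exact_mod_cast Nat.one_le_iff_ne_zero.2 J.factorial_ne_zero
    linarith
  set c : ℝ := |u| ^ J / (J.factorial : ℝ) with hc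
  have h14 : c * mA J ≤ c * T + τ := by
    have := mul_le_mul_of_nonneg_left h9 hc0
    have h15 : c * τ ≤ 1 * τ := mul_le_mul_of_nonneg_right hc1 hτ
    linarith
  have h15 : c * mB J ≤ c * T := mul_le_mul_of_nonneg_left h10 hc0
  have h16 : ‖phi A X u‖ ≤ ‖phi B Y u‖ + (c * mA J + 3 * τ + c * mB J) := by
    set a := phi A X u
    set b := phi B Y u
    set a' := ∑ j ∈ range J, (Complex.I * u) ^ j / (j.factorial : ℂ) * ((mA j : ℝ) : ℂ)
    set b' := ∑ j ∈ range J, (Complex.I * u) ^ j / (j.factorial : ℂ) * ((mB j : ℝ) : ℂ)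
    have h17 : a = b + ((a - a') + (a' - b') - (b - b')) := by ring
    calc ‖a‖ = ‖b + ((a - a') + (a' - b') - (b - b'))‖ := by rw [← h17]
      _ ≤ ‖b‖ + ‖(a - a') + (a' - b') - (b - b')‖ := norm_add_le _ _
      _ ≤ ‖b‖ + (‖(a - a') + (a' - b')‖ + ‖b - b'‖) := by gcongr; exact norm_sub_le _ _
      _ ≤ ‖b‖ + ((‖a - a'‖ + ‖a' - b'‖) + ‖b - b'‖) := by gcongr; exact norm_add_le _ _
      _ ≤ ‖b‖ + (c * mA J + 3 * τ + c * mB J) := by gcongr
  have h18 : 2 * |u| ^ J * T / J.factorial = 2 * (c * T) := by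
    rw [hc]
    ring
  rw [h18]
  linarith

end Pool.Agent.NH22.BS.T1
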