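import Pool.Agent.NH22.BS.Stm

set_option autoImplicit false

namespace Pool.Agent.NH22.BS.T2

open Pool.Agent.NH22.BS Finset

lemma phi_neg {α : Type} (A : Finset α) (X : α → ℝ) (u : ℝ) : ‖phi A X (-u)‖ = ‖phi A X u‖ := by
  have h : phi A X (-u) = (starRingEnd ℂ) (phi A X u) := by
    unfold phi
    rw [map_div₀, map_sum, Complex.conj_natCast]
    congr 1
    refine Finset.sum_congr rfl fun a _ => ?_
    rw [← Complex.exp_conj, map_mul, Complex.conj_I, Complex.conj_ofReal]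
    congr 1
    push_cast
    ring
  rw [h, RCLike.norm_conj]

lemma phi_zero {α : Type} (A : Finset α) (X : α → ℝ) (hA : A.Nonempty) : ‖phi A X 0‖ = 1 := by
  unfold phi
  have hc : (A.card : ℂ) ≠ 0 := by
    exact_mod_cast (Finset.card_pos.2 hA).ne'
  simp [hc]

/-- distance of natural numbers -/
def dn (j k : ℕ) : ℕ := (j - k) + (k - j)

lemma phi_dn {α : Type} (A : Finset α) (X : α → ℝ) (l : ℝ) (j k : ℕ) :
    ‖phi A X (((j : ℝ) - k) * l)‖ = ‖phi A X ((dn j k : ℝ) * l)‖ := by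
  rcases le_total j k with h | h
  · have e : ((dn j k : ℕ) : ℝ) = -((j : ℝ) - k) := by
      unfold dn
      rw [Nat.sub_eq_zero_of_le h, zero_add, Nat.cast_sub h]
      ring
    rw [e, neg_mul, phi_neg]
  · have e : ((dn j k : ℕ) : ℝ) = (j : ℝ) - k := by
      unfold dn
      rw [Nat.sub_eq_zero_of_le h, add_zero, Nat.cast_sub h]
    rw [e]

lemma row (ψ : ℕ → ℝ) (hψ : ∀ h, 0 ≤ ψ h) (n j : ℕ) (hj : j < n) :
    ∑ k ∈ range n, ψ (dn j k) ≤ ψ 0 + 2 * ∑ h ∈ Ico 1 n, ψ h := by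
  have h1 : ∀ k ∈ range n, ψ (dn j k) = ∑ h ∈ range n, if dn j k = h then ψ h else 0 := by
    intro k hk
    rw [Finset.sum_ite_eq, if_pos]
    rw [Finset.mem_range] at *
    unfold dn
    omega
  rw [Finset.sum_congr rfl h1, Finset.sum_comm]
  have h2 : ∀ h ∈ range n, ∑ k ∈ range n, (if dn j k = h then ψ h else 0) ≤
      if h = 0 then ψ 0 else 2 * ψ h := by
    intro h _
    rw [← Finset.sum_filter, Finset.sum_const, nsmul_eq_mul]
    split_ifs with h0
    · subst h0
      have h3 : ((range n).filter fun k => dn j k = 0).card ≤ 1 := by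
        rw [Finset.card_le_one]
        intro a ha b hb
        have ha2 := (Finset.mem_filter.1 ha).2
        have hb2 := (Finset.mem_filter.1 hb).2
        unfold dn at ha2 hb2
        omega
      have h4 : (((range n).filter fun k => dn j k = 0).card : ℝ) ≤ 1 := by exact_mod_cast h3
      nlinarith [hψ 0]
    · have h3 : ((range n).filter fun k => dn j k = h) ⊆ {j - h, j + h} := by
        intro a ha
        have ha2 := (Finset.mem_filter.1 ha).2
        rw [Finset.mem_insert, Finset.mem_singleton]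
        unfold dn at ha2
        omega
      have h4 : ((range n).filter fun k => dn j k = h).card ≤ 2 :=
        (Finset.card_le_card h3).trans Finset.card_le_two
      have h5 : (((range n).filter fun k => dn j k = h).card : ℝ) ≤ 2 := by exact_mod_cast h4
      nlinarith [hψ h]
  refine (Finset.sum_le_sum h2).trans (le_of_eq ?_)
  have h3 : range n = insert 0 (Ico 1 n) := by
    ext a
    rw [Finset.mem_insert, Finset.mem_Ico, Finset.mem_range]
    omega
  rw [h3, Finset.sum_insert (by simp), if_pos rfl, Finset.mul_sum]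
  congr 1
  refine Finset.sum_congr rfl fun h hh => ?_
  rw [Finset.mem_Ico] at hh
  rw [if_neg (by omega)]

/-- the sum of `exp (i j y)` -/
noncomputable def Dk (n : ℕ) (y : ℝ) : ℂ := ∑ j ∈ range n, Complex.exp (Complex.I * (((j : ℝ) * y : ℝ) : ℂ))

lemma Dk_sq (n : ℕ) (y : ℝ) : ((‖Dk n y‖ ^ 2 : ℝ) : ℂ) =
    ∑ j ∈ range n, ∑ k ∈ range n, Complex.exp (Complex.I * ((((j : ℝ) - k) * y : ℝ) : ℂ)) := by
  have h1 : ((‖Dk n y‖ ^ 2 : ℝ) : ℂ) = Dk n y * (starRingEnd ℂ) (Dk n y) := by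
    rw [Complex.mul_conj, Complex.normSq_eq_norm_sq]
  rw [h1]
  unfold Dk
  rw [map_sum, Finset.sum_mul_sum]
  refine Finset.sum_congr rfl fun j _ => Finset.sum_congr rfl fun k _ => ?_
  rw [← Complex.exp_conj, map_mul, Complex.conj_I, Complex.conj_ofReal, ← Complex.exp_add]
  congr 1
  push_cast
  ring

lemma Dk_big (n : ℕ) (hn : 1 ≤ n) (y : ℝ) (hy : |y| ≤ 1 / n) : (n : ℝ) ^ 2 / 4 ≤ ‖Dk n y‖ ^ 2 := by
  have hn0 : (0 : ℝ) < n := by exact_mod_cast hn
  have h1 : (n : ℝ) / 2 ≤ (Dk n y).re := by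
    unfold Dk
    rw [Complex.re_sum]
    have h2 : ∀ j ∈ range n, (1 : ℝ) / 2 ≤
        (Complex.exp (Complex.I * (((j : ℝ) * y : ℝ) : ℂ))).re := by
      intro j hj
      rw [mul_comm, Complex.exp_ofReal_mul_I_re]
      have hj' : (j : ℝ) ≤ n := by exact_mod_cast (Finset.mem_range.1 hj).le
      have h3 : |(j : ℝ) * y| ≤ 1 := by
        rw [abs_mul, abs_of_nonneg (Nat.cast_nonneg j)]
        calc (j : ℝ) * |y| ≤ n * (1 / n) :=
              mul_le_mul hj' hy (abs_nonneg _) hn0.le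
          _ = 1 := by field_simp
      have h4 := Real.one_sub_sq_div_two_le_cos (x := (j : ℝ) * y)
      have h5 : ((j : ℝ) * y) ^ 2 ≤ 1 := by
        rw [← sq_abs]
        nlinarith [abs_nonneg ((j : ℝ) * y)]
      linarith
    have h3 := Finset.sum_le_sum h2
    rw [Finset.sum_const, Finset.card_range, nsmul_eq_mul] at h3
    linarith
  have h2 : (n : ℝ) / 2 ≤ ‖Dk n y‖ := h1.trans (Complex.re_le_norm _)
  nlinarith

theorem t_FEJ : S_FEJ := by
  intro α A X s l n hA hn hl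
  have hn0 : (0 : ℝ) < n := by exact_mod_cast hn
  have hAc : (0 : ℝ) < A.card := by exact_mod_cast Finset.card_pos.2 hA
  set y : α → ℝ := fun a => (X a - s) * l with hy
  -- lower bound
  have h1 : (n : ℝ) ^ 2 / 4 * ((A.filter (fun a => |X a - s| * l ≤ 1 / n)).card : ℝ) ≤
      ∑ a ∈ A, ‖Dk n (y a)‖ ^ 2 := by
    calc (n : ℝ) ^ 2 / 4 * ((A.filter (fun a => |X a - s| * l ≤ 1 / n)).card : ℝ)
        = ∑ _a ∈ A.filter (fun a => |X a - s| * l ≤ 1 / n), (n : ℝ) ^ 2 / 4 := by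
          rw [Finset.sum_const, nsmul_eq_mul, mul_comm]
      _ ≤ ∑ a ∈ A.filter (fun a => |X a - s| * l ≤ 1 / n), ‖Dk n (y a)‖ ^ 2 := by
          refine Finset.sum_le_sum fun a ha => Dk_big n hn _ ?_
          have := (Finset.mem_filter.1 ha).2
          rw [hy]
          simp only
          rw [abs_mul, abs_of_pos hl]
          exact this
      _ ≤ ∑ a ∈ A, ‖Dk n (y a)‖ ^ 2 :=
          Finset.sum_le_sum_of_subset_of_nonneg (Finset.filter_subset _ _)
            fun a _ _ => sq_nonneg _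
  -- upper bound
  have h2 : ∑ a ∈ A, ‖Dk n (y a)‖ ^ 2 ≤
      ∑ j ∈ range n, ∑ k ∈ range n, A.card * ‖phi A X ((dn j k : ℝ) * l)‖ := by
    have e1 : ∑ a ∈ A, ‖Dk n (y a)‖ ^ 2 = ‖∑ a ∈ A, ((‖Dk n (y a)‖ ^ 2 : ℝ) : ℂ)‖ := by
      rw [← Complex.ofReal_sum, Complex.norm_real, Real.norm_of_nonneg]
      exact Finset.sum_nonneg fun a _ => sq_nonneg _
    rw [e1, Finset.sum_congr rfl fun a _ => Dk_sq n (y a), Finset.sum_comm]
    refine (norm_sum_le _ _).trans (Finset.sum_le_sum fun j _ => ?_)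
    rw [Finset.sum_comm]
    refine (norm_sum_le _ _).trans (Finset.sum_le_sum fun k _ => le_of_eq ?_)
    rw [← phi_dn]
    have e2 : ∑ a ∈ A, Complex.exp (Complex.I * ((((j : ℝ) - k) * y a : ℝ) : ℂ)) =
        Complex.exp ((((-(((j : ℝ) - k) * l * s)) : ℝ) : ℂ) * Complex.I) *
          ((A.card : ℂ) * phi A X (((j : ℝ) - k) * l)) := by
      unfold phi
      rw [mul_div_cancel₀ _ (by exact_mod_cast hAc.ne' : (A.card : ℂ) ≠ 0), Finset.mul_sum]
      refine Finset.sum_congr rfl fun a _ => ?_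
      rw [← Complex.exp_add]
      congr 1
      rw [hy]
      push_cast
      ring
    rw [e2, norm_mul, Complex.norm_exp_ofReal_mul_I, one_mul, norm_mul, Complex.norm_natCast]
  have h3 : ∑ j ∈ range n, ∑ k ∈ range n, A.card * ‖phi A X ((dn j k : ℝ) * l)‖ ≤
      n * (A.card * (1 + 2 * ∑ h ∈ Ico 1 n, ‖phi A X (h * l)‖)) := by
    have h4 : ∀ j ∈ range n, ∑ k ∈ range n, A.card * ‖phi A X ((dn j k : ℝ) * l)‖ ≤
        A.card * (1 + 2 * ∑ h ∈ Ico 1 n, ‖phi A X (h * l)‖) := by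
      intro j hj
      rw [← Finset.mul_sum]
      refine mul_le_mul_of_nonneg_left ?_ hAc.le
      have h5 := row (fun h : ℕ => ‖phi A X ((h : ℝ) * l)‖) (fun h => norm_nonneg _) n j
        (Finset.mem_range.1 hj)
      simp only [Nat.cast_zero, zero_mul] at h5
      rw [phi_zero A X hA] at h5
      exact h5
    refine (Finset.sum_le_sum h4).trans (le_of_eq ?_)
    rw [Finset.sum_const, Finset.card_range, nsmul_eq_mul]
  have h4 := h1.trans (h2.trans h3)
  set c := ((A.filter (fun a => |X a - s| * l ≤ 1 / n)).card : ℝ) with hc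
  set S := 1 + 2 * ∑ h ∈ Ico 1 n, ‖phi A X (h * l)‖ with hS
  have h5 : 4 / (n : ℝ) * S * A.card = (4 / (n : ℝ) ^ 2) * (n * (A.card * S)) := by
    field_simp
  rw [h5]
  calc c = (4 / (n : ℝ) ^ 2) * ((n : ℝ) ^ 2 / 4 * c) := by field_simp
    _ ≤ _ := mul_le_mul_of_nonneg_left h4 (by positivity)

end Pool.Agent.NH22.BS.T2
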