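import Pool.Agent.NH22.BS.Stm
import Pool.Agent.Helper559.Mertens

/-!
# BS-12: the sum of `1 / p` over windows
-/

set_option autoImplicit false

namespace Pool.Agent.NH22.BS.W1

open Pool.Agent.NH22.BS Finset

theorem t_MERT : S_MERT := by
  obtain ⟨C, hC, h⟩ := Pool.Agent.Helper559.mertens
  refine ⟨2 * C, by positivity, fun x M hx hM => ?_⟩
  have hx1 : x ≤ x ^ M := by
    calc x = x ^ 1 := (pow_one x).symm
      _ ≤ x ^ M := Nat.pow_le_pow_right (by omega) hM
  have hlx : 0 < Real.log x := Real.log_pos (by exact_mod_cast (by omega : 1 < x))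
  have hM0 : (0 : ℝ) < M := by exact_mod_cast (by omega : 0 < M)
  have hsum : ∑ p ∈ (Ioc x (x ^ M)).filter Nat.Prime, (1 : ℝ) / p =
      Pool.Agent.Helper559.S (x ^ M) - Pool.Agent.Helper559.S x := by
    unfold Pool.Agent.Helper559.S
    have hdis : Disjoint ((Icc 1 x).filter Nat.Prime) ((Ioc x (x ^ M)).filter Nat.Prime) := by
      rw [Finset.disjoint_left]
      intro p hp hq
      rw [mem_filter, mem_Icc] at hp
      rw [mem_filter, mem_Ioc] at hq
      omega
    have hun : (Icc 1 (x ^ M)).filter Nat.Prime =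
        (Icc 1 x).filter Nat.Prime ∪ (Ioc x (x ^ M)).filter Nat.Prime := by
      ext p
      simp only [mem_filter, mem_union, mem_Icc, mem_Ioc]
      constructor
      · rintro ⟨⟨h1, h2⟩, h3⟩
        rcases le_or_gt p x with h4 | h4
        · exact Or.inl ⟨⟨h1, h4⟩, h3⟩
        · exact Or.inr ⟨⟨h4, h2⟩, h3⟩
      · rintro (⟨⟨h1, h2⟩, h3⟩ | ⟨⟨h1, h2⟩, h3⟩)
        · exact ⟨⟨h1, h2.trans hx1⟩, h3⟩
        · exact ⟨⟨by omega, h2⟩, h3⟩
    rw [hun, sum_union hdis]
    ring
  have h1 := h x hx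
  have h2 := h (x ^ M) (by omega)
  have hll : Real.log (Real.log ((x ^ M : ℕ) : ℝ)) = Real.log M + Real.log (Real.log x) := by
    rw [Nat.cast_pow, Real.log_pow, Real.log_mul hM0.ne' hlx.ne']
  rw [hll] at h2
  rw [hsum]
  rw [abs_le] at h1 h2 ⊢
  constructor <;> linarith [h1.1, h1.2, h2.1, h2.2]

end Pool.Agent.NH22.BS.W1
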