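import Pool.Agent.NH22.BS.Stm

/-! Job BS-13: the second difference (`S_DIFF`). -/

set_option autoImplicit false

namespace Pool.Agent.NH22.BS.W268

open Finset Pool.Agent.NH22.BS

open Classical in
/-- the logarithm of the product is a sum over the primes -/
theorem log_PP (m : Fin 2 → ℕ) (t : ℕ) :
    Real.log (PP m t) = ∑ p ∈ range (t + 1), (if p.Prime then Lg p m else 0) := by
  unfold PP
  rw [Real.log_prod, Finset.sum_filter]
  · refine Finset.sum_congr rfl fun p _ => ?_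
    by_cases hg : Good p m
    · rw [if_pos hg, if_pos hg.1, Lg, if_pos hg]
    · rw [if_neg hg]
      by_cases hp : p.Prime
      · rw [if_pos hp, Lg, if_neg hg]
      · rw [if_neg hp]
  · intro p hp
    have h := (Finset.mem_filter.mp hp).2.1.pos
    have h1 : (0 : ℝ) < p := by exact_mod_cast h
    have h2 : (0 : ℝ) ≤ pts p m := Nat.cast_nonneg _
    positivity

theorem sum_sub (G : ℕ → ℝ) (u v : ℕ) (h : u ≤ v) :
    ∑ p ∈ Ioc u v, G p = ∑ p ∈ range (v + 1), G p - ∑ p ∈ range (u + 1), G p := by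
  rw [← Finset.sum_Ico_eq_sub G (by omega : u + 1 ≤ v + 1)]
  refine Finset.sum_congr ?_ fun _ _ => rfl
  ext p
  simp only [mem_Ioc, mem_Ico]
  omega

theorem signed (m : Fin 2 → ℕ) (a b c : ℕ) (hab : a ≤ b) (hbc : b ≤ c) :
    ∑ p ∈ (Ioc a c).filter Nat.Prime, (if p ≤ b then -1 else 1) * Lg p m =
      Real.log (PP m c) - 2 * Real.log (PP m b) + Real.log (PP m a) := by
  rw [log_PP, log_PP, log_PP]
  set G : ℕ → ℝ := fun p => if p.Prime then Lg p m else 0 with hG
  have e1 : ∑ p ∈ (Ioc a c).filter Nat.Prime, (if p ≤ b then -1 else 1) * Lg p m =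
      ∑ p ∈ Ioc a c, (if p ≤ b then -1 else 1) * G p := by
    rw [Finset.sum_filter]
    refine Finset.sum_congr rfl fun p _ => ?_
    simp only [hG]
    by_cases hp : p.Prime
    · rw [if_pos hp, if_pos hp]
    · rw [if_neg hp, if_neg hp, mul_zero]
  rw [e1, ← Finset.sum_Ioc_consecutive _ hab hbc]
  have e2 : ∑ p ∈ Ioc a b, (if p ≤ b then (-1 : ℝ) else 1) * G p = - ∑ p ∈ Ioc a b, G p := by
    rw [← Finset.sum_neg_distrib]
    refine Finset.sum_congr rfl fun p hp => ?_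
    rw [if_pos (mem_Ioc.mp hp).2]
    ring
  have e3 : ∑ p ∈ Ioc b c, (if p ≤ b then (-1 : ℝ) else 1) * G p = ∑ p ∈ Ioc b c, G p := by
    refine Finset.sum_congr rfl fun p hp => ?_
    rw [if_neg (not_le.mpr (mem_Ioc.mp hp).1)]
    ring
  rw [e2, e3, sum_sub G a b hab, sum_sub G b c hbc]
  ring

end Pool.Agent.NH22.BS.W268

namespace Pool.Agent.NH22.BS

open Finset

theorem t_DIFF : S_DIFF := by
  intro m x M κ ρ A hx hM h
  have hx1 : 1 ≤ x := by omega
  have hab : x ≤ x ^ M := by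
    calc x = x ^ 1 := (pow_one x).symm
      _ ≤ x ^ M := Nat.pow_le_pow_right hx1 (by omega)
  have hMM : M ≤ M ^ 2 := by nlinarith
  have hbc : x ^ M ≤ x ^ (M ^ 2) := Nat.pow_le_pow_right hx1 hMM
  rw [W268.signed m x (x ^ M) (x ^ (M ^ 2)) hab hbc]
  have h1 := h x (Or.inl rfl)
  have h2 := h (x ^ M) (Or.inr (Or.inl rfl))
  have h3 := h (x ^ (M ^ 2)) (Or.inr (Or.inr rfl))
  have hx3 : (1 : ℝ) < x := by exact_mod_cast (by omega : 1 < x)
  have hlx : 0 < Real.log x := Real.log_pos hx3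
  have hM0 : (M : ℝ) ≠ 0 := by
    have : M ≠ 0 := by omega
    exact_mod_cast this
  have l2 : Real.log (Real.log ((x ^ M : ℕ) : ℝ)) = Real.log M + Real.log (Real.log x) := by
    rw [Nat.cast_pow, Real.log_pow, Real.log_mul hM0 hlx.ne']
  have l3 : Real.log (Real.log ((x ^ (M ^ 2) : ℕ) : ℝ)) =
      2 * Real.log M + Real.log (Real.log x) := by
    rw [Nat.cast_pow, Real.log_pow, Nat.cast_pow, Real.log_mul (pow_ne_zero 2 hM0) hlx.ne',
      Real.log_pow]
    norm_num
  rw [l2] at h2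
  rw [l3] at h3
  rw [abs_le] at h1 h2 h3 ⊢
  constructor <;> linarith [h1.1, h1.2, h2.1, h2.2, h3.1, h3.2]

end Pool.Agent.NH22.BS
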