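import Pool.Agent.NH22.BS.L1
import Pool.Agent.NH22.BS.L2
import Pool.Agent.NH22.BS.L3
import Pool.Agent.NH22.BS.L4
import Pool.Agent.NH22.BS.A1
import Pool.Agent.NH22.BS.A2
import Pool.Agent.NH22.BS.A3
import Pool.Agent.NH22.BS.C1
import Pool.Agent.NH22.BS.C2
import Pool.Agent.NH22.BS.T1
import Pool.Agent.NH22.BS.T2
import Pool.Agent.NH22.BS.W1
import Pool.Agent.NH22.BS.W2
import Pool.Agent.NH22.BS.F3

/-!
# Project BS: all statements proved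
-/

set_option autoImplicit false

namespace Pool.Agent.NH22.BS.All

open Pool.Agent.NH22.BS Pool.Agent.NH22.BS.F3
open Pool.Agent.Y57.FD (digit change exceptions)

theorem main : ∃ C : ℝ, 0 < C ∧ ∀ (b M : ℕ) (κ : ℝ), 2 ≤ b → 2 ≤ M → 1 ≤ κ → ∃ c : ℝ, 0 < c ∧ ∃ x₀ : ℕ,
    ∀ (K r : Fin 2 → ℕ) (x : ℕ), (∀ l, 2 * r l ≤ K l) → x₀ ≤ x → (∀ l, (x : ℝ) ≤ Real.exp (c * r l)) →
    ∀ N : Fin 2 → ℕ, (∀ l, N l < b ^ K l) → ∀ f : Fin 2 → ℕ → ℕ, (∀ l j, f l j < b ∧ f l j ≠ digit b j (N l)) →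
    (exceptions b K r N f (NoLaw x M κ) : ℝ) ≤ C * κ / Real.sqrt (Real.log M) * ∏ l, ((K l).choose (r l) : ℝ) :=
  have hH : S_HASSE := L1.t_HASSE
  have hP : S_PER := L3.t_PER
  have hL : S_LG := L3.t_LG hH
  have hV : S_VAR := L4.t_VAR L2.t_BAD L2.t_BADN L1.t_M1 L1.t_M2 hL
  have hC : S_COEF := A2.t_COEF
  have hE : S_ENG := t_ENG A1.t_AVG hC
  have hM : S_MODEL := C2.t_MODEL t_CPROD
  have hT : S_PHI := T1.t_PHI T1.t_TAY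
  fin hP hL hV hE hM A2.t_EXPM hT T2.t_FEJ W1.t_MERT t_DIFF

end Pool.Agent.NH22.BS.All
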