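import Pool.Agent.NH22.BS.F4
import Pool.Agent.NH22.BS.F3

/-!
# Project BS: Brownian motion, final assembly
-/

set_option autoImplicit false

namespace Pool.Agent.NH22.BS.F5

open Pool.Agent.NH22.BS Pool.Agent.NH22.BS.F1 Pool.Agent.NH22.BS.F4 Finset Filter Topology MeasureTheory ProbabilityTheory
open Pool.Agent.TH894.NE (mean box Per cfd)
open Pool.Agent.Y57.FD (digit change exceptions)
open Pool.Agent.NH22.ST (MM)

/-- linear combinations of increments -/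
noncomputable def stat (x k : ℕ) (M : ℕ → ℕ) (lam : ℕ → ℝ) (m : Fin 2 → ℕ) : ℝ :=
  ∑ i ∈ range k, lam i * (Real.log (PP m (x ^ M (i + 1))) - Real.log (PP m (x ^ M i)))

/-- their means -/
noncomputable def av (k : ℕ) (M : ℕ → ℕ) (lam : ℕ → ℝ) : ℝ :=
  ∑ i ∈ range k, lam i * (1 / 2 * (Real.log (M (i + 1)) - Real.log (M i)))

/-- their variances -/
noncomputable def vv (k : ℕ) (M : ℕ → ℕ) (lam : ℕ → ℝ) : ℝ :=
  ∑ i ∈ range k, lam i ^ 2 * (Real.log (M (i + 1)) - Real.log (M i))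

theorem bm (hP : S_PER) (hLG : S_LG) (hMU : S_MU) (hVX : S_VX) (hENG : S_ENG) (hGMO : S_GMO) (hM2 : S_MERT2)
    (hSH : S_SHIFT) (hQF : S_QF) (b k : ℕ) (M : ℕ → ℕ) (lam : ℕ → ℝ) (ε : ℝ) (hb : 2 ≤ b) (hM0 : 1 ≤ M 0) (hM : StrictMono M)
    (hε : 0 < ε) (hlam : ∃ i < k, lam i ≠ 0) :
    ∃ c : ℝ, 0 < c ∧ ∃ x₀ : ℕ, ∀ (K r : Fin 2 → ℕ) (x : ℕ), (∀ l, 2 * r l ≤ K l) → x₀ ≤ x →
    (∀ l, (x : ℝ) ≤ Real.exp (c * r l)) → ∀ N : Fin 2 → ℕ, (∀ l, N l < b ^ K l) →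
    ∀ f : Fin 2 → ℕ → ℕ, (∀ l j, f l j < b ∧ f l j ≠ digit b j (N l)) → ∀ z : ℝ,
    |((((Fintype.piFinset (fun l : Fin 2 => powersetCard (r l) (range (K l)))).filter
        (fun S => stat x k M lam (fun l => change b (K l) (N l) (f l) (S l)) ≤ av k M lam + z * Real.sqrt (vv k M lam))).card : ℕ) : ℝ) /
      (∏ l, ((K l).choose (r l) : ℝ)) - (gaussianReal 0 1).real (Set.Iic z)| ≤ ε := by
  classical
  obtain ⟨CL, hCL0, hCL⟩ := hLG
  have hL' : ∀ (p : ℕ) (m : Fin 2 → ℕ), p.Prime → |Lg p m| ≤ CL / Real.sqrt p := fun p m hp => (hCL p m hp).1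
  obtain ⟨C1, hC1, hmu⟩ := hMU
  obtain ⟨C2, hC2, hvr⟩ := hVX
  have hMi : ∀ i, 1 ≤ M i := fun i => hM0.trans (hM.monotone (Nat.zero_le i))
  have hl : ∀ i, 0 < Real.log (M (i + 1)) - Real.log (M i) := by
    intro i
    have h1 : (0 : ℝ) < M i := by exact_mod_cast hMi i
    have h2 : (M i : ℝ) < M (i + 1) := by exact_mod_cast hM (Nat.lt_succ_self i)
    have := Real.log_lt_log h1 h2
    linarith
  obtain ⟨i₀, hi₀, hlam₀⟩ := hlam
  have hk : 1 ≤ k := by omega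
  have hvv : 0 < vv k M lam := by
    unfold vv
    apply sum_pos' (fun i _ => mul_nonneg (sq_nonneg _) (hl i).le)
    exact ⟨i₀, mem_range.2 hi₀, mul_pos (by positivity) (hl i₀)⟩
  obtain ⟨σ, hσ⟩ : ∃ σ : ℝ, σ = Real.sqrt (vv k M lam) := ⟨_, rfl⟩
  have hσ0 : 0 < σ := by rw [hσ]; exact Real.sqrt_pos.2 hvv
  obtain ⟨CQ, hCQ, hQ⟩ := hQF
  -- the number g
  obtain ⟨g, hg1, hg⟩ : ∃ g : ℕ, 1 ≤ g ∧ CQ * (1 / Real.sqrt g) ≤ ε / 2 := by
    have h1 : Tendsto (fun g : ℕ => CQ * (1 / Real.sqrt g)) atTop (𝓝 (CQ * 0)) := by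
      apply Tendsto.const_mul
      apply Tendsto.div_atTop tendsto_const_nhds
      exact Real.tendsto_sqrt_atTop.comp tendsto_natCast_atTop_atTop
    rw [mul_zero] at h1
    obtain ⟨g, hg⟩ := ((h1.eventually (eventually_le_nhds (by positivity : (0 : ℝ) < ε / 2))).and (eventually_ge_atTop 1)).exists
    exact ⟨g, hg.2, hg.1⟩
  obtain ⟨η', hη'⟩ : ∃ η' : ℝ, η' = ε / (2 * CQ * Real.exp (Real.sqrt g)) := ⟨_, rfl⟩
  have hη'0 : 0 < η' := by rw [hη']; positivity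
  obtain ⟨CS, hCS, hS⟩ := hSH (2 * g) σ hσ0
  obtain ⟨ζ, hζ⟩ : ∃ ζ : ℝ, ζ = min 1 (η' / (CS + 1)) := ⟨_, rfl⟩
  have hζ0 : 0 < ζ := by rw [hζ]; exact lt_min one_pos (by positivity)
  have hζ1 : ζ ≤ 1 := by rw [hζ]; exact min_le_left _ _
  have hζ2 : CS * ζ ≤ η' := by
    have h1 : ζ ≤ η' / (CS + 1) := by rw [hζ]; exact min_le_right _ _
    rw [le_div_iff₀ (by linarith)] at h1
    nlinarith
  obtain ⟨V₀, hV₀⟩ : ∃ V₀ : ℝ, V₀ = vv k M lam + 1 := ⟨_, rfl⟩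
  choose CG hCG0 hCG using fun j => hGMO 2 j V₀
  obtain ⟨CT, hCT⟩ : ∃ CT : ℝ, CT = ∑ j ∈ range (2 * g + 1), CG j := ⟨_, rfl⟩
  have hCT0 : 0 ≤ CT := by rw [hCT]; exact sum_nonneg fun j _ => hCG0 j
  have hMk : 1 ≤ M k := hMi k
  have hMkr : (0 : ℝ) < M k := by exact_mod_cast hMk
  obtain ⟨γ, hγ⟩ : ∃ γ : ℝ, γ = 1 / (4 * (M k : ℝ)) := ⟨_, rfl⟩
  have hγ0 : 0 < γ := by rw [hγ]; positivity
  choose cj hcj xj hj using fun j => hENG b 2 j hb (by norm_num) γ hγ0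
  obtain ⟨cm, hcm0, hcm⟩ : ∃ cm : ℝ, 0 < cm ∧ ∀ j ≤ 2 * g, cm ≤ cj j := by
    have hne : (range (2 * g + 1)).Nonempty := ⟨0, mem_range.2 (by omega)⟩
    refine ⟨(range (2 * g + 1)).inf' hne cj, ?_, ?_⟩
    · exact (Finset.lt_inf'_iff hne).2 fun j _ => hcj j
    · intro j hjJ
      exact Finset.inf'_le _ (mem_range.2 (by omega))
  obtain ⟨xm, hxm⟩ : ∃ xm : ℕ, ∀ j ≤ 2 * g, xj j ≤ xm := by
    refine ⟨∑ j ∈ range (2 * g + 1), xj j, fun j hjJ => ?_⟩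
    exact single_le_sum (f := xj) (fun _ _ => Nat.zero_le _) (mem_range.2 (by omega))
  obtain ⟨W, hW⟩ : ∃ W : ℝ, W = ∑ i ∈ range k, |lam i| := ⟨_, rfl⟩
  have hW0 : 0 ≤ W := by rw [hW]; exact sum_nonneg fun _ _ => abs_nonneg _
  -- limits
  have hvlim : Tendsto (fun x : ℕ => ∑ i ∈ range k, lam i ^ 2 * ∑ p ∈ blk x M i, vr p) atTop (𝓝 (vv k M lam)) := by
    unfold vv
    apply tendsto_finset_sum
    intro i _
    apply Tendsto.const_mul
    have h1 := tend_h hM2 hM hM0 i vr 1 C2 hC2 (fun p hp h5 => by rw [one_mul]; exact hvr p hp h5)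
    rwa [one_mul] at h1
  have hmlim : Tendsto (fun x : ℕ => ∑ i ∈ range k, lam i * ∑ p ∈ blk x M i, mu p) atTop (𝓝 (av k M lam)) := by
    unfold av
    apply tendsto_finset_sum
    intro i _
    apply Tendsto.const_mul
    exact tend_h hM2 hM hM0 i mu (1 / 2) C1 hC1 (fun p hp h5 => by
      have h1 := hmu p hp h5
      have h2 : (1 : ℝ) / (2 * p) = 1 / 2 * (1 / p) := by ring
      rw [h2] at h1
      exact h1)
  have ev1 : ∀ᶠ x : ℕ in atTop, ∀ j ≤ 2 * g,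
      |Real.sqrt (∑ i ∈ range k, lam i ^ 2 * ∑ p ∈ blk x M i, vr p) ^ j * MM 1 j - σ ^ j * MM 1 j| ≤ ζ / 3 := by
    have h1 : ∀ j : ℕ, ∀ᶠ x : ℕ in atTop,
        |Real.sqrt (∑ i ∈ range k, lam i ^ 2 * ∑ p ∈ blk x M i, vr p) ^ j * MM 1 j - σ ^ j * MM 1 j| ≤ ζ / 3 := by
      intro j
      have h2 : Tendsto (fun x : ℕ => Real.sqrt (∑ i ∈ range k, lam i ^ 2 * ∑ p ∈ blk x M i, vr p) ^ j * MM 1 j - σ ^ j * MM 1 j) atTop
          (𝓝 (σ ^ j * MM 1 j - σ ^ j * MM 1 j)) := by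
        apply Tendsto.sub _ tendsto_const_nhds
        apply Tendsto.mul_const
        apply Tendsto.pow
        rw [hσ]
        exact (Real.continuous_sqrt.tendsto _).comp hvlim
      rw [sub_self] at h2
      have h3 := h2.abs
      rw [abs_zero] at h3
      exact h3.eventually (eventually_le_nhds (by positivity))
    have h4 : ∀ᶠ x : ℕ in atTop, ∀ j ∈ range (2 * g + 1),
        |Real.sqrt (∑ i ∈ range k, lam i ^ 2 * ∑ p ∈ blk x M i, vr p) ^ j * MM 1 j - σ ^ j * MM 1 j| ≤ ζ / 3 := by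
      rw [Filter.eventually_all_finset]
      exact fun j _ => h1 j
    filter_upwards [h4] with x hx j hjg
    exact hx j (mem_range.2 (by omega))
  have ev2 : ∀ᶠ x : ℕ in atTop, ∑ i ∈ range k, lam i ^ 2 * ∑ p ∈ blk x M i, vr p ≤ V₀ :=
    hvlim.eventually (eventually_le_nhds (by rw [hV₀]; linarith))
  have ev3 : ∀ᶠ x : ℕ in atTop, |∑ i ∈ range k, lam i * ∑ p ∈ blk x M i, mu p - av k M lam| ≤ ζ := by
    have h1 := hmlim.sub_const (av k M lam)
    rw [sub_self] at h1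
    have h2 := h1.abs
    rw [abs_zero] at h2
    exact h2.eventually (eventually_le_nhds hζ0)
  have ev4 : ∀ᶠ x : ℕ in atTop, CT * (W * (2 * CL / Real.sqrt x)) ≤ ζ / 3 := by
    have h1 : Tendsto (fun x : ℕ => CT * (W * (2 * CL / Real.sqrt x))) atTop (𝓝 (CT * (W * 0))) := by
      apply Tendsto.const_mul
      apply Tendsto.const_mul
      apply Tendsto.div_atTop tendsto_const_nhds
      exact Real.tendsto_sqrt_atTop.comp tendsto_natCast_atTop_atTop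
    rw [mul_zero, mul_zero] at h1
    exact h1.eventually (eventually_le_nhds (by positivity))
  have ev5 : ∀ᶠ x : ℕ in atTop, Real.exp V₀ * (x : ℝ) ^ (-(γ / 2)) ≤ ζ / 3 := by
    have h1 : Tendsto (fun y : ℝ => y ^ (-(γ / 2))) atTop (𝓝 0) := tendsto_rpow_neg_atTop (by positivity)
    have h2 : Tendsto (fun x : ℕ => Real.exp V₀ * (x : ℝ) ^ (-(γ / 2))) atTop (𝓝 (Real.exp V₀ * 0)) :=
      (h1.comp tendsto_natCast_atTop_atTop).const_mul _
    rw [mul_zero] at h2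
    exact h2.eventually (eventually_le_nhds (by positivity))
  have ev6 : ∀ᶠ x : ℕ in atTop, W * (2 * CL) ≤ (x : ℝ) ^ (1 / 4 : ℝ) :=
    ((tendsto_rpow_atTop (by norm_num : (0 : ℝ) < 1 / 4)).comp tendsto_natCast_atTop_atTop).eventually
      (eventually_ge_atTop (W * (2 * CL)))
  obtain ⟨x₁, hx₁⟩ := eventually_atTop.1 (ev1.and (ev2.and (ev3.and (ev4.and (ev5.and ev6)))))
  refine ⟨cm / (M k : ℝ), by positivity, x₁ + xm + b * b + 3, fun K r x hrK hx hxr N hN f hf z => ?_⟩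
  obtain ⟨h1, h2, h3, h4, h5, h6⟩ := hx₁ x (by omega)
  have hx1 : 1 ≤ x := by omega
  have hx0 : (0 : ℝ) < x := by exact_mod_cast (by omega : 0 < x)
  have hx1r : (1 : ℝ) ≤ x := by exact_mod_cast hx1
  have hsx : 0 < Real.sqrt x := Real.sqrt_pos.2 hx0
  obtain ⟨X, hX⟩ : ∃ X : ℕ, X = x ^ M k := ⟨_, rfl⟩
  have hxX : x ≤ X := by
    rw [hX]
    calc x = x ^ 1 := (pow_one x).symm
      _ ≤ x ^ M k := Nat.pow_le_pow_right hx1 hMk
  have hXr : (X : ℝ) = (x : ℝ) ^ ((M k : ℕ) : ℝ) := by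
    rw [hX]
    push_cast
    rw [Real.rpow_natCast]
  have hlogX : Real.log X = (M k : ℝ) * Real.log x := by
    rw [hXr, Real.log_rpow hx0]
  obtain ⟨η, hη⟩ : ∃ η : ℝ, η = W * (2 * CL / Real.sqrt x) := ⟨_, rfl⟩
  have hη0 : 0 ≤ η := by rw [hη]; positivity
  have hηx : η ≤ (X : ℝ) ^ (-γ) := by
    have e1 : (X : ℝ) ^ (-γ) = (x : ℝ) ^ (-(1 / 4 : ℝ)) := by
      rw [hXr, ← Real.rpow_mul hx0.le]
      congr 1
      rw [hγ]
      field_simp
    have e3 : η = W * (2 * CL) / Real.sqrt x := by rw [hη]; ring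
    rw [e1, e3, div_le_iff₀ hsx, Real.sqrt_eq_rpow, ← Real.rpow_add hx0]
    have e2 : (-(1 / 4 : ℝ)) + 1 / 2 = 1 / 4 := by norm_num
    rw [e2]
    exact h6
  have hη1 : η ≤ 1 := by
    refine hηx.trans ?_
    apply Real.rpow_le_one_of_one_le_of_nonpos
    · exact_mod_cast (by omega : 1 ≤ X)
    · linarith
  have hloc : Loc 2 (JJ x k M) (GG x k M lam) η := by
    rw [hη, hW]
    exact locG hP hCL0 hL' lam hx1 hM hM0
  have hVeq : ∑ p ∈ JJ x k M, mean 2 p (fun n => GG x k M lam p n ^ 2) = ∑ i ∈ range k, lam i ^ 2 * ∑ p ∈ blk x M i, vr p := by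
    rw [← sum_w2 hx1 k hM lam vr]
    exact sum_congr rfl fun p _ => varG x k M lam p
  have hVhi : ∑ p ∈ JJ x k M, mean 2 p (fun n => GG x k M lam p n ^ 2) ≤ V₀ := by rw [hVeq]; exact h2
  -- the choices
  obtain ⟨A, hA⟩ : ∃ A, A = Fintype.piFinset (fun l : Fin 2 => powersetCard (r l) (range (K l))) := ⟨_, rfl⟩
  obtain ⟨T, hT⟩ : ∃ T : ℝ, T = ∏ l, ((K l).choose (r l) : ℝ) := ⟨_, rfl⟩
  have hcardA : (A.card : ℝ) = T := by rw [hA, hT]; exact F3.card_pi K r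
  have hT0 : 0 < T := by
    rw [hT]
    apply prod_pos
    intro l _
    exact_mod_cast Nat.choose_pos (by have := hrK l; omega)
  have hAne : A.Nonempty := by
    rw [← card_pos]
    have : (0 : ℝ) < A.card := by rw [hcardA]; exact hT0
    exact_mod_cast this
  obtain ⟨Z, hZ⟩ : ∃ Z : (Fin 2 → Finset ℕ) → ℝ, Z = fun S => ∑ p ∈ JJ x k M, GG x k M lam p (fun i => change b (K i) (N i) (f i) (S i)) := ⟨_, rfl⟩
  have hmom : ∀ j ≤ 2 * g, |(∑ S ∈ A, Z S ^ j) / (A.card : ℝ) - σ ^ j * MM 1 j| ≤ ζ := by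
    intro j hjJ
    have e1 := hj j r K X hrK ((hxm j hjJ).trans (by omega)) (fun i => by
      rw [hlogX]
      have e2 : Real.log x ≤ cm / (M k : ℝ) * r i := (Real.log_le_iff_le_exp hx0).2 (hxr i)
      calc (M k : ℝ) * Real.log x ≤ (M k : ℝ) * (cm / (M k : ℝ) * r i) := mul_le_mul_of_nonneg_left e2 hMkr.le
        _ = cm * r i := by field_simp
        _ ≤ cj j * r i := mul_le_mul_of_nonneg_right (hcm j hjJ) (Nat.cast_nonneg _))
      N hN f hf (JJ x k M) (GG x k M lam) η V₀ (fun p hp => by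
        obtain ⟨_, e3, e4⟩ := mem_JJ hx1 hM hM0 hp
        exact ⟨by omega, by rw [hX]; exact e4⟩) hη0 hηx hloc hVhi
    rw [← hT, ← hA] at e1
    have e5 : Real.exp V₀ * (X : ℝ) ^ (-(γ / 2)) ≤ ζ / 3 := by
      refine le_trans ?_ h5
      apply mul_le_mul_of_nonneg_left _ (Real.exp_pos _).le
      apply Real.rpow_le_rpow_of_nonpos hx0 _ (by linarith)
      exact_mod_cast hxX
    have e6 := hCG j (JJ x k M) (GG x k M lam) η hη0 hη1 hloc hVhi
    have e7 : CG j * η ≤ ζ / 3 := by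
      have e8 : CG j ≤ CT := by
        rw [hCT]
        exact single_le_sum (f := CG) (fun j _ => hCG0 j) (mem_range.2 (by omega))
      calc CG j * η ≤ CT * η := mul_le_mul_of_nonneg_right e8 hη0
        _ ≤ ζ / 3 := by rw [hη]; exact h4
    have e9 := h1 j hjJ
    rw [← hVeq] at e9
    have e10 : ∑ S ∈ A, Z S ^ j = ∑ S ∈ A, (∑ p ∈ JJ x k M, GG x k M lam p (fun i => change b (K i) (N i) (f i) (S i))) ^ j := by
      rw [hZ]
    rw [hcardA, e10]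
    obtain ⟨E, hE⟩ : ∃ E : ℝ, E = mean 2 (∏ p ∈ JJ x k M, p) (fun m => (∑ p ∈ JJ x k M, GG x k M lam p m) ^ j) := ⟨_, rfl⟩
    obtain ⟨D, hD⟩ : ∃ D : ℝ, D = ∑ S ∈ A, (∑ p ∈ JJ x k M, GG x k M lam p (fun i => change b (K i) (N i) (f i) (S i))) ^ j := ⟨_, rfl⟩
    rw [← hE, ← hD] at e1
    rw [← hE] at e6
    rw [← hD]
    have e11 : |D / T - E| ≤ ζ / 3 := by
      have e12 : D / T - E = (D - E * T) / T := by field_simp
      rw [e12, abs_div, abs_of_pos hT0, div_le_iff₀ hT0]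
      exact e1.trans (mul_le_mul_of_nonneg_right e5 hT0.le)
    have e13 := e6.trans e7
    rw [abs_le] at e11 e13 e9 ⊢
    constructor <;> linarith [e11.1, e11.2, e13.1, e13.2, e9.1, e9.2]
  obtain ⟨δ, hδ⟩ : ∃ δ : ℝ, δ = ∑ i ∈ range k, lam i * ∑ p ∈ blk x M i, mu p - av k M lam := ⟨_, rfl⟩
  rw [← hδ] at h3
  have hsh := hS (Fin 2 → Finset ℕ) A Z δ ζ hAne h3 hζ1 hmom
  have hq := hQ g (Fin 2 → Finset ℕ) A (fun S => (Z S + δ) / σ) η' hg1 hAne hη'0.le (fun j hjg => (hsh j hjg).trans hζ2) z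
  have hfil : A.filter (fun S => stat x k M lam (fun l => change b (K l) (N l) (f l) (S l)) ≤ av k M lam + z * Real.sqrt (vv k M lam)) =
      A.filter (fun S => (Z S + δ) / σ ≤ z) := by
    apply filter_congr
    intro S _
    have e1 : stat x k M lam (fun l => change b (K l) (N l) (f l) (S l)) = Z S + δ + av k M lam := by
      unfold stat
      rw [sum_congr rfl fun i _ => by rw [log_blk (fun l => change b (K l) (N l) (f l) (S l)) hx1 hM i],
        ← sum_w hx1 k hM lam (fun p => Lg p (fun l => change b (K l) (N l) (f l) (S l))), hδ, ← sum_w hx1 k hM lam mu, hZ]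
      unfold GG
      have e2 : ∑ p ∈ JJ x k M, ww x k M lam p * (Lg p (fun i => change b (K i) (N i) (f i) (S i)) - mu p) =
          ∑ p ∈ JJ x k M, ww x k M lam p * Lg p (fun i => change b (K i) (N i) (f i) (S i)) - ∑ p ∈ JJ x k M, ww x k M lam p * mu p := by
        rw [← sum_sub_distrib]
        exact sum_congr rfl fun p _ => by ring
      show _ = (∑ p ∈ JJ x k M, ww x k M lam p * (Lg p (fun i => change b (K i) (N i) (f i) (S i)) - mu p)) +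
        (∑ p ∈ JJ x k M, ww x k M lam p * mu p - av k M lam) + av k M lam
      rw [e2]
      ring
    rw [e1, ← hσ, div_le_iff₀ hσ0]
    constructor <;> intro h <;> linarith
  rw [← hA, ← hT, hfil, ← hcardA]
  refine hq.trans ?_
  have hfin : CQ * (η' * Real.exp (Real.sqrt g)) = ε / 2 := by
    rw [hη']
    have : Real.exp (Real.sqrt g) ≠ 0 := (Real.exp_pos _).ne'
    field_simp
  calc CQ * (1 / Real.sqrt g + η' * Real.exp (Real.sqrt g)) = CQ * (1 / Real.sqrt g) + CQ * (η' * Real.exp (Real.sqrt g)) := by ring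
    _ ≤ ε / 2 + ε / 2 := by rw [hfin]; linarith
    _ = ε := by ring

end Pool.Agent.NH22.BS.F5
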