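import Pool.Agent.NH22.BS.Stm2

/-!
# Project BS: second order expansion and mean of the logarithm of the local factor
-/

set_option autoImplicit false

namespace Pool.Agent.NH22.BS.M1

open Pool.Agent.NH22.BS Finset
open Pool.Agent.TH894.NE (mean box Per cfd)

/-- the real estimate -/
theorem core {p N : ℝ} (hp : 2 ≤ p) (hN : 0 ≤ N) (h : |N - p| ≤ 2 * Real.sqrt p) :
    |Real.log ((N + 1) / p) - ((N - p + 1) / p - (N - p) ^ 2 / (2 * p ^ 2))| ≤
      100000 / (p * Real.sqrt p) := by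
  have hp0 : 0 < p := by linarith
  obtain ⟨s, hs⟩ : ∃ s, s = Real.sqrt p := ⟨_, rfl⟩
  rw [← hs] at h ⊢
  have hss : s * s = p := by rw [hs]; exact Real.mul_self_sqrt hp0.le
  have hs0 : 0 ≤ s := by rw [hs]; exact Real.sqrt_nonneg p
  have hs1 : 1 ≤ s := by nlinarith
  have hspos : 0 < s := by linarith
  have hsp : s ≤ p := by nlinarith
  have hps : 0 < p * s := mul_pos hp0 hspos
  obtain ⟨h1, h2⟩ := abs_le.1 h
  rcases le_total 36 p with hc | hc
  · have hs6 : 6 ≤ s := by nlinarith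
    obtain ⟨e, he⟩ : ∃ e, e = (N - p + 1) / p := ⟨_, rfl⟩
    have he1 : (N + 1) / p = 1 - (-e) := by
      rw [he]
      field_simp
      ring
    have heb : |e| ≤ 3 / s := by
      rw [he, abs_div, abs_of_pos hp0, div_le_div_iff₀ hp0 hspos]
      have h3 : |N - p + 1| ≤ 3 * s := by
        rw [abs_le]
        constructor <;> linarith
      calc |N - p + 1| * s ≤ 3 * s * s := mul_le_mul_of_nonneg_right h3 hs0
        _ = 3 * p := by rw [mul_assoc, hss]
    have he2 : |e| ≤ 1 / 2 := by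
      refine heb.trans ?_
      rw [div_le_div_iff₀ hspos (by norm_num)]
      linarith
    have hcube : |e| ^ 3 ≤ 27 / (p * s) := by
      calc |e| ^ 3 ≤ (3 / s) ^ 3 := pow_le_pow_left₀ (abs_nonneg e) heb 3
        _ = 27 / (p * s) := by rw [div_pow, ← hss]; ring
    have hlog := Real.abs_log_sub_add_sum_range_le (x := -e) (by rw [abs_neg]; linarith) 2
    rw [abs_neg, Finset.sum_range_succ, Finset.sum_range_one] at hlog
    have hlog2 : |(-e + e ^ 2 / 2) + Real.log (1 - (-e))| ≤ 2 * |e| ^ 3 := by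
      have e1 : (-e + e ^ 2 / 2) + Real.log (1 - (-e)) =
          (-e) ^ (0 + 1) / ((0 : ℕ) + 1 : ℝ) + (-e) ^ (1 + 1) / ((1 : ℕ) + 1 : ℝ) +
            Real.log (1 - (-e)) := by
        push_cast
        ring
      rw [e1]
      refine hlog.trans ?_
      rw [div_le_iff₀ (by linarith)]
      have h5 : 0 ≤ |e| ^ 3 := by positivity
      have h6 : |e| ^ (2 + 1) = |e| ^ 3 := rfl
      rw [h6]
      nlinarith
    have hdiff : |(N - p) ^ 2 / (2 * p ^ 2) - e ^ 2 / 2| ≤ 3 / (p * s) := by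
      have e2 : (N - p) ^ 2 / (2 * p ^ 2) - e ^ 2 / 2 = -((2 * (N - p) + 1) / (2 * p ^ 2)) := by
        rw [he]
        field_simp
        ring
      rw [e2, abs_neg, abs_div, abs_of_pos (by positivity : (0 : ℝ) < 2 * p ^ 2),
        div_le_div_iff₀ (by positivity) hps]
      have h3 : |2 * (N - p) + 1| ≤ 5 * s := by
        rw [abs_le]
        constructor <;> linarith
      calc |2 * (N - p) + 1| * (p * s) ≤ 5 * s * (p * s) :=
            mul_le_mul_of_nonneg_right h3 hps.le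
        _ = 5 * p ^ 2 := by
            have : 5 * s * (p * s) = 5 * p * (s * s) := by ring
            rw [this, hss]
            ring
        _ ≤ 3 * (2 * p ^ 2) := by nlinarith [sq_nonneg p]
    have e3 : Real.log ((N + 1) / p) - ((N - p + 1) / p - (N - p) ^ 2 / (2 * p ^ 2)) =
        ((-e + e ^ 2 / 2) + Real.log (1 - (-e))) + ((N - p) ^ 2 / (2 * p ^ 2) - e ^ 2 / 2) := by
      rw [he1, ← he]
      ring
    rw [e3]
    calc _ ≤ |(-e + e ^ 2 / 2) + Real.log (1 - (-e))| + |(N - p) ^ 2 / (2 * p ^ 2) - e ^ 2 / 2| :=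
          abs_add_le _ _
      _ ≤ 2 * |e| ^ 3 + 3 / (p * s) := add_le_add hlog2 hdiff
      _ ≤ 2 * (27 / (p * s)) + 3 / (p * s) := by linarith
      _ = 57 / (p * s) := by ring
      _ ≤ 100000 / (p * s) := by gcongr; norm_num
  · have hs6 : s ≤ 6 := by nlinarith
    have hx1 : (N + 1) / p ≤ 4 := by
      rw [div_le_iff₀ hp0]
      nlinarith
    have hx0 : 1 / 36 ≤ (N + 1) / p := by
      rw [div_le_div_iff₀ (by norm_num) hp0]
      nlinarith
    have hxp : 0 < (N + 1) / p := by positivity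
    have hl1 := Real.log_le_sub_one_of_pos hxp
    have hl2 := Real.one_sub_inv_le_log_of_pos hxp
    have hinv : ((N + 1) / p)⁻¹ ≤ 36 := by
      rw [inv_le_comm₀ hxp (by norm_num)]
      linarith
    have hL : |Real.log ((N + 1) / p)| ≤ 35 := by
      rw [abs_le]
      constructor <;> linarith
    have h3 : |(N - p + 1) / p| ≤ 3 := by
      rw [abs_div, abs_of_pos hp0, div_le_iff₀ hp0, abs_le]
      constructor <;> linarith
    have h4 : |(N - p) ^ 2 / (2 * p ^ 2)| ≤ 2 := by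
      rw [abs_of_nonneg (by positivity), div_le_iff₀ (by positivity)]
      have h5 : (N - p) ^ 2 ≤ (2 * s) ^ 2 := by
        rw [← sq_abs]
        exact pow_le_pow_left₀ (abs_nonneg _) h 2
      nlinarith
    calc _ ≤ |Real.log ((N + 1) / p)| + |(N - p + 1) / p - (N - p) ^ 2 / (2 * p ^ 2)| :=
          abs_sub _ _
      _ ≤ 35 + (3 + 2) := by
          refine add_le_add hL ((abs_sub _ _).trans (add_le_add h3 h4))
      _ ≤ _ := by
        rw [le_div_iff₀ hps]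
        nlinarith

theorem t_LG2 (hH : S_HASSE) : S_LG2 := by
  refine ⟨100000, by norm_num, ?_⟩
  intro p m hg
  have hp2 : (2 : ℝ) ≤ p := by exact_mod_cast hg.1.two_le
  have h1 := core hp2 (Nat.cast_nonneg (pts p m)) (hH p m hg)
  unfold Lg
  rw [if_pos hg]
  exact h1

/-- the approximation of the logarithm -/
noncomputable def g (p : ℕ) (m : Fin 2 → ℕ) : ℝ :=
  (((pts p m : ℝ) - p) + 1) / p - ((pts p m : ℝ) - p) ^ 2 / (2 * (p : ℝ) ^ 2)

theorem mean_g (h1 : S_M1) (hm : S_M2) {p : ℕ} (hp : p.Prime) (h5 : 5 ≤ p) :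
    mean 2 p (g p) = 1 / (2 * p) + 1 / (2 * (p : ℝ) ^ 2) := by
  have hp0 : (p : ℝ) ≠ 0 := by exact_mod_cast hp.ne_zero
  have e : g p = fun m => ((1 / (p : ℝ)) * ((pts p m : ℝ) - p) + 1 / (p : ℝ)) +
      (-(1 / (2 * (p : ℝ) ^ 2))) * (((pts p m : ℝ) - p) ^ 2) := by
    funext m
    unfold g
    field_simp
    ring
  rw [e, Pool.Agent.TH894.NE.mean_add, Pool.Agent.TH894.NE.mean_add,
    Pool.Agent.TH894.NE.mean_mul, Pool.Agent.TH894.NE.mean_mul,
    Pool.Agent.TH894.NE.mean_const 2 p hp.one_le, h1 p hp (by omega), hm p hp (by omega)]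
  field_simp
  ring

theorem g_bad (hB : S_BAD) {p : ℕ} (hp : p.Prime) (h5 : 5 ≤ p) (m : Fin 2 → ℕ)
    (hb : p ∣ 2 * (4 * m 1 ^ 3 + 27 * m 0 ^ 2)) : |g p m| ≤ 3 / (p : ℝ) := by
  have h1 := hB p m hp h5 hb
  have hp5 : (5 : ℝ) ≤ p := by exact_mod_cast h5
  have hp0 : (0 : ℝ) < p := by linarith
  unfold g
  have h2 : |(((pts p m : ℝ) - p) + 1) / (p : ℝ)| ≤ 2 / (p : ℝ) := by
    rw [abs_div, abs_of_pos hp0]
    refine div_le_div_of_nonneg_right ?_ hp0.le
    calc |((pts p m : ℝ) - p) + 1| ≤ |(pts p m : ℝ) - p| + |1| := abs_add_le _ _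
      _ ≤ 2 := by rw [abs_one]; linarith
  have h3 : |((pts p m : ℝ) - (p : ℝ)) ^ 2 / (2 * (p : ℝ) ^ 2)| ≤ 1 / (p : ℝ) := by
    rw [abs_of_nonneg (by positivity), div_le_div_iff₀ (by positivity) hp0, one_mul]
    have h4 : ((pts p m : ℝ) - p) ^ 2 ≤ 1 := by
      rw [← sq_abs]
      nlinarith [abs_nonneg ((pts p m : ℝ) - p)]
    nlinarith
  calc _ ≤ _ := abs_sub _ _
    _ ≤ 2 / (p : ℝ) + 1 / (p : ℝ) := add_le_add h2 h3
    _ = 3 / (p : ℝ) := by ring

theorem t_MU (h2 : S_LG2) (_hL : S_LG) (hB : S_BAD) (hN : S_BADN) (h1 : S_M1) (hm : S_M2) :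
    S_MU := by
  obtain ⟨C, hC, h2⟩ := h2
  refine ⟨C + 10, by linarith, ?_⟩
  intro p hp h5
  have hp5 : (5 : ℝ) ≤ p := by exact_mod_cast h5
  have hp0 : (0 : ℝ) < p := by linarith
  obtain ⟨s, hs⟩ : ∃ s, s = Real.sqrt (p : ℝ) := ⟨_, rfl⟩
  have hss : s * s = p := by rw [hs]; exact Real.mul_self_sqrt hp0.le
  have hs0 : 0 ≤ s := by rw [hs]; exact Real.sqrt_nonneg _
  have hs1 : 1 ≤ s := by nlinarith
  have hspos : 0 < s := by linarith
  have hsp : s ≤ p := by nlinarith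
  have hps : 0 < (p : ℝ) * s := mul_pos hp0 hspos
  have hE : ∀ m : Fin 2 → ℕ, |Lg p m - g p m| ≤ C / (p * s) +
      (if p ∣ 2 * (4 * m 1 ^ 3 + 27 * m 0 ^ 2) then 3 / (p : ℝ) else 0) := by
    intro m
    by_cases hb : p ∣ 2 * (4 * m 1 ^ 3 + 27 * m 0 ^ 2)
    · rw [if_pos hb]
      have h3 : Lg p m = 0 := by
        unfold Lg
        rw [if_neg (fun h => h.2 hb)]
      rw [h3, zero_sub, abs_neg]
      have h4 := g_bad hB hp h5 m hb
      have h6 : 0 ≤ C / (p * s) := by positivity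
      linarith
    · rw [if_neg hb, add_zero, hs]
      exact h2 p m ⟨hp, hb⟩
  have hsum : |∑ m ∈ box 2 p, (Lg p m - g p m)| ≤
      (p : ℝ) ^ 2 * (C / (p * s)) + 3 * p * (3 / p) := by
    refine (Finset.abs_sum_le_sum_abs _ _).trans ((Finset.sum_le_sum fun m _ => hE m).trans ?_)
    rw [Finset.sum_add_distrib, Finset.sum_const, Pool.Agent.TH894.NE.card_box, nsmul_eq_mul,
      ← Finset.sum_filter, Finset.sum_const, nsmul_eq_mul]
    refine add_le_add ?_ (mul_le_mul_of_nonneg_right (hN p hp h5) (by positivity))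
    push_cast
    exact le_rfl
  have hmean : |mean 2 p (Lg p) - mean 2 p (g p)| ≤ C / (p * s) + 9 / (p : ℝ) ^ 2 := by
    have e : mean 2 p (Lg p) - mean 2 p (g p) =
        1 / (p : ℝ) ^ 2 * ∑ m ∈ box 2 p, (Lg p m - g p m) := by
      unfold mean
      rw [Finset.sum_sub_distrib]
      ring
    rw [e, abs_mul, abs_of_pos (by positivity : (0 : ℝ) < 1 / (p : ℝ) ^ 2)]
    calc 1 / (p : ℝ) ^ 2 * |∑ m ∈ box 2 p, (Lg p m - g p m)|
        ≤ 1 / (p : ℝ) ^ 2 * ((p : ℝ) ^ 2 * (C / (p * s)) + 3 * p * (3 / p)) :=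
          mul_le_mul_of_nonneg_left hsum (by positivity)
      _ = C / (p * s) + 9 / (p : ℝ) ^ 2 := by
          field_simp
          ring
  have hsq : 1 / (p : ℝ) ^ 2 ≤ 1 / (p * s) := by
    apply div_le_div_of_nonneg_left (by norm_num) hps
    nlinarith
  rw [mean_g h1 hm hp h5] at hmean
  rw [← hs]
  have e1 : mean 2 p (Lg p) - 1 / (2 * p) =
      (mean 2 p (Lg p) - (1 / (2 * p) + 1 / (2 * (p : ℝ) ^ 2))) + 1 / (2 * (p : ℝ) ^ 2) := by
    ring
  have e2 : 1 / (2 * (p : ℝ) ^ 2) = 1 / 2 * (1 / (p : ℝ) ^ 2) := by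
    field_simp
  have e3 : 9 / (p : ℝ) ^ 2 = 9 * (1 / (p : ℝ) ^ 2) := by ring
  have e4 : (C + 10) / (p * s) = C / (p * s) + 10 * (1 / (p * s)) := by ring
  rw [e1, e4]
  refine (abs_add_le _ _).trans ?_
  have h7 : 0 ≤ 1 / (p : ℝ) ^ 2 := by positivity
  have h8 : |1 / (2 * (p : ℝ) ^ 2)| = 1 / 2 * (1 / (p : ℝ) ^ 2) := by
    rw [abs_of_pos (by positivity), e2]
  rw [h8]
  rw [e3] at hmean
  linarith

end Pool.Agent.NH22.BS.M1
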