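import Pool.Agent.NH22.BS.Stm2

/-!
# Project BS: the variance of the logarithm of the local factor
-/

set_option autoImplicit false

namespace Pool.Agent.NH22.BS

open Finset
open Pool.Agent.TH894.NE (mean box Per mean_add mean_mul mean_const mean_mono)

lemma mean_sq_sub {d q : ℕ} (hq : 1 ≤ q) (F : (Fin d → ℕ) → ℝ) (c : ℝ) :
    mean d q (fun m => (F m - c) ^ 2) = mean d q (fun m => F m ^ 2) - 2 * c * mean d q F + c ^ 2 := by
  have e : (fun m => (F m - c) ^ 2) = fun m => ((fun m => F m ^ 2) m + (fun m => (-2 * c) * F m + c ^ 2) m) := by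
    funext m
    ring
  rw [e, mean_add]
  have e2 : mean d q (fun m => (-2 * c) * F m + c ^ 2) = (-2 * c) * mean d q F + c ^ 2 := by
    have h := mean_add (d := d) (q := q) (fun m => (-2 * c) * F m) (fun _ => c ^ 2)
    rw [mean_mul, mean_const d q hq] at h
    exact h
  rw [show (mean d q fun m => -2 * c * F m + c ^ 2) = (-2 * c) * mean d q F + c ^ 2 from e2]
  ring

lemma mean_close {d q : ℕ} (hq : 1 ≤ q) (F G : (Fin d → ℕ) → ℝ) (e : ℝ) (h : ∀ n, |F n - G n| ≤ e) :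
    |mean d q F - mean d q G| ≤ e := by
  have h1 : mean d q F ≤ mean d q G + e := by
    have := mean_mono (d := d) (q := q) (F := F) (G := fun n => G n + (fun _ => e) n)
      (fun n => by have := (abs_le.1 (h n)).2; simp only []; linarith)
    rw [mean_add, mean_const d q hq] at this
    exact this
  have h2 : mean d q G ≤ mean d q F + e := by
    have := mean_mono (d := d) (q := q) (F := G) (G := fun n => F n + (fun _ => e) n)
      (fun n => by have := (abs_le.1 (h n)).1; simp only []; linarith)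
    rw [mean_add, mean_const d q hq] at this
    exact this
  rw [abs_le]
  constructor <;> linarith

theorem t_VX (hL : S_LG) (hMU : S_MU) (hB : S_BAD) (hN : S_BADN) (hm : S_M2) : S_VX := by
  obtain ⟨C₁, h1, hL⟩ := hL
  obtain ⟨C₂, h2, hMU⟩ := hMU
  refine ⟨3 * C₁ ^ 2 + 1 + 1 + (1 + C₂) ^ 2, by positivity, fun p hp hp5 => ?_⟩
  have hp0 : (0 : ℝ) < p := by exact_mod_cast hp.pos
  have hp1 : (1 : ℝ) ≤ p := by exact_mod_cast hp.one_lt.le
  have hs0 : 0 < Real.sqrt p := Real.sqrt_pos.2 hp0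
  have hs1 : 1 ≤ Real.sqrt p := by
    rw [show (1 : ℝ) = Real.sqrt 1 by simp]
    exact Real.sqrt_le_sqrt hp1
  have hss : Real.sqrt p * Real.sqrt p = p := Real.mul_self_sqrt hp0.le
  have hsp : Real.sqrt p ≤ p := by nlinarith
  have hq : 1 ≤ p := hp.one_lt.le
  set E : ℝ := 1 / (p * Real.sqrt p) with hE
  have hE0 : 0 < E := by positivity
  have hpp : 1 / (p : ℝ) ^ 2 ≤ E := by
    rw [hE]
    apply one_div_le_one_div_of_le (by positivity)
    nlinarith
  have hEe : ∀ a : ℝ, a / (p * Real.sqrt p) = a * E := fun a => by rw [hE]; ring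
  -- the mean
  set μ : ℝ := mean 2 p (Lg p) with hμ
  have hμ1 : |μ| ≤ (1 + C₂) / p := by
    have h := hMU p hp hp5
    have h3 : |μ| ≤ 1 / (2 * p) + C₂ / (p * Real.sqrt p) := by
      have : |μ| ≤ |μ - 1 / (2 * p)| + |1 / (2 * (p : ℝ))| := by
        have := abs_add_le (μ - 1 / (2 * p)) (1 / (2 * (p : ℝ)))
        simpa using this
      rw [abs_of_pos (show (0 : ℝ) < 1 / (2 * p) by positivity)] at this
      linarith
    have h4 : C₂ / (p * Real.sqrt p) ≤ C₂ / p := by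
      apply div_le_div_of_nonneg_left h2 hp0
      nlinarith
    have h5 : 1 / (2 * (p : ℝ)) ≤ 1 / p := by
      apply one_div_le_one_div_of_le hp0
      linarith
    rw [add_div]
    linarith
  have hμ2 : μ ^ 2 ≤ (1 + C₂) ^ 2 * E := by
    have : μ ^ 2 ≤ ((1 + C₂) / p) ^ 2 := by
      rw [← sq_abs μ]
      exact pow_le_pow_left₀ (abs_nonneg _) hμ1 2
    calc μ ^ 2 ≤ ((1 + C₂) / p) ^ 2 := this
      _ = (1 + C₂) ^ 2 * (1 / (p : ℝ) ^ 2) := by ring
      _ ≤ (1 + C₂) ^ 2 * E := by gcongr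
  -- the second moment
  have hpt : ∀ m : Fin 2 → ℕ, |Lg p m ^ 2 - 1 / (p : ℝ) ^ 2 * (((pts p m : ℝ) - p) ^ 2)| ≤ (3 * C₁ ^ 2 + 1) * E := by
    intro m
    by_cases hg : Good p m
    · obtain ⟨g1, g2⟩ := hL p m hp
      have g2 := g2 hg
      set x : ℝ := ((pts p m : ℝ) - p) / p with hx
      have e : Lg p m ^ 2 - 1 / (p : ℝ) ^ 2 * (((pts p m : ℝ) - p) ^ 2) = (Lg p m - x) * (Lg p m + x) := by
        rw [hx]
        ring
      have g3 : |x| ≤ 2 * (C₁ / Real.sqrt p) := by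
        have : |x| ≤ |Lg p m| + |Lg p m - x| := by
          have := abs_sub_le x (Lg p m) 0
          rw [sub_zero, sub_zero, abs_sub_comm] at this
          linarith
        have h3 : C₁ / p ≤ C₁ / Real.sqrt p := div_le_div_of_nonneg_left h1 hs0 hsp
        linarith
      rw [e, abs_mul]
      have g4 : |Lg p m + x| ≤ 3 * (C₁ / Real.sqrt p) := by
        have := abs_add_le (Lg p m) x
        linarith
      calc |Lg p m - x| * |Lg p m + x| ≤ (C₁ / p) * (3 * (C₁ / Real.sqrt p)) := by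
            gcongr
        _ = 3 * C₁ ^ 2 * E := by
            rw [hE]
            field_simp
        _ ≤ (3 * C₁ ^ 2 + 1) * E := by nlinarith
    · have hl : Lg p m = 0 := by
        unfold Lg
        rw [if_neg hg]
      have hd : p ∣ 2 * (4 * m 1 ^ 3 + 27 * m 0 ^ 2) := by
        by_contra h
        exact hg ⟨hp, h⟩
      have hb := hB p m hp hp5 hd
      rw [hl]
      have h3 : ((pts p m : ℝ) - p) ^ 2 ≤ 1 := by
        rw [← sq_abs]
        have := pow_le_pow_left₀ (abs_nonneg _) hb 2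
        simpa using this
      have h4 : 0 ≤ 1 / (p : ℝ) ^ 2 * (((pts p m : ℝ) - p) ^ 2) := by positivity
      rw [show (0 : ℝ) ^ 2 - 1 / (p : ℝ) ^ 2 * (((pts p m : ℝ) - p) ^ 2) =
        -(1 / (p : ℝ) ^ 2 * (((pts p m : ℝ) - p) ^ 2)) by ring, abs_neg, abs_of_nonneg h4]
      calc 1 / (p : ℝ) ^ 2 * (((pts p m : ℝ) - p) ^ 2) ≤ 1 / (p : ℝ) ^ 2 * 1 := by gcongr
        _ = 1 / (p : ℝ) ^ 2 := by ring
        _ ≤ E := hpp
        _ ≤ (3 * C₁ ^ 2 + 1) * E := by nlinarith [sq_nonneg C₁]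
  have hc := mean_close hq (fun m => Lg p m ^ 2) (fun m => 1 / (p : ℝ) ^ 2 * (((pts p m : ℝ) - p) ^ 2)) _ hpt
  rw [mean_mul, hm p hp (by omega)] at hc
  have h7 : 1 / (p : ℝ) ^ 2 * ((p : ℝ) - 1) = 1 / p - 1 / (p : ℝ) ^ 2 := by
    field_simp
  rw [h7] at hc
  rw [mean_sq_sub hq, hEe]
  have h8 : 0 < 1 / (p : ℝ) ^ 2 := by positivity
  rw [abs_le] at hc ⊢
  have h9 : 0 ≤ μ ^ 2 := sq_nonneg _
  have h10 : mean 2 p (fun m => Lg p m ^ 2) - 2 * μ * μ + μ ^ 2 = mean 2 p (fun m => Lg p m ^ 2) - μ ^ 2 := by ring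
  rw [← hμ, h10]
  obtain ⟨c1, c2⟩ := hc
  constructor
  · nlinarith
  · nlinarith

end Pool.Agent.NH22.BS
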