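import Pool.Agent.NH22.BS.Stm2
import Pool.Agent.Helper923.HMertens

/-! The theorem of Mertens for the windows `(x, x ^ M]`. -/

set_option autoImplicit false

namespace Pool.Agent.NH22.BS.M3

open Finset Filter Topology
open Pool.Agent.NH22.BS

theorem t_MERT2 : S_MERT2 := by
  intro M hM
  obtain ⟨C, hC, h⟩ := Pool.Agent.Helper923.HMertens.mertens_ratio
  have hlim : Tendsto (fun x : ℕ => C / Real.log x) atTop (𝓝 0) :=
    (Real.tendsto_log_atTop.comp tendsto_natCast_atTop_atTop).const_div_atTop C
  rw [tendsto_iff_dist_tendsto_zero]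
  refine squeeze_zero' (Eventually.of_forall fun _ => dist_nonneg) ?_ hlim
  filter_upwards [eventually_ge_atTop 2] with x hx
  have hlx : 0 < Real.log x := Real.log_pos (by exact_mod_cast (by omega : 1 < x))
  have h1 := h x (x ^ M) hx (Nat.le_self_pow (by omega) x)
  have e : Real.log ((x ^ M : ℕ) : ℝ) / Real.log x = M := by
    rw [Nat.cast_pow, Real.log_pow]
    field_simp
  rw [e] at h1
  rw [Real.dist_eq]
  exact h1

end Pool.Agent.NH22.BS.M3
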