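import Pool.Agent.NH22.BS.Stm2

/-! The moments of the model are nearly Gaussian. -/

set_option autoImplicit false

namespace Pool.Agent.NH22.BS.M4

open Finset
open Pool.Agent.NH22.BS
open Pool.Agent.TH894.NE (mean box Per cfd)
open Pool.Agent.NH22.ST (MM)

variable {d : ℕ}

lemma indep {u v : ℕ} (hu : 1 ≤ u) (hv : 1 ≤ v) (huv : Nat.Coprime u v)
    {H G : (Fin d → ℕ) → ℝ} (hH : Per u H) (hG : Per v G) :
    mean d (u * v) (fun n => H n * G n) = mean d u H * mean d v G := by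
  unfold mean
  rw [Pool.Agent.TH894.NE.two_mod u v hu hv huv H G hH hG]
  push_cast
  rw [mul_pow]
  have h1 : (u : ℝ) ≠ 0 := by exact_mod_cast (by omega : u ≠ 0)
  have h2 : (v : ℝ) ≠ 0 := by exact_mod_cast (by omega : v ≠ 0)
  field_simp

lemma mean_sum {ι : Type} (s : Finset ι) (q : ℕ) (G : ι → (Fin d → ℕ) → ℝ) :
    mean d q (fun n => ∑ a ∈ s, G a n) = ∑ a ∈ s, mean d q (G a) := by
  unfold mean
  rw [← mul_sum, sum_comm]

lemma abs_mean_le {q : ℕ} {F G : (Fin d → ℕ) → ℝ} (h : ∀ n, |F n| ≤ G n) :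
    |mean d q F| ≤ mean d q G := by
  unfold mean
  rw [abs_mul, abs_of_nonneg (by positivity : (0 : ℝ) ≤ 1 / (q : ℝ) ^ d)]
  exact mul_le_mul_of_nonneg_left ((abs_sum_le_sum_abs _ _).trans (sum_le_sum fun n _ => h n))
    (by positivity)

lemma mean_nonneg {q : ℕ} {F : (Fin d → ℕ) → ℝ} (h : ∀ n, 0 ≤ F n) : 0 ≤ mean d q F := by
  unfold mean
  exact mul_nonneg (by positivity) (sum_nonneg fun n _ => h n)

lemma MM_zero : MM 1 0 = 1 := by simp [MM]

lemma MM_one : MM 1 1 = 0 := by simp [MM]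

lemma MM_succ (m : ℕ) : MM 1 (m + 2) = ((m : ℝ) + 1) * MM 1 m := by
  have h : ¬ Even 1 := by decide
  simp [MM, h]

lemma MM_odd (l : ℕ) : MM 1 (2 * l + 1) = 0 := by
  induction l with
  | zero => exact MM_one
  | succ l ih =>
    rw [show 2 * (l + 1) + 1 = (2 * l + 1) + 2 by ring, MM_succ, ih, mul_zero]

lemma pow_diff {a b W : ℝ} (ha : 0 ≤ a) (hab : a ≤ b) (hb : b ≤ W) (hW : 1 ≤ W) (l : ℕ) :
    b ^ l - a ^ l ≤ l * W ^ l * (b - a) := by
  induction l with
  | zero => simp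
  | succ l ih =>
    have h1 : b ^ (l + 1) - a ^ (l + 1) = b * (b ^ l - a ^ l) + a ^ l * (b - a) := by ring
    have h2 : 0 ≤ b ^ l - a ^ l := sub_nonneg.2 (pow_le_pow_left₀ ha hab l)
    have h3 : b * (b ^ l - a ^ l) ≤ W * (l * W ^ l * (b - a)) :=
      mul_le_mul hb ih h2 (by linarith)
    have h4 : a ^ l ≤ W ^ (l + 1) :=
      (pow_le_pow_left₀ ha (hab.trans hb) l).trans (pow_le_pow_right₀ hW (Nat.le_succ l))
    have h5 : a ^ l * (b - a) ≤ W ^ (l + 1) * (b - a) :=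
      mul_le_mul_of_nonneg_right h4 (sub_nonneg.2 hab)
    rw [h1]
    push_cast
    calc _ ≤ W * (l * W ^ l * (b - a)) + W ^ (l + 1) * (b - a) := add_le_add h3 h5
      _ = _ := by ring

lemma sqrt_diff {V v W η : ℝ} (hv : 0 ≤ v) (hvV : v ≤ V) (hVW : V ≤ W) (hW : 1 ≤ W) (hvη : v ≤ η)
    (m : ℕ) : |Real.sqrt (V - v) ^ m * MM 1 m - Real.sqrt V ^ m * MM 1 m| ≤
      m * W ^ m * |MM 1 m| * η := by
  rcases Nat.even_or_odd' m with ⟨l, rfl | rfl⟩
  · have e1 : Real.sqrt (V - v) ^ (2 * l) = (V - v) ^ l := by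
      rw [pow_mul, Real.sq_sqrt (by linarith)]
    have e2 : Real.sqrt V ^ (2 * l) = V ^ l := by
      rw [pow_mul, Real.sq_sqrt (by linarith)]
    rw [e1, e2, ← sub_mul, abs_mul]
    have h1 := pow_diff (a := V - v) (b := V) (by linarith) (by linarith) hVW hW l
    have h2 : 0 ≤ V ^ l - (V - v) ^ l :=
      sub_nonneg.2 (pow_le_pow_left₀ (by linarith) (by linarith) l)
    have h3 : |(V - v) ^ l - V ^ l| ≤ l * W ^ l * v := by
      rw [abs_sub_comm, abs_of_nonneg h2]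
      calc _ ≤ _ := h1
        _ = _ := by ring
    have h4 : l * W ^ l * v ≤ ((2 * l : ℕ) : ℝ) * W ^ (2 * l) * η := by
      apply mul_le_mul _ hvη hv (by positivity)
      apply mul_le_mul _ (pow_le_pow_right₀ hW (by omega)) (by positivity) (by positivity)
      push_cast
      have : (0 : ℝ) ≤ l := Nat.cast_nonneg l
      linarith
    calc _ ≤ (((2 * l : ℕ) : ℝ) * W ^ (2 * l) * η) * |MM 1 (2 * l)| :=
          mul_le_mul_of_nonneg_right (h3.trans h4) (abs_nonneg _)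
      _ = _ := by ring
  · rw [MM_odd]
    simp

/-- bound for the absolute moments -/
noncomputable def BB (W : ℝ) (j : ℕ) : ℝ := 1 + 2 * ((j + 1).factorial : ℝ) * Real.exp W

lemma BB_mono (W : ℝ) {i j : ℕ} (h : i ≤ j) : BB W i ≤ BB W j := by
  unfold BB
  have h1 : ((i + 1).factorial : ℝ) ≤ ((j + 1).factorial : ℝ) := by
    exact_mod_cast Nat.factorial_le (by omega)
  have h2 := Real.exp_pos W
  nlinarith

lemma BB_pos (W : ℝ) (j : ℕ) : 0 ≤ BB W j := by
  unfold BB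
  positivity

lemma absmom (hE : S_EXPM) {I : Finset ℕ} {F : ℕ → (Fin d → ℕ) → ℝ} {η W : ℝ} (h1 : η ≤ 1)
    (hL : Loc d I F η) (hV : ∑ p ∈ I, mean d p (fun n => F p n ^ 2) ≤ W) (j : ℕ) :
    |mean d (∏ p ∈ I, p) (fun n => (∑ p ∈ I, F p n) ^ j)| ≤ BB W j := by
  have hL1 : Loc d I F 1 := fun p hp =>
    ⟨(hL p hp).1, (hL p hp).2.1, fun n => ((hL p hp).2.2.1 n).trans h1, (hL p hp).2.2.2⟩
  have hexp := Real.exp_pos W
  rcases Nat.even_or_odd j with hj | hj
  · have h2 := hE d I F W j hj hL1 hV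
    rw [abs_of_nonneg (mean_nonneg fun n => hj.pow_nonneg _)]
    refine h2.trans ?_
    unfold BB
    have h3 : (j.factorial : ℝ) ≤ ((j + 1).factorial : ℝ) := by
      exact_mod_cast Nat.factorial_le (by omega)
    nlinarith
  · have hj1 : Even (j + 1) := hj.add_one
    have h2 := hE d I F W (j + 1) hj1 hL1 hV
    have hq : 1 ≤ ∏ p ∈ I, p := Finset.one_le_prod' fun p hp => (hL p hp).1.one_le
    have h3 : |mean d (∏ p ∈ I, p) (fun n => (∑ p ∈ I, F p n) ^ j)| ≤
        mean d (∏ p ∈ I, p) (fun n => 1 + (∑ p ∈ I, F p n) ^ (j + 1)) := by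
      apply abs_mean_le
      intro n
      generalize ∑ p ∈ I, F p n = z
      have e : z ^ (j + 1) = |z| ^ (j + 1) := (hj1.pow_abs z).symm
      rw [abs_pow, e]
      rcases le_total |z| 1 with hz | hz
      · have h4 : |z| ^ j ≤ 1 := pow_le_one₀ (abs_nonneg z) hz
        have h5 : 0 ≤ |z| ^ (j + 1) := by positivity
        linarith
      · have h4 : |z| ^ j ≤ |z| ^ (j + 1) := pow_le_pow_right₀ hz (Nat.le_succ j)
        linarith
    refine h3.trans ?_
    rw [Pool.Agent.TH894.NE.mean_add, Pool.Agent.TH894.NE.mean_const d _ hq]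
    unfold BB
    linarith

lemma per_sum {I : Finset ℕ} {F : ℕ → (Fin d → ℕ) → ℝ} {η : ℝ} (hL : Loc d I F η) (k : ℕ) :
    Per (∏ p ∈ I, p) (fun n => (∑ p ∈ I, F p n) ^ k) := by
  intro n
  show (∑ p ∈ I, F p n) ^ k = (∑ p ∈ I, F p (fun i => n i % ∏ p ∈ I, p)) ^ k
  congr 1
  exact sum_congr rfl fun p hp => ((hL p hp).2.1.of_dvd (dvd_prod_of_mem _ hp)) n

lemma rec_p {I : Finset ℕ} {F : ℕ → (Fin d → ℕ) → ℝ} {η : ℝ} (hL : Loc d I F η) {r : ℕ}
    (hr : r ∈ I) (k : ℕ) :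
    mean d (∏ p ∈ I, p) (fun n => F r n * (∑ p ∈ I, F p n) ^ k) =
      ∑ j ∈ range (k + 1), (k.choose j : ℝ) * (mean d r (fun n => F r n ^ (j + 1)) *
        mean d (∏ p ∈ I.erase r, p) (fun n => (∑ p ∈ I.erase r, F p n) ^ (k - j))) := by
  have hLe : Loc d (I.erase r) F η := fun p hp => hL p (mem_of_mem_erase hp)
  have e1 : (fun n => F r n * (∑ p ∈ I, F p n) ^ k) = fun n => ∑ j ∈ range (k + 1),
      (k.choose j : ℝ) * (F r n ^ (j + 1) * (∑ p ∈ I.erase r, F p n) ^ (k - j)) := by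
    funext n
    rw [← add_sum_erase I (fun p => F p n) hr, add_pow, mul_sum]
    exact sum_congr rfl fun j _ => by ring
  rw [e1, mean_sum]
  refine sum_congr rfl fun j _ => ?_
  rw [Pool.Agent.TH894.NE.mean_mul, ← mul_prod_erase I (fun p => p) hr]
  congr 1
  apply indep (hL r hr).1.one_le (Finset.one_le_prod' fun p hp => (hLe p hp).1.one_le)
  · exact Nat.Coprime.prod_right fun p hp => (Nat.coprime_primes (hL r hr).1 (hLe p hp).1).2
      (ne_of_mem_erase hp).symm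
  · intro n
    show F r n ^ (j + 1) = F r (fun i => n i % r) ^ (j + 1)
    rw [← (hL r hr).2.1 n]
  · exact per_sum hLe _

lemma mean_succ {I : Finset ℕ} {F : ℕ → (Fin d → ℕ) → ℝ} (Q k : ℕ) :
    mean d Q (fun n => (∑ p ∈ I, F p n) ^ (k + 1)) =
      ∑ r ∈ I, mean d Q (fun n => F r n * (∑ p ∈ I, F p n) ^ k) := by
  rw [← mean_sum]
  congr 1
  funext n
  rw [pow_succ', sum_mul]

lemma mom_small {F : (Fin d → ℕ) → ℝ} {η : ℝ} (h0 : 0 ≤ η) (h1 : η ≤ 1) (hF : ∀ n, |F n| ≤ η)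
    (q j : ℕ) : |mean d q (fun n => F n ^ (j + 3))| ≤ η * mean d q (fun n => F n ^ 2) := by
  rw [← Pool.Agent.TH894.NE.mean_mul]
  apply abs_mean_le
  intro n
  rw [abs_pow, show j + 3 = (j + 1) + 2 by ring, pow_add |F n|, sq_abs]
  apply mul_le_mul_of_nonneg_right _ (sq_nonneg _)
  calc |F n| ^ (j + 1) ≤ |F n| ^ 1 :=
        pow_le_pow_of_le_one (abs_nonneg _) ((hF n).trans h1) (by omega)
    _ ≤ η := by rw [pow_one]; exact hF n

theorem t_GMO (hE : S_EXPM) : S_GMO := by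
  intro d k V₀
  obtain ⟨W, hW⟩ : ∃ W : ℝ, W = |V₀| + 1 := ⟨_, rfl⟩
  have hW1 : 1 ≤ W := by rw [hW]; linarith [abs_nonneg V₀]
  have hVW : V₀ ≤ W := by rw [hW]; linarith [le_abs_self V₀]
  induction k using Nat.twoStepInduction with
  | zero =>
    refine ⟨0, le_rfl, fun I F η _ _ hL _ => ?_⟩
    have hq : 1 ≤ ∏ p ∈ I, p := Finset.one_le_prod' fun p hp => (hL p hp).1.one_le
    simp only [pow_zero]
    rw [Pool.Agent.TH894.NE.mean_const d _ hq, MM_zero]
    simp
  | one =>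
    refine ⟨0, le_rfl, fun I F η _ _ hL _ => ?_⟩
    have h := mean_succ (d := d) (I := I) (F := F) (∏ p ∈ I, p) 0
    rw [zero_add] at h
    rw [h, MM_one, mul_zero, sub_zero, zero_mul]
    rw [sum_eq_zero fun r hr => ?_, abs_zero]
    rw [rec_p hL hr 0]
    simp [(hL r hr).2.2.2]
  | more m ih _ =>
    obtain ⟨C, hC, ih⟩ := ih
    refine ⟨W * (2 ^ (m + 1) * BB W (m + 1)) + (m + 1) * W * (C + m * W ^ m * |MM 1 m|),
      by have := BB_pos W (m + 1); positivity, fun I F η h0 h1 hL hV => ?_⟩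
    obtain ⟨V, hVe⟩ : ∃ V : ℝ, V = ∑ p ∈ I, mean d p (fun n => F p n ^ 2) := ⟨_, rfl⟩
    have hv0 : ∀ p ∈ I, 0 ≤ mean d p (fun n => F p n ^ 2) := fun p _ =>
      mean_nonneg fun n => sq_nonneg _
    have hV0 : 0 ≤ V := by rw [hVe]; exact sum_nonneg hv0
    have hVW' : V ≤ W := by rw [hVe]; exact hV.trans hVW
    rw [← hVe, mean_succ, MM_succ]
    -- the individual terms
    have hterm : ∀ r ∈ I, |mean d (∏ p ∈ I, p) (fun n => F r n * (∑ p ∈ I, F p n) ^ (m + 1)) -
        (m + 1) * mean d r (fun n => F r n ^ 2) * (Real.sqrt V ^ m * MM 1 m)| ≤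
        mean d r (fun n => F r n ^ 2) * (η * (2 ^ (m + 1) * BB W (m + 1) +
          (m + 1) * (C + m * W ^ m * |MM 1 m|))) := by
      intro r hr
      have hLe : Loc d (I.erase r) F η := fun p hp => hL p (mem_of_mem_erase hp)
      obtain ⟨v, hv⟩ : ∃ v : ℝ, v = mean d r (fun n => F r n ^ 2) := ⟨_, rfl⟩
      have hv0' : 0 ≤ v := by rw [hv]; exact hv0 r hr
      have hsum : v + ∑ p ∈ I.erase r, mean d p (fun n => F p n ^ 2) = V := by
        rw [hVe, hv]
        exact add_sum_erase I (fun p => mean d p (fun n => F p n ^ 2)) hr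
      have hse : ∑ p ∈ I.erase r, mean d p (fun n => F p n ^ 2) = V - v := by linarith
      have hse0 : 0 ≤ V - v := by
        rw [← hse]
        exact sum_nonneg fun p hp => hv0 p (mem_of_mem_erase hp)
      have hvη : v ≤ η := by
        rw [hv]
        have h3 : mean d r (fun n => F r n ^ 2) ≤ mean d r (fun _ => η) := by
          apply Pool.Agent.TH894.NE.mean_mono
          intro n
          have h4 := (hL r hr).2.2.1 n
          rw [← sq_abs]
          have h5 := abs_nonneg (F r n)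
          nlinarith
        rwa [Pool.Agent.TH894.NE.mean_const d _ (hL r hr).1.one_le] at h3
      have hB : ∀ i ≤ m + 1, |mean d (∏ p ∈ I.erase r, p)
          (fun n => (∑ p ∈ I.erase r, F p n) ^ i)| ≤ BB W (m + 1) := fun i hi =>
        (absmom hE h1 hLe (by rw [hse]; linarith) i).trans (BB_mono W hi)
      rw [rec_p hL hr (m + 1), ← hv, sum_range_succ', sum_range_succ']
      simp only [zero_add, Nat.choose_zero_right, Nat.choose_one_right, pow_one, Nat.sub_zero,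
        (hL r hr).2.2.2, zero_mul, mul_zero, add_zero, Nat.add_sub_cancel]
      rw [show (1 : ℕ) + 1 = 2 from rfl, ← hv]
      have hbig : |∑ j ∈ range m, ((m + 1).choose (j + 1 + 1) : ℝ) *
          (mean d r (fun n => F r n ^ (j + 1 + 1 + 1)) * mean d (∏ p ∈ I.erase r, p)
            (fun n => (∑ p ∈ I.erase r, F p n) ^ (m + 1 - (j + 1 + 1))))| ≤
          v * (η * (2 ^ (m + 1) * BB W (m + 1))) := by
        have h2 : ∀ j ∈ range m, |((m + 1).choose (j + 1 + 1) : ℝ) *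
            (mean d r (fun n => F r n ^ (j + 1 + 1 + 1)) * mean d (∏ p ∈ I.erase r, p)
              (fun n => (∑ p ∈ I.erase r, F p n) ^ (m + 1 - (j + 1 + 1))))| ≤
            ((m + 1).choose (j + 1 + 1) : ℝ) * (η * v * BB W (m + 1)) := by
          intro j _
          rw [abs_mul, abs_mul, abs_of_nonneg (Nat.cast_nonneg _)]
          apply mul_le_mul_of_nonneg_left _ (Nat.cast_nonneg _)
          refine mul_le_mul ?_ (hB _ (by omega)) (abs_nonneg _) (by positivity)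
          rw [hv]
          exact mom_small h0 h1 (hL r hr).2.2.1 r j
        refine (abs_sum_le_sum_abs _ _).trans ((sum_le_sum h2).trans ?_)
        rw [← sum_mul]
        have h3 : ∑ j ∈ range m, ((m + 1).choose (j + 1 + 1) : ℝ) ≤ 2 ^ (m + 1) := by
          have h4 := Nat.sum_range_choose (m + 1)
          rw [sum_range_succ', sum_range_succ'] at h4
          have h5 : ∑ j ∈ range m, (m + 1).choose (j + 1 + 1) ≤ 2 ^ (m + 1) := by omega
          exact_mod_cast h5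
        have h4 : 0 ≤ η * v * BB W (m + 1) := by have := BB_pos W (m + 1); positivity
        calc _ ≤ 2 ^ (m + 1) * (η * v * BB W (m + 1)) := mul_le_mul_of_nonneg_right h3 h4
          _ = _ := by ring
      have hmain : |mean d (∏ p ∈ I.erase r, p) (fun n => (∑ p ∈ I.erase r, F p n) ^ m) -
          Real.sqrt V ^ m * MM 1 m| ≤ η * (C + m * W ^ m * |MM 1 m|) := by
        have h2 := ih (I.erase r) F η h0 h1 hLe (by rw [hse]; linarith)
        rw [hse] at h2
        have h3 := sqrt_diff hv0' (by linarith) hVW' hW1 hvη m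
        calc _ ≤ |mean d (∏ p ∈ I.erase r, p) (fun n => (∑ p ∈ I.erase r, F p n) ^ m) -
              Real.sqrt (V - v) ^ m * MM 1 m| +
              |Real.sqrt (V - v) ^ m * MM 1 m - Real.sqrt V ^ m * MM 1 m| := abs_sub_le _ _ _
          _ ≤ C * η + m * W ^ m * |MM 1 m| * η := add_le_add h2 h3
          _ = _ := by ring
      obtain ⟨S, hS⟩ : ∃ S : ℝ, S = ∑ j ∈ range m, ((m + 1).choose (j + 1 + 1) : ℝ) *
          (mean d r (fun n => F r n ^ (j + 1 + 1 + 1)) * mean d (∏ p ∈ I.erase r, p)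
            (fun n => (∑ p ∈ I.erase r, F p n) ^ (m + 1 - (j + 1 + 1)))) := ⟨_, rfl⟩
      obtain ⟨T, hT⟩ : ∃ T : ℝ, T = mean d (∏ p ∈ I.erase r, p)
          (fun n => (∑ p ∈ I.erase r, F p n) ^ m) := ⟨_, rfl⟩
      rw [← hS] at hbig ⊢
      rw [← hT] at hmain ⊢
      have e : S + ((m + 1 : ℕ) : ℝ) * (v * T) - (m + 1) * v * (Real.sqrt V ^ m * MM 1 m) =
          S + (m + 1) * v * (T - Real.sqrt V ^ m * MM 1 m) := by push_cast; ring
      rw [e]
      refine (abs_add_le _ _).trans ?_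
      have h5 : |(m + 1) * v * (T - Real.sqrt V ^ m * MM 1 m)| ≤
          (m + 1) * v * (η * (C + m * W ^ m * |MM 1 m|)) := by
        rw [abs_mul, abs_of_nonneg (by positivity : (0 : ℝ) ≤ (m + 1) * v)]
        exact mul_le_mul_of_nonneg_left hmain (by positivity)
      calc _ ≤ v * (η * (2 ^ (m + 1) * BB W (m + 1))) +
            (m + 1) * v * (η * (C + m * W ^ m * |MM 1 m|)) := add_le_add hbig h5
        _ = _ := by ring
    have e : Real.sqrt V ^ (m + 2) * (((m : ℝ) + 1) * MM 1 m) =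
        ∑ r ∈ I, (m + 1) * mean d r (fun n => F r n ^ 2) * (Real.sqrt V ^ m * MM 1 m) := by
      rw [← sum_mul, ← mul_sum, ← hVe, pow_add, Real.sq_sqrt hV0]
      ring
    rw [e, ← sum_sub_distrib]
    refine (abs_sum_le_sum_abs _ _).trans ((sum_le_sum hterm).trans ?_)
    rw [← sum_mul, ← hVe]
    have h6 : 0 ≤ η * (2 ^ (m + 1) * BB W (m + 1) + (m + 1) * (C + m * W ^ m * |MM 1 m|)) := by
      have := BB_pos W (m + 1)
      positivity
    calc _ ≤ W * (η * (2 ^ (m + 1) * BB W (m + 1) + (m + 1) * (C + m * W ^ m * |MM 1 m|))) :=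
          mul_le_mul_of_nonneg_right hVW' h6
      _ = _ := by ring

end Pool.Agent.NH22.BS.M4
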