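import Pool.Agent.NH22.BS.Stm2

/-!
# Project BS: shift and normalization of nearly Gaussian moments
-/

set_option autoImplicit false

namespace Pool.Agent.NH22.BS.M5

open Pool.Agent.NH22.BS Finset
open Pool.Agent.NH22.ST (MM)

theorem t_SHIFT : S_SHIFT := by
  intro n σ hσ
  set E : ℕ → ℝ := fun k => (σ ^ k)⁻¹ * ∑ j ∈ range (k + 1), (k.choose j : ℝ) * (σ ^ j * |MM 1 j| + 1)
    with hE
  have hE0 : ∀ k, 0 ≤ E k := by
    intro k
    refine mul_nonneg (inv_nonneg.mpr (pow_nonneg hσ.le k)) (sum_nonneg fun j _ => ?_)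
    have h1 : 0 ≤ σ ^ j * |MM 1 j| := mul_nonneg (pow_nonneg hσ.le j) (abs_nonneg _)
    have h2 : (0 : ℝ) ≤ (k.choose j : ℝ) := Nat.cast_nonneg _
    exact mul_nonneg h2 (by linarith)
  refine ⟨∑ k ∈ range (n + 1), E k, sum_nonneg fun k _ => hE0 k, ?_⟩
  intro α A X δ ζ hA hδ hζ h k hk
  have hζ0 : 0 ≤ ζ := (abs_nonneg δ).trans hδ
  have hkE : E k ≤ ∑ k ∈ range (n + 1), E k :=
    single_le_sum (f := E) (fun i _ => hE0 i) (mem_range.mpr (by omega))
  refine le_trans ?_ (mul_le_mul_of_nonneg_right hkE hζ0)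
  set m : ℕ → ℝ := fun j => (∑ a ∈ A, X a ^ j) / (A.card : ℝ) with hm
  have hσk : 0 < σ ^ k := pow_pos hσ k
  -- expansion of the binomial
  have e1 : (∑ a ∈ A, ((X a + δ) / σ) ^ k) / (A.card : ℝ)
      = (σ ^ k)⁻¹ * ∑ j ∈ range (k + 1), (k.choose j : ℝ) * (m j * δ ^ (k - j)) := by
    have e2 : ∀ a ∈ A, ((X a + δ) / σ) ^ k
        = (σ ^ k)⁻¹ * ∑ j ∈ range (k + 1), X a ^ j * δ ^ (k - j) * (k.choose j : ℝ) := by
      intro a _
      rw [div_pow, add_pow, div_eq_inv_mul]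
    rw [sum_congr rfl e2, ← mul_sum, sum_comm, mul_div_assoc, sum_div]
    congr 1
    refine sum_congr rfl fun j _ => ?_
    rw [hm]
    simp only
    rw [← sum_mul, ← sum_mul]
    ring
  have e3 : MM 1 k = (σ ^ k)⁻¹ * (σ ^ k * MM 1 k) := by
    rw [← mul_assoc, inv_mul_cancel₀ hσk.ne', one_mul]
  rw [e1]
  conv_lhs => rw [e3]
  rw [← mul_sub, abs_mul, abs_of_pos (inv_pos.mpr hσk), hE]
  simp only
  rw [mul_assoc]
  refine mul_le_mul_of_nonneg_left ?_ (inv_pos.mpr hσk).le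
  rw [sum_range_succ, sum_range_succ, Nat.choose_self, Nat.sub_self, pow_zero, mul_one, Nat.cast_one,
    one_mul, one_mul, add_mul]
  have e4 : (∑ j ∈ range k, (k.choose j : ℝ) * (m j * δ ^ (k - j))) + m k - σ ^ k * MM 1 k
      = (∑ j ∈ range k, (k.choose j : ℝ) * (m j * δ ^ (k - j))) + (m k - σ ^ k * MM 1 k) := by ring
  rw [e4]
  refine (abs_add_le _ _).trans (add_le_add ?_ ?_)
  · refine (abs_sum_le_sum_abs _ _).trans ?_
    rw [sum_mul]
    refine sum_le_sum fun j hj => ?_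
    have hjk : j < k := mem_range.mp hj
    rw [abs_mul, abs_mul, abs_of_nonneg (Nat.cast_nonneg (k.choose j) : (0 : ℝ) ≤ (k.choose j : ℝ)), mul_assoc]
    refine mul_le_mul_of_nonneg_left ?_ (Nat.cast_nonneg _)
    have hmj : |m j| ≤ σ ^ j * |MM 1 j| + 1 := by
      have h1 := h j (by omega)
      have h2 : |m j| ≤ |m j - σ ^ j * MM 1 j| + |σ ^ j * MM 1 j| := by
        have := abs_add_le (m j - σ ^ j * MM 1 j) (σ ^ j * MM 1 j)
        simpa using this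
      rw [abs_mul, abs_of_pos (pow_pos hσ j)] at h2
      have h3 : |m j - σ ^ j * MM 1 j| ≤ ζ := h1
      linarith
    have hdj : |δ ^ (k - j)| ≤ ζ := by
      rw [abs_pow]
      obtain ⟨t, ht⟩ : ∃ t, k - j = t + 1 := ⟨k - j - 1, by omega⟩
      rw [ht, pow_succ]
      have h1 : |δ| ^ t ≤ 1 := pow_le_one₀ (abs_nonneg _) (hδ.trans hζ)
      calc |δ| ^ t * |δ| ≤ 1 * ζ := mul_le_mul h1 hδ (abs_nonneg _) zero_le_one
        _ = ζ := one_mul _
    exact mul_le_mul hmj hdj (abs_nonneg _) ((abs_nonneg _).trans hmj)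
  · have h1 : |m k - σ ^ k * MM 1 k| ≤ ζ := h k hk
    have h2 : 0 ≤ σ ^ k * |MM 1 k| := mul_nonneg hσk.le (abs_nonneg _)
    nlinarith [mul_nonneg h2 hζ0]

end Pool.Agent.NH22.BS.M5
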