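import Pool.Agent.NH22.BS.Stm2

/-!
# Project BS: the distribution function from the moments for an arbitrary finite set
-/

set_option autoImplicit false

namespace Pool.Agent.NH22.BS.M6

open Pool.Agent.NH22.BS Finset
open Pool.Agent.NH22.ST (MM)

theorem t_QF (hQ : Pool.Agent.NH22.ST.S_QE) : S_QF := by
  classical
  obtain ⟨C, hC, H⟩ := hQ
  refine ⟨C, hC, ?_⟩
  intro g α A X η hg hA hη hmom z
  set e := A.equivFin with he
  set a : ℕ → ℝ := fun n => if h : n < A.card then X (e.symm ⟨n, h⟩) else 0 with ha
  -- transfer of sums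
  have key : ∀ f : ℝ → ℝ, ∑ n ∈ range A.card, f (a n) = ∑ x ∈ A, f (X x) := by
    intro f
    rw [← Fin.sum_univ_eq_sum_range (fun n => f (a n)) A.card, ← Finset.sum_coe_sort A (fun x => f (X x)),
      ← Equiv.sum_comp e.symm]
    refine sum_congr rfl fun i _ => ?_
    have h1 : a (i : ℕ) = X (e.symm i) := by
      rw [ha]
      simp only [i.isLt, dif_pos, Fin.eta]
    rw [h1]
  have hcard : (range A.card).card = A.card := card_range _
  have hne : (range A.card).Nonempty := by
    rw [nonempty_range_iff]
    exact (card_pos.mpr hA).ne'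
  have h1 := H g (range A.card) a η hg hne hη (fun k hk => by
    rw [hcard, key (fun t => t ^ k)]
    exact hmom k hk) z
  have h2 : (((range A.card).filter (fun n => a n ≤ z)).card : ℝ) = ((A.filter (fun x => X x ≤ z)).card : ℝ) := by
    rw [card_filter, card_filter]
    push_cast
    exact key (fun t => if t ≤ z then 1 else 0)
  rw [h2, hcard] at h1
  exact h1

end Pool.Agent.NH22.BS.M6
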