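import Pool.Agent.NH22.BS.L1
import Pool.Agent.NH22.BS.L2
import Pool.Agent.NH22.BS.L3
import Pool.Agent.NH22.BS.A1
import Pool.Agent.NH22.BS.A2
import Pool.Agent.NH22.BS.A3
import Pool.Agent.NH22.BS.M1
import Pool.Agent.NH22.BS.M2
import Pool.Agent.NH22.BS.M3
import Pool.Agent.NH22.BS.M4
import Pool.Agent.NH22.BS.M5
import Pool.Agent.NH22.BS.M6
import Pool.Agent.NH22.BS.F5
import Pool.Agent.NH22.ST.All2

/-!
# Project BS: Brownian motion, all statements proved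
-/

set_option autoImplicit false

namespace Pool.Agent.NH22.BS.All2

open Pool.Agent.NH22.BS Pool.Agent.NH22.BS.F5 Finset ProbabilityTheory
open Pool.Agent.Y57.FD (digit change exceptions)

theorem main (b k : ℕ) (M : ℕ → ℕ) (lam : ℕ → ℝ) (ε : ℝ) (hb : 2 ≤ b) (hM0 : 1 ≤ M 0) (hM : StrictMono M)
    (hε : 0 < ε) (hlam : ∃ i < k, lam i ≠ 0) :
    ∃ c : ℝ, 0 < c ∧ ∃ x₀ : ℕ, ∀ (K r : Fin 2 → ℕ) (x : ℕ), (∀ l, 2 * r l ≤ K l) → x₀ ≤ x →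
    (∀ l, (x : ℝ) ≤ Real.exp (c * r l)) → ∀ N : Fin 2 → ℕ, (∀ l, N l < b ^ K l) →
    ∀ f : Fin 2 → ℕ → ℕ, (∀ l j, f l j < b ∧ f l j ≠ digit b j (N l)) → ∀ z : ℝ,
    |((((Fintype.piFinset (fun l : Fin 2 => powersetCard (r l) (range (K l)))).filter
        (fun S => stat x k M lam (fun l => change b (K l) (N l) (f l) (S l)) ≤ av k M lam + z * Real.sqrt (vv k M lam))).card : ℕ) : ℝ) /
      (∏ l, ((K l).choose (r l) : ℝ)) - (gaussianReal 0 1).real (Set.Iic z)| ≤ ε :=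
  have hH : S_HASSE := L1.t_HASSE
  have hP : S_PER := L3.t_PER
  have hL : S_LG := L3.t_LG hH
  have hC : S_COEF := A2.t_COEF
  have hX : S_EXPM := A2.t_EXPM
  have hE : S_ENG := t_ENG A1.t_AVG hC
  have hMU : S_MU := M1.t_MU (M1.t_LG2 hH) hL L2.t_BAD L2.t_BADN L1.t_M1 L1.t_M2
  have hVX : S_VX := t_VX hL hMU L2.t_BAD L2.t_BADN L1.t_M2
  bm hP hL hMU hVX hE (M4.t_GMO hX) M3.t_MERT2 M5.t_SHIFT (M6.t_QF Pool.Agent.NH22.ST.All2.t_QE) b k M lam ε hb hM0 hM hε hlam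

end Pool.Agent.NH22.BS.All2
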