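import Pool.Agent.NH22.BS.Stm

/-!
# Project BS: the local functions and their variances
-/

set_option autoImplicit false

namespace Pool.Agent.NH22.BS.F1

open Pool.Agent.NH22.BS Finset
open Pool.Agent.TH894.NE (mean box Per cfd mean_mul mean_add mean_const mean_mono)

noncomputable def mu (p : ℕ) : ℝ := mean 2 p (Lg p)

noncomputable def sg (x M p : ℕ) : ℝ := if p ≤ x ^ M then -1 else 1

noncomputable def FF (x M p : ℕ) (n : Fin 2 → ℕ) : ℝ := sg x M p * (Lg p n - mu p)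

def II (x M : ℕ) : Finset ℕ := (Ioc x (x ^ (M ^ 2))).filter Nat.Prime

lemma sg_sq (x M p : ℕ) : sg x M p ^ 2 = 1 := by
  unfold sg
  split_ifs <;> norm_num

lemma sg_abs (x M p : ℕ) : |sg x M p| = 1 := by
  unfold sg
  split_ifs <;> norm_num

lemma mean_le {d q : ℕ} (hq : 1 ≤ q) (F : (Fin d → ℕ) → ℝ) (B : ℝ) (h : ∀ n, |F n| ≤ B) : |mean d q F| ≤ B := by
  rw [abs_le]
  constructor
  · have h1 : mean d q (fun _ => -B) ≤ mean d q F := mean_mono fun n => (abs_le.1 (h n)).1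
    rwa [mean_const d q hq] at h1
  · have h1 : mean d q F ≤ mean d q (fun _ => B) := mean_mono fun n => (abs_le.1 (h n)).2
    rwa [mean_const d q hq] at h1

lemma mem_II {x M p : ℕ} : p ∈ II x M ↔ (x < p ∧ p ≤ x ^ (M ^ 2)) ∧ p.Prime := by
  unfold II
  rw [mem_filter, mem_Ioc]

lemma FF_le {CL : ℝ} (h0 : 0 ≤ CL) (hL : ∀ (p : ℕ) (m : Fin 2 → ℕ), p.Prime → |Lg p m| ≤ CL / Real.sqrt p)
    (x M p : ℕ) (hp : p.Prime) (n : Fin 2 → ℕ) : |FF x M p n| ≤ 2 * CL / Real.sqrt p := by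
  have h1 := hL p n hp
  have h2 : |mu p| ≤ CL / Real.sqrt p := mean_le hp.one_lt.le _ _ fun n => hL p n hp
  unfold FF
  rw [abs_mul, sg_abs, one_mul]
  calc |Lg p n - mu p| ≤ |Lg p n| + |mu p| := abs_sub _ _
    _ ≤ CL / Real.sqrt p + CL / Real.sqrt p := add_le_add h1 h2
    _ = 2 * CL / Real.sqrt p := by ring

lemma loc (hP : S_PER) {CL : ℝ} (h0 : 0 ≤ CL) (hL : ∀ (p : ℕ) (m : Fin 2 → ℕ), p.Prime → |Lg p m| ≤ CL / Real.sqrt p)
    (x M : ℕ) (hx : 1 ≤ x) : Loc 2 (II x M) (FF x M) (2 * CL / Real.sqrt x) := by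
  intro p hp
  rw [mem_II] at hp
  obtain ⟨⟨h1, _⟩, hpp⟩ := hp
  refine ⟨hpp, ?_, ?_, ?_⟩
  · intro n
    unfold FF
    rw [← hP p hpp n]
  · intro n
    refine (FF_le h0 hL x M p hpp n).trans ?_
    have hx0 : (0 : ℝ) < Real.sqrt x := Real.sqrt_pos.2 (by exact_mod_cast hx)
    apply div_le_div_of_nonneg_left (by linarith) hx0
    exact Real.sqrt_le_sqrt (by exact_mod_cast h1.le)
  · have h2 : mean 2 p (FF x M p) = mean 2 p (fun n => sg x M p * ((fun n => Lg p n) n + (fun _ => - mu p) n)) := by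
      congr 1
    rw [h2, mean_mul (sg x M p) (fun n => (fun n => Lg p n) n + (fun _ => - mu p) n),
      mean_add (fun n => Lg p n) (fun _ => - mu p), mean_const 2 p hpp.one_lt.le]
    have h3 : mean 2 p (fun n => Lg p n) = mu p := rfl
    rw [h3]
    ring

lemma FF_sq (x M p : ℕ) (n : Fin 2 → ℕ) : FF x M p n ^ 2 = (Lg p n - mu p) ^ 2 := by
  unfold FF
  rw [mul_pow, sg_sq, one_mul]

lemma var_hi {CL : ℝ} (h0 : 0 ≤ CL) (hL : ∀ (p : ℕ) (m : Fin 2 → ℕ), p.Prime → |Lg p m| ≤ CL / Real.sqrt p)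
    (x M p : ℕ) (hp : p.Prime) : mean 2 p (fun n => FF x M p n ^ 2) ≤ 4 * CL ^ 2 * (1 / p) := by
  have hp0 : (0 : ℝ) < p := by exact_mod_cast hp.pos
  have h1 : ∀ n, FF x M p n ^ 2 ≤ 4 * CL ^ 2 * (1 / p) := by
    intro n
    have h2 := FF_le h0 hL x M p hp n
    have h3 : FF x M p n ^ 2 = |FF x M p n| ^ 2 := (sq_abs _).symm
    rw [h3]
    calc |FF x M p n| ^ 2 ≤ (2 * CL / Real.sqrt p) ^ 2 := pow_le_pow_left₀ (abs_nonneg _) h2 2
      _ = 4 * CL ^ 2 * (1 / p) := by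
          rw [div_pow, Real.sq_sqrt hp0.le]
          ring
  have h4 : mean 2 p (fun n => FF x M p n ^ 2) ≤ mean 2 p (fun _ => 4 * CL ^ 2 * (1 / (p : ℝ))) := mean_mono h1
  rwa [mean_const 2 p hp.one_lt.le] at h4

lemma var_lo {c : ℝ} {p₀ : ℕ} (hV : ∀ (p : ℕ), p.Prime → p₀ ≤ p → c / p ≤ mean 2 p (fun m => (Lg p m - mean 2 p (Lg p)) ^ 2))
    (x M p : ℕ) (hp : p.Prime) (h : p₀ ≤ p) : c * (1 / p) ≤ mean 2 p (fun n => FF x M p n ^ 2) := by
  have h1 := hV p hp h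
  have h2 : (fun n => FF x M p n ^ 2) = fun m => (Lg p m - mean 2 p (Lg p)) ^ 2 := by
    funext n
    exact FF_sq x M p n
  rw [h2]
  calc c * (1 / (p : ℝ)) = c / p := by ring
    _ ≤ _ := h1

/-- the exceptional choices have a small sum -/
lemma exc_small (hD : S_DIFF) (m : Fin 2 → ℕ) (x M : ℕ) (κ : ℝ) (hx : 3 ≤ x) (hM : 2 ≤ M)
    (h : ¬ ∀ ρ A : ℝ, ∃ t : ℕ, x ≤ t ∧ t ≤ x ^ (M ^ 2) ∧ κ < |Real.log (PP m t) - ρ * Real.log (Real.log t) - A|) :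
    |∑ p ∈ II x M, FF x M p m - (-∑ p ∈ II x M, sg x M p * mu p)| ≤ 4 * κ := by
  push Not at h
  obtain ⟨ρ, A, h⟩ := h
  have hM2 : M ≤ M ^ 2 := by nlinarith
  have h1 : x ≤ x ^ M := by
    calc x = x ^ 1 := (pow_one x).symm
      _ ≤ x ^ M := Nat.pow_le_pow_right (by omega) (by omega)
  have h2 : x ^ M ≤ x ^ (M ^ 2) := Nat.pow_le_pow_right (by omega) hM2
  have h3 := hD m x M κ ρ A hx hM (by
    rintro t (rfl | rfl | rfl)
    · exact h _ le_rfl (h1.trans h2)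
    · exact h _ h1 h2
    · exact h _ (h1.trans h2) le_rfl)
  have h4 : ∑ p ∈ II x M, FF x M p m - (-∑ p ∈ II x M, sg x M p * mu p) =
      ∑ p ∈ (Ioc x (x ^ (M ^ 2))).filter Nat.Prime, (if p ≤ x ^ M then -1 else 1) * Lg p m := by
    rw [sub_neg_eq_add, ← sum_add_distrib]
    refine sum_congr rfl fun p _ => ?_
    unfold FF sg
    ring
  rw [h4]
  exact h3

end Pool.Agent.NH22.BS.F1
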