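import Pool.Agent.NH22.BS.Stm2
import Pool.Agent.NH22.BS.F1

/-!
# Project BS: Brownian motion, the blocks
-/

set_option autoImplicit false

namespace Pool.Agent.NH22.BS.F4

open Pool.Agent.NH22.BS Pool.Agent.NH22.BS.F1 Finset Filter Topology
open Pool.Agent.TH894.NE (mean box Per cfd mean_mul mean_add mean_const mean_mono)

/-- the primes in a block -/
def blk (x : ℕ) (M : ℕ → ℕ) (i : ℕ) : Finset ℕ := (Ioc (x ^ M i) (x ^ M (i + 1))).filter Nat.Prime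

/-- the weight -/
noncomputable def ww (x k : ℕ) (M : ℕ → ℕ) (lam : ℕ → ℝ) (p : ℕ) : ℝ := ∑ i ∈ range k, if p ∈ blk x M i then lam i else 0

/-- all primes -/
def JJ (x k : ℕ) (M : ℕ → ℕ) : Finset ℕ := (range k).biUnion (blk x M)

/-- the local functions -/
noncomputable def GG (x k : ℕ) (M : ℕ → ℕ) (lam : ℕ → ℝ) (p : ℕ) (n : Fin 2 → ℕ) : ℝ := ww x k M lam p * (Lg p n - mu p)

lemma mem_blk {x : ℕ} {M : ℕ → ℕ} {i p : ℕ} : p ∈ blk x M i ↔ (x ^ M i < p ∧ p ≤ x ^ M (i + 1)) ∧ p.Prime := by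
  unfold blk
  rw [mem_filter, mem_Ioc]

lemma blk_lt {x : ℕ} (hx : 1 ≤ x) {M : ℕ → ℕ} (hM : StrictMono M) {i j p : ℕ} (hij : i < j) (hi : p ∈ blk x M i) : p ∉ blk x M j := by
  intro hj
  have h1 := (mem_blk.1 hi).1.2
  have h2 := (mem_blk.1 hj).1.1
  have h3 : x ^ M (i + 1) ≤ x ^ M j := Nat.pow_le_pow_right hx (hM.monotone (by omega))
  omega

lemma blk_ne {x : ℕ} (hx : 1 ≤ x) {M : ℕ → ℕ} (hM : StrictMono M) {i j p : ℕ} (hij : i ≠ j) (hi : p ∈ blk x M i) : p ∉ blk x M j := by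
  rcases lt_or_gt_of_ne hij with h | h
  · exact blk_lt hx hM h hi
  · exact fun hj => blk_lt hx hM h hj hi

lemma ww_eq {x k : ℕ} (hx : 1 ≤ x) {M : ℕ → ℕ} (hM : StrictMono M) (lam : ℕ → ℝ) {i p : ℕ} (hik : i < k) (hi : p ∈ blk x M i) :
    ww x k M lam p = lam i := by
  unfold ww
  rw [sum_eq_single i]
  · rw [if_pos hi]
  · intro j _ hj
    rw [if_neg (blk_ne hx hM (Ne.symm hj) hi)]
  · intro h
    exact absurd (mem_range.2 hik) h

lemma ww_le (x k : ℕ) (M : ℕ → ℕ) (lam : ℕ → ℝ) (p : ℕ) : |ww x k M lam p| ≤ ∑ i ∈ range k, |lam i| := by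
  unfold ww
  refine (abs_sum_le_sum_abs _ _).trans (sum_le_sum fun i _ => ?_)
  split_ifs
  · exact le_rfl
  · rw [abs_zero]
    exact abs_nonneg _

lemma sum_JJ {x : ℕ} (hx : 1 ≤ x) (k : ℕ) {M : ℕ → ℕ} (hM : StrictMono M) (h : ℕ → ℝ) :
    ∑ p ∈ JJ x k M, h p = ∑ i ∈ range k, ∑ p ∈ blk x M i, h p := by
  unfold JJ
  rw [sum_biUnion]
  intro i _ j _ hij
  rw [Function.onFun, disjoint_left]
  intro p hp
  exact blk_ne hx hM hij hp

lemma sum_w {x : ℕ} (hx : 1 ≤ x) (k : ℕ) {M : ℕ → ℕ} (hM : StrictMono M) (lam : ℕ → ℝ) (h : ℕ → ℝ) :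
    ∑ p ∈ JJ x k M, ww x k M lam p * h p = ∑ i ∈ range k, lam i * ∑ p ∈ blk x M i, h p := by
  rw [sum_JJ hx k hM]
  refine sum_congr rfl fun i hi => ?_
  rw [mul_sum]
  refine sum_congr rfl fun p hp => ?_
  rw [ww_eq hx hM lam (mem_range.1 hi) hp]

lemma sum_w2 {x : ℕ} (hx : 1 ≤ x) (k : ℕ) {M : ℕ → ℕ} (hM : StrictMono M) (lam : ℕ → ℝ) (h : ℕ → ℝ) :
    ∑ p ∈ JJ x k M, ww x k M lam p ^ 2 * h p = ∑ i ∈ range k, lam i ^ 2 * ∑ p ∈ blk x M i, h p := by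
  rw [sum_JJ hx k hM]
  refine sum_congr rfl fun i hi => ?_
  rw [mul_sum]
  refine sum_congr rfl fun p hp => ?_
  rw [ww_eq hx hM lam (mem_range.1 hi) hp]

lemma mem_JJ {x k : ℕ} (hx : 1 ≤ x) {M : ℕ → ℕ} (hM : StrictMono M) (hM0 : 1 ≤ M 0) {p : ℕ} (hp : p ∈ JJ x k M) :
    p.Prime ∧ x < p ∧ p ≤ x ^ M k := by
  unfold JJ at hp
  rw [mem_biUnion] at hp
  obtain ⟨i, hi, hp⟩ := hp
  rw [mem_range] at hi
  obtain ⟨⟨h1, h2⟩, h3⟩ := mem_blk.1 hp
  refine ⟨h3, ?_, ?_⟩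
  · have h4 : x ^ 1 ≤ x ^ M i := Nat.pow_le_pow_right hx (hM0.trans (hM.monotone (Nat.zero_le i)))
    rw [pow_one] at h4
    omega
  · exact h2.trans (Nat.pow_le_pow_right hx (hM.monotone (by omega)))

lemma blk_gt {x : ℕ} (hx : 1 ≤ x) {M : ℕ → ℕ} (hM : StrictMono M) (hM0 : 1 ≤ M 0) {i p : ℕ} (hp : p ∈ blk x M i) : x < p := by
  obtain ⟨⟨h1, h2⟩, h3⟩ := mem_blk.1 hp
  have h4 : x ^ 1 ≤ x ^ M i := Nat.pow_le_pow_right hx (hM0.trans (hM.monotone (Nat.zero_le i)))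
  rw [pow_one] at h4
  omega

lemma GG_le {CL : ℝ} (h0 : 0 ≤ CL) (hL : ∀ (p : ℕ) (m : Fin 2 → ℕ), p.Prime → |Lg p m| ≤ CL / Real.sqrt p)
    (x k : ℕ) (M : ℕ → ℕ) (lam : ℕ → ℝ) (p : ℕ) (hp : p.Prime) (n : Fin 2 → ℕ) :
    |GG x k M lam p n| ≤ (∑ i ∈ range k, |lam i|) * (2 * CL / Real.sqrt p) := by
  have h1 := FF_le h0 hL 0 0 p hp n
  have h2 : |Lg p n - mu p| ≤ 2 * CL / Real.sqrt p := by
    have h3 : |FF 0 0 p n| = |Lg p n - mu p| := by
      unfold FF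
      rw [abs_mul, sg_abs, one_mul]
    rw [← h3]
    exact h1
  unfold GG
  rw [abs_mul]
  exact mul_le_mul (ww_le x k M lam p) h2 (abs_nonneg _) (sum_nonneg fun _ _ => abs_nonneg _)

lemma locG (hP : S_PER) {CL : ℝ} (h0 : 0 ≤ CL) (hL : ∀ (p : ℕ) (m : Fin 2 → ℕ), p.Prime → |Lg p m| ≤ CL / Real.sqrt p)
    {x k : ℕ} {M : ℕ → ℕ} (lam : ℕ → ℝ) (hx : 1 ≤ x) (hM : StrictMono M) (hM0 : 1 ≤ M 0) :
    Loc 2 (JJ x k M) (GG x k M lam) ((∑ i ∈ range k, |lam i|) * (2 * CL / Real.sqrt x)) := by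
  intro p hp
  obtain ⟨hpp, h1, _⟩ := mem_JJ hx hM hM0 hp
  refine ⟨hpp, ?_, ?_, ?_⟩
  · intro n
    unfold GG
    rw [← hP p hpp n]
  · intro n
    refine (GG_le h0 hL x k M lam p hpp n).trans ?_
    have hx0 : (0 : ℝ) < Real.sqrt x := Real.sqrt_pos.2 (by exact_mod_cast hx)
    apply mul_le_mul_of_nonneg_left _ (sum_nonneg fun _ _ => abs_nonneg _)
    apply div_le_div_of_nonneg_left (by linarith) hx0
    exact Real.sqrt_le_sqrt (by exact_mod_cast h1.le)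
  · have h2 : mean 2 p (GG x k M lam p) = mean 2 p (fun n => ww x k M lam p * ((fun n => Lg p n) n + (fun _ => - mu p) n)) := by
      congr 1
    rw [h2, mean_mul (ww x k M lam p) (fun n => (fun n => Lg p n) n + (fun _ => - mu p) n),
      mean_add (fun n => Lg p n) (fun _ => - mu p), mean_const 2 p hpp.one_lt.le]
    have h3 : mean 2 p (fun n => Lg p n) = mu p := rfl
    rw [h3]
    ring

/-- the variance of the logarithm of the local factor -/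
noncomputable def vr (p : ℕ) : ℝ := mean 2 p (fun m => (Lg p m - mean 2 p (Lg p)) ^ 2)

lemma varG (x k : ℕ) (M : ℕ → ℕ) (lam : ℕ → ℝ) (p : ℕ) : mean 2 p (fun n => GG x k M lam p n ^ 2) = ww x k M lam p ^ 2 * vr p := by
  have h1 : (fun n => GG x k M lam p n ^ 2) = fun n => ww x k M lam p ^ 2 * (fun m => (Lg p m - mean 2 p (Lg p)) ^ 2) n := by
    funext n
    unfold GG mu
    ring
  rw [h1, mean_mul]
  rfl

/-- sums over blocks -/
lemma tend_one (h2 : S_MERT2) {M : ℕ → ℕ} (hM : StrictMono M) (hM0 : 1 ≤ M 0) (i : ℕ) :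
    Tendsto (fun x : ℕ => ∑ p ∈ blk x M i, (1 : ℝ) / p) atTop (𝓝 (Real.log (M (i + 1)) - Real.log (M i))) := by
  have hi : 1 ≤ M i := hM0.trans (hM.monotone (Nat.zero_le i))
  have hi1 : M i ≤ M (i + 1) := hM.monotone (Nat.le_succ i)
  have h3 := (h2 (M (i + 1)) (hi.trans hi1)).sub (h2 (M i) hi)
  refine h3.congr' ?_
  filter_upwards [eventually_ge_atTop 1] with x hx
  have h4 : x ≤ x ^ M i := by
    calc x = x ^ 1 := (pow_one x).symm
      _ ≤ x ^ M i := Nat.pow_le_pow_right hx hi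
  have h5 : x ^ M i ≤ x ^ M (i + 1) := Nat.pow_le_pow_right hx hi1
  unfold blk
  rw [sum_filter, sum_filter, sum_filter, ← sum_Ioc_consecutive _ h4 h5]
  ring

lemma tend_h (h2 : S_MERT2) {M : ℕ → ℕ} (hM : StrictMono M) (hM0 : 1 ≤ M 0) (i : ℕ) (h : ℕ → ℝ) (c0 C : ℝ) (hC : 0 ≤ C)
    (hh : ∀ p : ℕ, p.Prime → 5 ≤ p → |h p - c0 * (1 / p)| ≤ C / (p * Real.sqrt p)) :
    Tendsto (fun x : ℕ => ∑ p ∈ blk x M i, h p) atTop (𝓝 (c0 * (Real.log (M (i + 1)) - Real.log (M i)))) := by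
  have h1 := tend_one h2 hM hM0 i
  have h3 : Tendsto (fun x : ℕ => C / Real.sqrt x * ∑ p ∈ blk x M i, (1 : ℝ) / p) atTop (𝓝 0) := by
    have h4 : Tendsto (fun x : ℕ => C / Real.sqrt x) atTop (𝓝 0) := by
      apply Tendsto.div_atTop tendsto_const_nhds
      exact Real.tendsto_sqrt_atTop.comp tendsto_natCast_atTop_atTop
    have h5 := h4.mul h1
    rwa [zero_mul] at h5
  have h6 : Tendsto (fun x : ℕ => ∑ p ∈ blk x M i, h p - c0 * ∑ p ∈ blk x M i, (1 : ℝ) / p) atTop (𝓝 0) := by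
    refine squeeze_zero_norm' ?_ h3
    filter_upwards [eventually_ge_atTop 5] with x hx
    have hx0 : (0 : ℝ) < x := by exact_mod_cast (by omega : 0 < x)
    have hsx : 0 < Real.sqrt x := Real.sqrt_pos.2 hx0
    rw [mul_sum, ← sum_sub_distrib, Real.norm_eq_abs]
    refine (abs_sum_le_sum_abs _ _).trans ?_
    rw [mul_sum]
    refine sum_le_sum fun p hp => ?_
    have hpx := blk_gt (by omega) hM hM0 hp
    have hpp := (mem_blk.1 hp).2
    have hp0 : (0 : ℝ) < p := by exact_mod_cast hpp.pos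
    have hsp : 0 < Real.sqrt p := Real.sqrt_pos.2 hp0
    refine (hh p hpp (by omega)).trans ?_
    rw [mul_one_div, div_div]
    apply div_le_div_of_nonneg_left hC (by positivity)
    rw [mul_comm (p : ℝ)]
    apply mul_le_mul_of_nonneg_right _ hp0.le
    exact Real.sqrt_le_sqrt (by exact_mod_cast hpx.le)
  have h7 := h6.add (h1.const_mul c0)
  rw [zero_add] at h7
  refine h7.congr fun x => ?_
  ring

/-- the logarithm of the product -/
lemma log_PP (m : Fin 2 → ℕ) (t : ℕ) :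
    Real.log (PP m t) = ∑ p ∈ range (t + 1), (if p.Prime then Lg p m else 0) := by
  classical
  unfold PP
  rw [Real.log_prod, Finset.sum_filter]
  · refine Finset.sum_congr rfl fun p _ => ?_
    by_cases hg : Good p m
    · rw [if_pos hg, if_pos hg.1, Lg, if_pos hg]
    · rw [if_neg hg]
      by_cases hp : p.Prime
      · rw [if_pos hp, Lg, if_neg hg]
      · rw [if_neg hp]
  · intro p hp
    have h := (Finset.mem_filter.mp hp).2.1.pos
    have h1 : (0 : ℝ) < p := by exact_mod_cast h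
    have h2 : (0 : ℝ) ≤ pts p m := Nat.cast_nonneg _
    positivity

lemma log_blk (m : Fin 2 → ℕ) {x : ℕ} (hx : 1 ≤ x) {M : ℕ → ℕ} (hM : StrictMono M) (i : ℕ) :
    Real.log (PP m (x ^ M (i + 1))) - Real.log (PP m (x ^ M i)) = ∑ p ∈ blk x M i, Lg p m := by
  rw [log_PP, log_PP]
  have h1 : x ^ M i ≤ x ^ M (i + 1) := Nat.pow_le_pow_right hx (hM.monotone (Nat.le_succ i))
  rw [← Finset.sum_Ico_eq_sub _ (by omega : x ^ M i + 1 ≤ x ^ M (i + 1) + 1)]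
  unfold blk
  rw [sum_filter]
  refine Finset.sum_congr ?_ fun _ _ => rfl
  ext p
  simp only [mem_Ioc, mem_Ico]
  omega

end Pool.Agent.NH22.BS.F4
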