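import Pool.Agent.NH22.BS.Stm
import Pool.Agent.Y57.FD.HypM

/-!
# Project BS, BS-1: the bound of Hasse and the first two moments of the number of points
-/

set_option autoImplicit false

namespace Pool.Agent.NH22.BS.L1

open Pool.Agent.NH22.BS Finset
open Pool.Agent.TH894.NE (mean box Per cfd)

lemma card_affine {F : Type} [Field F] [Fintype F] [DecidableEq F] (hF : ringChar F ≠ 2)
    (f : F → F) : (Nat.card {P : F × F // P.2 ^ 2 = f P.1} : ℝ) =
      (Fintype.card F : ℝ) + ∑ x : F, (quadraticChar F (f x) : ℝ) := by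
  classical
  have h1 : Nat.card {P : F × F // P.2 ^ 2 = f P.1} = ∑ x : F, Nat.card {y : F // y ^ 2 = f x} := by
    rw [← Nat.card_sigma]
    refine Nat.card_congr ⟨fun P => ⟨P.1.1, ⟨P.1.2, P.2⟩⟩, fun P => ⟨(P.1, P.2.1), P.2.2⟩,
      fun _ => rfl, fun _ => rfl⟩
  have h2 : ∀ x : F, ((Nat.card {y : F // y ^ 2 = f x} : ℕ) : ℤ) = quadraticChar F (f x) + 1 := by
    intro x
    rw [← quadraticChar_card_sqrts hF (f x)]
    congr 1
    rw [Nat.card_eq_fintype_card, Fintype.card_subtype]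
    congr 1
    ext y
    simp
  rw [h1]
  push_cast
  have h3 : ∀ x : F, ((Nat.card {y : F // y ^ 2 = f x} : ℕ) : ℝ) =
      (quadraticChar F (f x) : ℝ) + 1 := by
    intro x
    have := h2 x
    exact_mod_cast this
  rw [sum_congr rfl (fun x _ => h3 x), sum_add_distrib, sum_const, card_univ, nsmul_eq_mul, mul_one]
  ring

section

variable (p : ℕ) [hp : Fact p.Prime]

lemma rc (h2 : p ≠ 2) : ringChar (ZMod p) ≠ 2 := by
  rw [ZMod.ringChar_zmod_n]
  exact h2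

/-- the character sum -/
noncomputable def T (a b : ZMod p) : ℤ := ∑ x : ZMod p, quadraticChar (ZMod p) (x ^ 3 + b * x + a)

lemma pts_eq (h2 : p ≠ 2) (m : Fin 2 → ℕ) :
    (pts p m : ℝ) - p = ((T p (m 0 : ZMod p) (m 1 : ZMod p) : ℤ) : ℝ) := by
  unfold pts T
  rw [card_affine (rc p h2) (fun x => x ^ 3 + (m 1 : ZMod p) * x + (m 0 : ZMod p)), ZMod.card]
  push_cast
  ring

lemma sum_zero (h2 : p ≠ 2) : ∑ c : ZMod p, quadraticChar (ZMod p) c = 0 :=
  quadraticChar_sum_zero (rc p h2)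

lemma sum_shift (h2 : p ≠ 2) (c : ZMod p) : ∑ a : ZMod p, quadraticChar (ZMod p) (c + a) = 0 := by
  rw [← sum_zero p h2]
  exact Equiv.sum_comp (Equiv.addLeft c) (fun a => quadraticChar (ZMod p) a)

lemma sum_lin (h2 : p ≠ 2) (c d : ZMod p) (hd : d ≠ 0) :
    ∑ a : ZMod p, quadraticChar (ZMod p) (c + a * d) = 0 := by
  rw [← sum_shift p h2 c]
  exact Equiv.sum_comp (Equiv.mulRight₀ d hd) (fun a => quadraticChar (ZMod p) (c + a))

lemma sum_sq : ∑ c : ZMod p, quadraticChar (ZMod p) c * quadraticChar (ZMod p) c = (p : ℤ) - 1 := by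
  have h1 : ∀ c : ZMod p, quadraticChar (ZMod p) c * quadraticChar (ZMod p) c =
      1 - if c = 0 then 1 else 0 := by
    intro c
    by_cases hc : c = 0
    · subst hc
      simp
    · rw [if_neg hc, ← pow_two, quadraticChar_sq_one hc]
      ring
  rw [sum_congr rfl fun c _ => h1 c, sum_sub_distrib]
  simp [ZMod.card]

lemma sum_T (h2 : p ≠ 2) : ∑ b : ZMod p, ∑ a : ZMod p, T p a b = 0 := by
  unfold T
  apply sum_eq_zero
  intro b _
  rw [sum_comm]
  apply sum_eq_zero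
  intro x _
  exact sum_shift p h2 (x ^ 3 + b * x)

lemma pair_eq (x : ZMod p) : ∑ b : ZMod p, ∑ a : ZMod p, quadraticChar (ZMod p) (x ^ 3 + b * x + a) *
    quadraticChar (ZMod p) (x ^ 3 + b * x + a) = (p : ℤ) * (p - 1) := by
  have h1 : ∀ b : ZMod p, ∑ a : ZMod p, quadraticChar (ZMod p) (x ^ 3 + b * x + a) *
      quadraticChar (ZMod p) (x ^ 3 + b * x + a) = (p : ℤ) - 1 := by
    intro b
    rw [← sum_sq p]
    exact Equiv.sum_comp (Equiv.addLeft (x ^ 3 + b * x))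
      (fun a => quadraticChar (ZMod p) a * quadraticChar (ZMod p) a)
  rw [sum_congr rfl fun b _ => h1 b, sum_const, card_univ, ZMod.card, nsmul_eq_mul]

lemma pair_ne (h2 : p ≠ 2) (x x' : ZMod p) (h : x ≠ x') :
    ∑ b : ZMod p, ∑ a : ZMod p, quadraticChar (ZMod p) (x ^ 3 + b * x + a) *
      quadraticChar (ZMod p) (x' ^ 3 + b * x' + a) = 0 := by
  have h1 : ∀ b : ZMod p, ∑ a : ZMod p, quadraticChar (ZMod p) (x ^ 3 + b * x + a) *
      quadraticChar (ZMod p) (x' ^ 3 + b * x' + a) =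
      ∑ c : ZMod p, quadraticChar (ZMod p) c *
        quadraticChar (ZMod p) ((c + (x' ^ 3 - x ^ 3)) + b * (x' - x)) := by
    intro b
    rw [← Equiv.sum_comp (Equiv.addLeft (x ^ 3 + b * x)) (fun c => quadraticChar (ZMod p) c *
        quadraticChar (ZMod p) ((c + (x' ^ 3 - x ^ 3)) + b * (x' - x)))]
    refine sum_congr rfl fun a _ => ?_
    simp only [Equiv.coe_addLeft]
    congr 2
    ring
  rw [sum_congr rfl fun b _ => h1 b, sum_comm]
  apply sum_eq_zero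
  intro c _
  rw [← mul_sum, sum_lin p h2 _ _ (sub_ne_zero.2 (Ne.symm h)), mul_zero]

lemma sum_T2 (h2 : p ≠ 2) : ∑ b : ZMod p, ∑ a : ZMod p, T p a b ^ 2 = (p : ℤ) ^ 2 * (p - 1) := by
  have h1 : ∀ b a : ZMod p, T p a b ^ 2 = ∑ x : ZMod p, ∑ x' : ZMod p,
      quadraticChar (ZMod p) (x ^ 3 + b * x + a) *
        quadraticChar (ZMod p) (x' ^ 3 + b * x' + a) := by
    intro b a
    unfold T
    rw [pow_two, sum_mul_sum]
  have h3 : ∑ b : ZMod p, ∑ a : ZMod p, T p a b ^ 2 = ∑ x : ZMod p, ∑ x' : ZMod p,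
      ∑ b : ZMod p, ∑ a : ZMod p, quadraticChar (ZMod p) (x ^ 3 + b * x + a) *
        quadraticChar (ZMod p) (x' ^ 3 + b * x' + a) := by
    calc ∑ b : ZMod p, ∑ a : ZMod p, T p a b ^ 2
        = ∑ b : ZMod p, ∑ a : ZMod p, ∑ x : ZMod p, ∑ x' : ZMod p,
          quadraticChar (ZMod p) (x ^ 3 + b * x + a) *
          quadraticChar (ZMod p) (x' ^ 3 + b * x' + a) :=
          sum_congr rfl fun b _ => sum_congr rfl fun a _ => h1 b a
      _ = ∑ b : ZMod p, ∑ x : ZMod p, ∑ a : ZMod p, ∑ x' : ZMod p,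
          quadraticChar (ZMod p) (x ^ 3 + b * x + a) *
          quadraticChar (ZMod p) (x' ^ 3 + b * x' + a) :=
          sum_congr rfl fun b _ => sum_comm
      _ = ∑ x : ZMod p, ∑ b : ZMod p, ∑ a : ZMod p, ∑ x' : ZMod p,
          quadraticChar (ZMod p) (x ^ 3 + b * x + a) *
          quadraticChar (ZMod p) (x' ^ 3 + b * x' + a) := sum_comm
      _ = ∑ x : ZMod p, ∑ b : ZMod p, ∑ x' : ZMod p, ∑ a : ZMod p,
          quadraticChar (ZMod p) (x ^ 3 + b * x + a) *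
          quadraticChar (ZMod p) (x' ^ 3 + b * x' + a) :=
          sum_congr rfl fun x _ => sum_congr rfl fun b _ => sum_comm
      _ = _ := sum_congr rfl fun x _ => sum_comm
  rw [h3]
  have h4 : ∀ x : ZMod p, ∑ x' : ZMod p,
      ∑ b : ZMod p, ∑ a : ZMod p, quadraticChar (ZMod p) (x ^ 3 + b * x + a) *
        quadraticChar (ZMod p) (x' ^ 3 + b * x' + a) = (p : ℤ) * (p - 1) := by
    intro x
    rw [sum_eq_single x]
    · exact pair_eq p x
    · intro x' _ hx'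
      exact pair_ne p h2 x x' (Ne.symm hx')
    · intro h
      exact absurd (mem_univ x) h
  rw [sum_congr rfl fun x _ => h4 x, sum_const, card_univ, ZMod.card, nsmul_eq_mul]
  ring

lemma sum_pi (F : ZMod p → ZMod p → ℝ) :
    ∑ u : Fin 2 → ZMod p, F (u 0) (u 1) = ∑ b : ZMod p, ∑ a : ZMod p, F a b := by
  rw [sum_comm, ← Fintype.sum_prod_type']
  exact Fintype.sum_equiv (finTwoArrowEquiv (ZMod p)) _ _ fun u => rfl

end

theorem t_HASSE : S_HASSE := by
  intro p m hg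
  haveI : Fact p.Prime := ⟨hg.1⟩
  have h2 : p ≠ 2 := by
    rintro rfl
    exact hg.2 (Dvd.intro _ rfl)
  have hw := Pool.Agent.Y57.FD.HM.weil p h2 (g := 1) ![(m 0 : ZMod p), (m 1 : ZMod p), 0]
  have hval : ∀ x : ZMod p, Pool.Agent.Y57.FD.Mom.val (ZMod p) (2 * 1 + 1)
      ![(m 0 : ZMod p), (m 1 : ZMod p), 0] x = x ^ 3 + (m 1 : ZMod p) * x + (m 0 : ZMod p) := by
    intro x
    unfold Pool.Agent.Y57.FD.Mom.val
    rw [Fin.sum_univ_three]
    simp
    ring
  simp only [hval] at hw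
  rw [pts_eq p h2 m]
  have hpos : (0 : ℝ) < Real.sqrt (Fintype.card (ZMod p)) := by
    apply Real.sqrt_pos.2
    rw [ZMod.card]
    exact_mod_cast hg.1.pos
  rw [abs_div, abs_of_pos hpos, div_le_iff₀ hpos] at hw
  rw [ZMod.card] at hw
  unfold T
  push_cast
  calc _ ≤ _ := hw
    _ = _ := by push_cast; ring

theorem t_M1 : S_M1 := by
  intro p hp h2
  haveI : Fact p.Prime := ⟨hp⟩
  unfold Pool.Agent.TH894.NE.mean
  have h1 : ∑ n ∈ box 2 p, ((pts p n : ℝ) - p) = 0 := by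
    rw [sum_congr rfl fun n _ => pts_eq p h2 n]
    rw [Pool.Agent.Y57.FD.HM.sum_box p (D := 2) (fun u => ((T p (u 0) (u 1) : ℤ) : ℝ)),
      sum_pi p (fun a b => ((T p a b : ℤ) : ℝ))]
    have := sum_T p h2
    exact_mod_cast this
  rw [h1, mul_zero]

theorem t_M2 : S_M2 := by
  intro p hp h2
  haveI : Fact p.Prime := ⟨hp⟩
  unfold Pool.Agent.TH894.NE.mean
  have h1 : ∑ n ∈ box 2 p, ((pts p n : ℝ) - p) ^ 2 = (p : ℝ) ^ 2 * (p - 1) := by
    rw [sum_congr rfl fun n _ => congrArg (· ^ 2) (pts_eq p h2 n)]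
    rw [Pool.Agent.Y57.FD.HM.sum_box p (D := 2) (fun u => ((T p (u 0) (u 1) : ℤ) : ℝ) ^ 2),
      sum_pi p (fun a b => ((T p a b : ℤ) : ℝ) ^ 2)]
    have := sum_T2 p h2
    exact_mod_cast this
  rw [h1]
  have hp0 : (p : ℝ) ≠ 0 := by exact_mod_cast hp.ne_zero
  field_simp

end Pool.Agent.NH22.BS.L1
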