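import Pool.Agent.TH894.NE5
import Pool.Agent.Y57.FD.Base

/-!
# Project BS: the original product of Birch and Swinnerton-Dyer in windows `[x, x ^ (M ^ 2)]`, statements

`m : Fin 2 → ℕ` stands for the curve `y ^ 2 = x ^ 3 + m 1 * x + m 0`.
-/

set_option autoImplicit false

namespace Pool.Agent.NH22.BS

open Finset
open Pool.Agent.TH894.NE (mean box Per cfd)
open Pool.Agent.TH894.ND (ee)
open Pool.Agent.Y57.FD (digit change exceptions)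

/-- the number of the solutions of `y ^ 2 = x ^ 3 + m 1 * x + m 0` modulo `p` -/
noncomputable def pts (p : ℕ) (m : Fin 2 → ℕ) : ℕ :=
  Nat.card {P : ZMod p × ZMod p // P.2 ^ 2 = P.1 ^ 3 + (m 1 : ZMod p) * P.1 + (m 0 : ZMod p)}

/-- `p` is a prime which does not divide `2 (4 a ^ 3 + 27 b ^ 2)` -/
def Good (p : ℕ) (m : Fin 2 → ℕ) : Prop := p.Prime ∧ ¬ p ∣ 2 * (4 * m 1 ^ 3 + 27 * m 0 ^ 2)

open Classical in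
/-- the logarithm of the factor at `p` -/
noncomputable def Lg (p : ℕ) (m : Fin 2 → ℕ) : ℝ :=
  if Good p m then Real.log (((pts p m : ℝ) + 1) / p) else 0

open Classical in
/-- the product of Birch and Swinnerton-Dyer -/
noncomputable def PP (m : Fin 2 → ℕ) (t : ℕ) : ℝ :=
  ∏ p ∈ (range (t + 1)).filter (fun p => Good p m), ((pts p m : ℝ) + 1) / p

/-! ## local statements -/

def S_HASSE : Prop := ∀ (p : ℕ) (m : Fin 2 → ℕ), Good p m → |(pts p m : ℝ) - p| ≤ 2 * Real.sqrt p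

def S_BAD : Prop := ∀ (p : ℕ) (m : Fin 2 → ℕ), p.Prime → 5 ≤ p → p ∣ 2 * (4 * m 1 ^ 3 + 27 * m 0 ^ 2) →
  |(pts p m : ℝ) - p| ≤ 1

def S_BADN : Prop := ∀ (p : ℕ), p.Prime → 5 ≤ p →
  ((((box 2 p).filter (fun m : Fin 2 → ℕ => p ∣ 2 * (4 * m 1 ^ 3 + 27 * m 0 ^ 2))).card : ℕ) : ℝ) ≤ 3 * p

def S_M1 : Prop := ∀ (p : ℕ), p.Prime → p ≠ 2 → mean 2 p (fun m => (pts p m : ℝ) - p) = 0

def S_M2 : Prop := ∀ (p : ℕ), p.Prime → p ≠ 2 → mean 2 p (fun m => ((pts p m : ℝ) - p) ^ 2) = p - 1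

def S_PER : Prop := ∀ (p : ℕ), p.Prime → Per p (Lg p)

def S_LG : Prop := ∃ C : ℝ, 0 ≤ C ∧ ∀ (p : ℕ) (m : Fin 2 → ℕ), p.Prime → |Lg p m| ≤ C / Real.sqrt p ∧
  (Good p m → |Lg p m - ((pts p m : ℝ) - p) / p| ≤ C / p)

def S_VAR : Prop := ∃ c : ℝ, 0 < c ∧ ∃ p₀ : ℕ, ∀ (p : ℕ), p.Prime → p₀ ≤ p →
  c / p ≤ mean 2 p (fun m => (Lg p m - mean 2 p (Lg p)) ^ 2)

/-! ## averages over changes of digits -/

/-- averages over a product of finite sets and the mean -/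
def S_AVG : Prop := ∀ (d : ℕ) (ι : Type) (s : Fin d → Finset ι) (m : Fin d → ι → ℕ) (Q : ℕ), 1 ≤ Q →
  ∀ (H : (Fin d → ℕ) → ℝ), Per Q H → ∀ (Fs : Finset ℕ) (Bs : Fin d → Finset ℕ),
  (∀ k ∈ box d Q, (∃ i, k i ∉ Fs) → cfd Q H k = 0) → ∀ ε : ℝ, 0 ≤ ε → ε ≤ 1 →
  (∀ i, ∀ k ∈ Fs, k ∉ Bs i → ‖∑ t ∈ s i, ee ((k : ℝ) * m i t / Q)‖ ≤ ε * (s i).card) →
  ∀ B : ℝ, (∀ i, ((Bs i).card : ℝ) ≤ B) → ∀ R W : ℝ, 0 ≤ R →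
  (∀ k ∈ box d Q, (∃ i, k i ≠ 0) → ‖cfd Q H k‖ ≤ R) → mean d Q (fun n => |H n|) ≤ W →
  |∑ S ∈ Fintype.piFinset s, H (fun i => m i (S i)) - mean d Q H * ∏ i, ((s i).card : ℝ)| ≤
    (R * B ^ d + W * ((Fs.card : ℝ) ^ d * ε)) * ∏ i, ((s i).card : ℝ)

/-- the assumptions on local functions -/
def Loc (d : ℕ) (I : Finset ℕ) (F : ℕ → (Fin d → ℕ) → ℝ) (η : ℝ) : Prop :=
  ∀ p ∈ I, p.Prime ∧ Per p (F p) ∧ (∀ n, |F p n| ≤ η) ∧ mean d p (F p) = 0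

/-- the Fourier coefficients of a power of the sum -/
def S_COEF : Prop := ∀ (d : ℕ) (I : Finset ℕ) (F : ℕ → (Fin d → ℕ) → ℝ) (η V : ℝ) (J : ℕ), 0 ≤ η → η ≤ 1 →
  Loc d I F η → ∑ p ∈ I, mean d p (fun n => F p n ^ 2) ≤ V →
  (∀ k ∈ box d (∏ p ∈ I, p), (∃ i, k i ≠ 0) →
    ‖cfd (∏ p ∈ I, p) (fun n => (∑ p ∈ I, F p n) ^ J) k‖ ≤ η * (100 * ((J + 1).factorial : ℝ) * Real.exp V)) ∧
  mean d (∏ p ∈ I, p) (fun n => |(∑ p ∈ I, F p n) ^ J|) ≤ 100 * ((J + 1).factorial : ℝ) * Real.exp V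

/-- the moments of the sum over the changes of digits -/
def S_ENG : Prop := ∀ (b d J : ℕ), 2 ≤ b → 1 ≤ d → ∀ γ : ℝ, 0 < γ → ∃ c : ℝ, 0 < c ∧ ∃ x₀ : ℕ,
  ∀ (r K : Fin d → ℕ) (x : ℕ), (∀ i, 2 * r i ≤ K i) → x₀ ≤ x → (∀ i, Real.log x ≤ c * r i) →
  ∀ N : Fin d → ℕ, (∀ i, N i < b ^ K i) → ∀ f : Fin d → ℕ → ℕ, (∀ i j, f i j < b ∧ f i j ≠ digit b j (N i)) →
  ∀ (I : Finset ℕ) (F : ℕ → (Fin d → ℕ) → ℝ) (η V : ℝ), (∀ p ∈ I, b * b < p ∧ p ≤ x) → 0 ≤ η →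
  η ≤ (x : ℝ) ^ (-γ) → Loc d I F η → ∑ p ∈ I, mean d p (fun n => F p n ^ 2) ≤ V →
  |∑ S ∈ Fintype.piFinset (fun i => powersetCard (r i) (range (K i))),
      (∑ p ∈ I, F p (fun i => change b (K i) (N i) (f i) (S i))) ^ J -
    mean d (∏ p ∈ I, p) (fun n => (∑ p ∈ I, F p n) ^ J) * ∏ i, ((K i).choose (r i) : ℝ)| ≤
  Real.exp V * (x : ℝ) ^ (-(γ / 2)) * ∏ i, ((K i).choose (r i) : ℝ)

/-! ## the model -/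

/-- the mean of a complex function -/
noncomputable def cmean (d q : ℕ) (G : (Fin d → ℕ) → ℂ) : ℂ := (1 / (q : ℂ) ^ d) * ∑ n ∈ box d q, G n

def S_CPROD : Prop := ∀ (d : ℕ) (I : Finset ℕ), (∀ p ∈ I, p.Prime) → ∀ G : ℕ → (Fin d → ℕ) → ℂ,
  (∀ p ∈ I, ∀ n, G p n = G p (fun i => n i % p)) →
  cmean d (∏ p ∈ I, p) (fun n => ∏ p ∈ I, G p n) = ∏ p ∈ I, cmean d p (G p)

def S_MODEL : Prop := ∀ (d : ℕ) (I : Finset ℕ) (F : ℕ → (Fin d → ℕ) → ℝ) (η u : ℝ), 0 ≤ η → Loc d I F η →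
  |u| * η ≤ 1 / 2 →
  ‖cmean d (∏ p ∈ I, p) (fun n => Complex.exp (Complex.I * ((u * ∑ p ∈ I, F p n : ℝ) : ℂ)))‖ ≤
    Real.exp (-(u ^ 2 * ∑ p ∈ I, mean d p (fun n => F p n ^ 2)) / 4)

def S_EXPM : Prop := ∀ (d : ℕ) (I : Finset ℕ) (F : ℕ → (Fin d → ℕ) → ℝ) (V : ℝ) (J : ℕ), Even J → Loc d I F 1 →
  ∑ p ∈ I, mean d p (fun n => F p n ^ 2) ≤ V →
  mean d (∏ p ∈ I, p) (fun n => (∑ p ∈ I, F p n) ^ J) ≤ 2 * (J.factorial : ℝ) * Real.exp V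

/-! ## characteristic functions and concentration for finite averages -/

def S_TAY : Prop := ∀ (z : ℝ) (J : ℕ),
  ‖Complex.exp (Complex.I * z) - ∑ j ∈ range J, (Complex.I * z) ^ j / (j.factorial : ℂ)‖ ≤ |z| ^ J / J.factorial

/-- the average of `exp (i u X)` -/
noncomputable def phi {α : Type} (A : Finset α) (X : α → ℝ) (u : ℝ) : ℂ :=
  (∑ a ∈ A, Complex.exp (Complex.I * ((u * X a : ℝ) : ℂ))) / (A.card : ℂ)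

def S_PHI : Prop := ∀ (α β : Type) (A : Finset α) (B : Finset β) (X : α → ℝ) (Y : β → ℝ) (J : ℕ) (τ T u : ℝ),
  A.Nonempty → B.Nonempty → Even J →
  (∀ j ≤ J, |(∑ a ∈ A, X a ^ j) / (A.card : ℝ) - (∑ b ∈ B, Y b ^ j) / (B.card : ℝ)| ≤ τ) →
  (∑ b ∈ B, Y b ^ J) / (B.card : ℝ) ≤ T → |u| ≤ 1 →
  ‖phi A X u‖ ≤ ‖phi B Y u‖ + 2 * |u| ^ J * T / J.factorial + 4 * τ

def S_FEJ : Prop := ∀ (α : Type) (A : Finset α) (X : α → ℝ) (s l : ℝ) (n : ℕ), A.Nonempty → 1 ≤ n → 0 < l →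
  (((A.filter (fun a => |X a - s| * l ≤ 1 / n)).card : ℕ) : ℝ) ≤
    4 / n * (1 + 2 * ∑ h ∈ Ico 1 n, ‖phi A X (h * l)‖) * A.card

/-! ## windows -/

def S_MERT : Prop := ∃ C : ℝ, 0 ≤ C ∧ ∀ x M : ℕ, 2 ≤ x → 1 ≤ M →
  |∑ p ∈ (Ioc x (x ^ M)).filter Nat.Prime, (1 : ℝ) / p - Real.log M| ≤ C

def S_DIFF : Prop := ∀ (m : Fin 2 → ℕ) (x M : ℕ) (κ ρ A : ℝ), 3 ≤ x → 2 ≤ M →
  (∀ t : ℕ, t = x ∨ t = x ^ M ∨ t = x ^ (M ^ 2) → |Real.log (PP m t) - ρ * Real.log (Real.log t) - A| ≤ κ) →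
  |∑ p ∈ (Ioc x (x ^ (M ^ 2))).filter Nat.Prime, (if p ≤ x ^ M then -1 else 1) * Lg p m| ≤ 4 * κ

end Pool.Agent.NH22.BS
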