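import Pool.Agent.NH22.BS.Stm
import Pool.Agent.NH22.ST.Stm2

/-!
# Project BS, second part: the product of Birch and Swinnerton-Dyer is a geometric Brownian motion, statements
-/

set_option autoImplicit false

namespace Pool.Agent.NH22.BS

open Finset Filter Topology MeasureTheory ProbabilityTheory
open Pool.Agent.TH894.NE (mean box Per cfd)
open Pool.Agent.NH22.ST (MM)

/-- second order expansion of the logarithm of the local factor -/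
def S_LG2 : Prop := ∃ C : ℝ, 0 ≤ C ∧ ∀ (p : ℕ) (m : Fin 2 → ℕ), Good p m →
  |Lg p m - ((((pts p m : ℝ) - p) + 1) / p - ((pts p m : ℝ) - p) ^ 2 / (2 * (p : ℝ) ^ 2))| ≤ C / (p * Real.sqrt p)

/-- the mean of the logarithm of the local factor -/
def S_MU : Prop := ∃ C : ℝ, 0 ≤ C ∧ ∀ (p : ℕ), p.Prime → 5 ≤ p →
  |mean 2 p (Lg p) - 1 / (2 * p)| ≤ C / (p * Real.sqrt p)

/-- its variance -/
def S_VX : Prop := ∃ C : ℝ, 0 ≤ C ∧ ∀ (p : ℕ), p.Prime → 5 ≤ p →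
  |mean 2 p (fun m => (Lg p m - mean 2 p (Lg p)) ^ 2) - 1 / p| ≤ C / (p * Real.sqrt p)

/-- the theorem of Mertens -/
def S_MERT2 : Prop := ∀ M : ℕ, 1 ≤ M →
  Tendsto (fun x : ℕ => ∑ p ∈ (Ioc x (x ^ M)).filter Nat.Prime, (1 : ℝ) / p) atTop (𝓝 (Real.log M))

/-- the moments of the model are nearly Gaussian -/
def S_GMO : Prop := ∀ (d k : ℕ) (V₀ : ℝ), ∃ C : ℝ, 0 ≤ C ∧
  ∀ (I : Finset ℕ) (F : ℕ → (Fin d → ℕ) → ℝ) (η : ℝ), 0 ≤ η → η ≤ 1 → Loc d I F η →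
  ∑ p ∈ I, mean d p (fun n => F p n ^ 2) ≤ V₀ →
  |mean d (∏ p ∈ I, p) (fun n => (∑ p ∈ I, F p n) ^ k) -
    Real.sqrt (∑ p ∈ I, mean d p (fun n => F p n ^ 2)) ^ k * MM 1 k| ≤ C * η

/-- shift and normalization -/
def S_SHIFT : Prop := ∀ (n : ℕ) (σ : ℝ), 0 < σ → ∃ C : ℝ, 0 ≤ C ∧
  ∀ (α : Type) (A : Finset α) (X : α → ℝ) (δ ζ : ℝ), A.Nonempty → |δ| ≤ ζ → ζ ≤ 1 →
  (∀ j ≤ n, |(∑ a ∈ A, X a ^ j) / (A.card : ℝ) - σ ^ j * MM 1 j| ≤ ζ) →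
  ∀ k ≤ n, |(∑ a ∈ A, ((X a + δ) / σ) ^ k) / (A.card : ℝ) - MM 1 k| ≤ C * ζ

/-- the distribution function from the moments, for an arbitrary finite set -/
def S_QF : Prop := ∃ C : ℝ, 0 < C ∧ ∀ (g : ℕ) (α : Type) (A : Finset α) (X : α → ℝ) (η : ℝ), 1 ≤ g → A.Nonempty → 0 ≤ η →
  (∀ k ≤ 2 * g, |(∑ a ∈ A, X a ^ k) / (A.card : ℝ) - MM 1 k| ≤ η) → ∀ z : ℝ,
    |(((A.filter (fun a => X a ≤ z)).card : ℕ) : ℝ) / (A.card : ℝ) - (gaussianReal 0 1).real (Set.Iic z)| ≤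
      C * (1 / Real.sqrt g + η * Real.exp (Real.sqrt g))

end Pool.Agent.NH22.BS
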